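import Mathlib

/-!
# From short intervals to the numbers `< T`
-/

set_option autoImplicit false

open Finset

namespace Pool.Agent.Y727.WA

theorem log_small (C : ℝ) (hC : 0 < C) (x : ℝ) (hx : (4 * C) ^ 4 ≤ x) :
    C * Real.sqrt x * Real.log x ≤ x := by
  have hx0 : 0 < x := lt_of_lt_of_le (by positivity) hx
  set y : ℝ := Real.sqrt (Real.sqrt x) with hy
  have hs0 : 0 < Real.sqrt x := Real.sqrt_pos.2 hx0
  have hy0 : 0 < y := Real.sqrt_pos.2 hs0
  have hy2 : y ^ 2 = Real.sqrt x := Real.sq_sqrt hs0.le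
  have hs2 : Real.sqrt x ^ 2 = x := Real.sq_sqrt hx0.le
  have hy4 : y ^ 4 = x := by
    calc y ^ 4 = (y ^ 2) ^ 2 := by ring
      _ = x := by rw [hy2, hs2]
  have h1 : 4 * C ≤ y := by
    by_contra hneg
    have := pow_lt_pow_left₀ (not_le.1 hneg) hy0.le (by norm_num : (4 : ℕ) ≠ 0)
    rw [hy4] at this
    linarith
  have h2 : Real.log x ≤ 4 * y := by
    rw [← hy4, Real.log_pow]
    have := Real.log_le_sub_one_of_pos hy0
    push_cast
    linarith
  calc C * Real.sqrt x * Real.log x ≤ C * Real.sqrt x * (4 * y) :=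
        mul_le_mul_of_nonneg_left h2 (by positivity)
    _ = (4 * C) * (y * Real.sqrt x) := by ring
    _ ≤ y * (y * Real.sqrt x) := mul_le_mul_of_nonneg_right h1 (by positivity)
    _ = x := by rw [← mul_assoc, ← pow_two, hy2, ← pow_two, hs2]

theorem count_T (P : ℕ → Prop) (c C : ℝ) (hc : 0 < c) (hC : 0 < C)
    (h : ∀ J H : ℕ, C ≤ J → C * Real.sqrt J * Real.log J ≤ H → H ≤ J →
      c * H ^ 2 / (J + H * Real.log J) ≤ (Set.ncard {j : ℕ | J ≤ j ∧ j < J + H ∧ P j} : ℝ)) :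
    ∃ c' C' : ℝ, 0 < c' ∧ 0 < C' ∧ ∀ T : ℕ, C' ≤ T →
      c' * T / Real.log T ≤ (Set.ncard {j : ℕ | j < T ∧ P j} : ℝ) := by
  refine ⟨c / 8, 4 * ((4 * C) ^ 4 + C + 4), by positivity, by positivity, fun T hT => ?_⟩
  set J : ℕ := T / 2 with hJ
  have hJT : 2 * J ≤ T := by omega
  have hJT' : T ≤ 2 * J + 1 := by omega
  have hTr : (T : ℝ) ≤ 2 * J + 1 := by exact_mod_cast hJT'
  have hC4 : 0 < (4 * C) ^ 4 := by positivity
  have hJ1 : (4 * C) ^ 4 + C + 4 ≤ J := by linarith
  have hJ0 : (0 : ℝ) < J := by linarith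
  have hT0 : (0 : ℝ) < T := by linarith
  have hJTr : (J : ℝ) ≤ T := by
    have : J ≤ T := by omega
    exact_mod_cast this
  have hTJ : (T : ℝ) ≤ 4 * J := by linarith
  have h1 := h J J (by linarith) (log_small C hC J (by linarith)) le_rfl
  have hlT1 : 1 ≤ Real.log T := by
    rw [Real.le_log_iff_exp_le hT0]
    have := Real.exp_one_lt_d9
    linarith
  have hlJ : Real.log J ≤ Real.log T := Real.log_le_log hJ0 hJTr
  have hlJ0 : 0 ≤ Real.log J := Real.log_nonneg (by linarith)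
  have h2 : c / 8 * T / Real.log T ≤ c * (J : ℝ) ^ 2 / (J + J * Real.log J) := by
    have e1 : c * (J : ℝ) ^ 2 / (J + J * Real.log J) = c * J / (1 + Real.log J) := by
      field_simp
    rw [e1, div_le_div_iff₀ (by linarith) (by linarith)]
    have e2 : 1 + Real.log J ≤ 2 * Real.log T := by linarith
    calc c / 8 * T * (1 + Real.log J) ≤ c / 8 * T * (2 * Real.log T) :=
          mul_le_mul_of_nonneg_left e2 (by positivity)
      _ = c / 4 * T * Real.log T := by ring
      _ ≤ c / 4 * (4 * J) * Real.log T :=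
          mul_le_mul_of_nonneg_right (mul_le_mul_of_nonneg_left hTJ (by positivity)) (by linarith)
      _ = c * J * Real.log T := by ring
  refine h2.trans (h1.trans ?_)
  have h3 : {j : ℕ | J ≤ j ∧ j < J + J ∧ P j} ⊆ {j : ℕ | j < T ∧ P j} := by
    rintro j ⟨-, a2, a3⟩
    exact ⟨by omega, a3⟩
  have hfin : {j : ℕ | j < T ∧ P j}.Finite := (Set.finite_lt_nat T).subset fun j hj => hj.1
  exact_mod_cast Set.ncard_le_ncard h3 hfin

end Pool.Agent.Y727.WA
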