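import Mathlib

/-!
# Summation by parts
-/

set_option autoImplicit false

open Finset

namespace Pool.Agent.Y727.WA

/-- summation by parts -/
theorem parts (P a : ℕ → ℂ) (N : ℕ) : ∑ i ∈ range N, P i * a i = P N * ∑ i ∈ range N, a i
      + ∑ i ∈ range N, (P i - P (i + 1)) * ∑ k ∈ range (i + 1), a k := by
  induction N with
  | zero => simp
  | succ N ih =>
    rw [Finset.sum_range_succ (fun i => P i * a i), ih,
      Finset.sum_range_succ (fun i => (P i - P (i + 1)) * ∑ k ∈ range (i + 1), a k) N,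
      Finset.sum_range_succ a N]
    ring

theorem parts_le (P a : ℕ → ℂ) (B : ℝ) (hB : ∀ N, ‖∑ i ∈ range N, a i‖ ≤ B) (N : ℕ) :
    ‖∑ i ∈ range N, P i * a i‖ ≤ B * (‖P N‖ + ∑ i ∈ range N, ‖P i - P (i + 1)‖) := by
  rw [parts, mul_add]
  refine (norm_add_le _ _).trans (add_le_add ?_ ?_)
  · rw [norm_mul, mul_comm]
    exact mul_le_mul_of_nonneg_right (hB N) (norm_nonneg _)
  · rw [mul_sum (range N) _ B]
    refine norm_sum_le_of_le _ fun i _ => ?_
    rw [norm_mul, mul_comm]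
    exact mul_le_mul_of_nonneg_right (hB _) (norm_nonneg _)

theorem parts_anti (G : ℕ → ℝ) (a : ℕ → ℂ) (B : ℝ) (hB : ∀ N, ‖∑ i ∈ range N, a i‖ ≤ B)
    (hG0 : ∀ i, 0 ≤ G i) (hG : ∀ i, G (i + 1) ≤ G i) (N : ℕ) :
    ‖∑ i ∈ range N, (G i : ℂ) * a i‖ ≤ B * G 0 := by
  refine (parts_le (fun i => (G i : ℂ)) a B hB N).trans (le_of_eq ?_)
  congr 1
  have h1 : ∀ i ∈ range N, ‖(G i : ℂ) - (G (i + 1) : ℂ)‖ = G i - G (i + 1) := by
    intro i _
    rw [← Complex.ofReal_sub, Complex.norm_real, Real.norm_eq_abs,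
      abs_of_nonneg (sub_nonneg.2 (hG i))]
  rw [sum_congr rfl h1, Finset.sum_range_sub', Complex.norm_real, Real.norm_eq_abs,
    abs_of_nonneg (hG0 N)]
  ring

theorem geo_le {z : ℂ} (hz : ‖z‖ = 1) (h1 : z ≠ 1) (N : ℕ) :
    ‖∑ i ∈ range N, z ^ i‖ ≤ 2 / ‖z - 1‖ := by
  have h2 : 0 < ‖z - 1‖ := norm_pos_iff.2 (sub_ne_zero.2 h1)
  rw [geom_sum_eq h1, norm_div]
  refine div_le_div_of_nonneg_right ?_ h2.le
  refine (norm_sub_le _ _).trans ?_
  rw [norm_pow, hz, one_pow, norm_one]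
  norm_num

/-- summation by parts for a sum over a finite set -/
theorem abel_fin {ι 𝕜 : Type*} [CommRing 𝕜] (s : Finset ι) (N : ι → ℕ) (Y : ℕ)
    (hN : ∀ i ∈ s, N i ≤ Y) (a : ι → 𝕜) (g : ℕ → 𝕜) :
    ∑ i ∈ s, a i * g (N i) = ∑ n ∈ range Y, (∑ i ∈ s.filter (fun i => N i ≤ n), a i) *
      (g n - g (n + 1)) + (∑ i ∈ s, a i) * g Y := by
  have h1 : ∀ i ∈ s, a i * g (N i) =
      ∑ n ∈ range Y, (if N i ≤ n then a i * (g n - g (n + 1)) else 0) + a i * g Y := by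
    intro i hi
    have h2 : ∑ n ∈ range Y, (if N i ≤ n then a i * (g n - g (n + 1)) else 0) =
        ∑ n ∈ Ico (N i) Y, a i * (g n - g (n + 1)) := by
      rw [← sum_filter]
      refine sum_congr ?_ fun _ _ => rfl
      ext n
      simp only [mem_filter, mem_range, mem_Ico]
      tauto
    rw [h2, ← mul_sum]
    have h3 : ∑ n ∈ Ico (N i) Y, (g n - g (n + 1)) = g (N i) - g Y := by
      have := Finset.sum_Ico_sub g (hN i hi)
      rw [← neg_inj, ← Finset.sum_neg_distrib]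
      simp only [neg_sub]
      exact this
    rw [h3]
    ring
  rw [sum_congr rfl h1, sum_add_distrib, sum_comm, ← sum_mul]
  congr 1
  refine sum_congr rfl fun n _ => ?_
  rw [sum_mul, sum_filter]

/-- comparison with the sum over all the integers -/
theorem abel_le {ι : Type*} (s : Finset ι) (N : ι → ℕ) (Y : ℕ) (hN : ∀ i ∈ s, N i ≤ Y)
    (hN1 : ∀ i ∈ s, 1 ≤ N i) (u : ι → ℝ) (A : ℝ)
    (hA : ∀ n, 1 ≤ n → n ≤ Y → ∑ i ∈ s.filter (fun i => N i ≤ n), u i ≤ A * n)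
    (g : ℕ → ℝ) (hg0 : 0 ≤ g Y) (hg : ∀ n, 1 ≤ n → g (n + 1) ≤ g n) (hY : 1 ≤ Y) :
    ∑ i ∈ s, u i * g (N i) ≤ A * ∑ n ∈ Icc 1 Y, g n := by
  have h1 := abel_fin s N Y hN u g
  have h2 := abel_fin (Icc 1 Y) (fun n => n) Y (fun i hi => (mem_Icc.1 hi).2) (fun _ => A) g
  rw [mul_sum, h2, h1]
  refine add_le_add (sum_le_sum fun n hn => ?_) ?_
  · have hn' := mem_range.1 hn
    rcases Nat.eq_zero_or_pos n with h0 | h0
    · subst h0
      have e1 : s.filter (fun i => N i ≤ 0) = ∅ := by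
        refine filter_eq_empty_iff.2 fun i hi => ?_
        have := hN1 i hi
        omega
      have e2 : (Icc 1 Y).filter (fun i => i ≤ 0) = ∅ := by
        refine filter_eq_empty_iff.2 fun i hi => ?_
        have := (mem_Icc.1 hi).1
        omega
      rw [e1, e2]
      simp
    · refine mul_le_mul_of_nonneg_right ?_ (sub_nonneg.2 (hg n h0))
      have e2 : (Icc 1 Y).filter (fun i => i ≤ n) = Icc 1 n := by
        ext k
        simp only [mem_filter, mem_Icc]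
        omega
      rw [e2, sum_const, Nat.card_Icc, nsmul_eq_mul, Nat.add_sub_cancel]
      exact (hA n h0 hn'.le).trans (le_of_eq (mul_comm _ _))
  · refine mul_le_mul_of_nonneg_right ?_ hg0
    have h3 := hA Y hY le_rfl
    rw [filter_true_of_mem hN] at h3
    rw [sum_const, Nat.card_Icc, nsmul_eq_mul, Nat.add_sub_cancel]
    exact h3.trans (le_of_eq (mul_comm _ _))

theorem harm_le (Y : ℕ) : ∑ n ∈ Icc 1 Y, (1 : ℝ) / n ≤ 1 + Real.log Y := by
  have h := harmonic_le_one_add_log Y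
  rw [harmonic_eq_sum_Icc] at h
  push_cast at h
  refine (le_of_eq (sum_congr rfl fun n _ => ?_)).trans h
  rw [one_div]

theorem sqrt_sum (Y : ℕ) : ∑ n ∈ Icc 1 Y, (1 : ℝ) / Real.sqrt n ≤ 2 * Real.sqrt Y := by
  induction Y with
  | zero => simp
  | succ Y ih =>
    rw [Finset.sum_Icc_succ_top (by omega)]
    have h1 : (0 : ℝ) ≤ Y := Nat.cast_nonneg Y
    set a := Real.sqrt (Y : ℝ) with ha
    set b := Real.sqrt ((Y + 1 : ℕ) : ℝ) with hb
    have hb2 : b ^ 2 = Y + 1 := by rw [hb, Real.sq_sqrt (by positivity)]; push_cast; ring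
    have ha2 : a ^ 2 = Y := by rw [ha, Real.sq_sqrt h1]
    have hb0 : 0 < b := Real.sqrt_pos.2 (by positivity)
    have ha0 : 0 ≤ a := Real.sqrt_nonneg _
    have h2 : 1 / b ≤ 2 * (b - a) := by
      rw [div_le_iff₀ hb0]
      nlinarith [sq_nonneg (b - a)]
    linarith

end Pool.Agent.Y727.WA
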