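import Mathlib
import Pool.Agent.TH936.AC.Eps
import Pool.Agent.Y727.WA.Ab

/-!
# The partial sums of `L(1, χ)`
-/

set_option autoImplicit false

open Finset

namespace Pool.Agent.Y727.WA

open Pool.Agent.TH936.AC.Eps in
theorem T_lim {n : ℕ} [NeZero n] {χ : DirichletCharacter ℂ n} (hχ : χ ≠ 1) (K : ℕ) :
    ‖∑ i ∈ range K, χ ((i + 1 : ℕ) : ZMod n) / ((i + 1 : ℕ) : ℂ) -
      DirichletCharacter.LFunction χ 1‖ ≤ 2 * n / (K + 1) := by
  have hS := partial_le hχ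
  set A : ℕ → ℂ := fun N => ∑ k ∈ range N, χ ((k + 1 : ℕ) : ZMod n) with hA
  set D : ℕ → ℝ := fun i => 1 / ((i : ℝ) + 1) - 1 / (((i + 1 : ℕ) : ℝ) + 1) with hD
  have hD0 : ∀ i, 0 ≤ D i := by
    intro i
    simp only [hD]
    rw [sub_nonneg]
    refine one_div_le_one_div_of_le (by positivity) ?_
    push_cast
    linarith
  have htele := tele (H := fun i : ℕ => 1 / ((i : ℝ) + 1)) (fun i => by
    have := hD0 i
    simp only [hD] at this
    linarith) (fun i => by positivity)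
  have hsum : Summable (fun i => |D i|) := htele.1
  have hsum' : Summable D := by
    refine hsum.congr fun i => ?_
    rw [abs_of_nonneg (hD0 i)]
  have hTs : Summable (fun i => ((D i : ℝ) : ℂ) * A (i + 1)) := (T_le hS hsum).1
  have e1 : ∑ i ∈ range K, χ ((i + 1 : ℕ) : ZMod n) / ((i + 1 : ℕ) : ℂ) =
      (1 / ((K : ℂ) + 1)) * A K + ∑ i ∈ range K, ((D i : ℝ) : ℂ) * A (i + 1) := by
    have := parts (fun i : ℕ => 1 / ((i : ℂ) + 1)) (fun i => χ ((i + 1 : ℕ) : ZMod n)) K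
    have e2 : ∑ i ∈ range K, χ ((i + 1 : ℕ) : ZMod n) / ((i + 1 : ℕ) : ℂ) =
        ∑ i ∈ range K, (1 / ((i : ℂ) + 1)) * χ ((i + 1 : ℕ) : ZMod n) := by
      refine sum_congr rfl fun i _ => ?_
      push_cast
      ring
    rw [e2, this]
    congr 1
    refine sum_congr rfl fun i _ => ?_
    simp only [hD, hA]
    push_cast
    ring
  have e3 : DirichletCharacter.LFunction χ 1 = ∑ i ∈ range K, ((D i : ℝ) : ℂ) * A (i + 1) +
      ∑' i, ((D (i + K) : ℝ) : ℂ) * A (i + K + 1) := by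
    rw [L_one hχ]
    exact (hTs.sum_add_tsum_nat_add K).symm
  rw [e1, e3]
  have e4 : (1 / ((K : ℂ) + 1)) * A K + ∑ i ∈ range K, ((D i : ℝ) : ℂ) * A (i + 1) -
      (∑ i ∈ range K, ((D i : ℝ) : ℂ) * A (i + 1) +
      ∑' i, ((D (i + K) : ℝ) : ℂ) * A (i + K + 1)) =
      (1 / ((K : ℂ) + 1)) * A K - ∑' i, ((D (i + K) : ℝ) : ℂ) * A (i + K + 1) := by ring
  rw [e4]
  have h1 : ‖(1 / ((K : ℂ) + 1)) * A K‖ ≤ n / (K + 1) := by
    rw [norm_mul, norm_div, norm_one]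
    have : ‖(K : ℂ) + 1‖ = (K : ℝ) + 1 := by
      have := Complex.norm_natCast (K + 1)
      push_cast at this
      exact this
    rw [this, one_div_mul_eq_div]
    exact div_le_div_of_nonneg_right (hS K) (by positivity)
  have hlim : HasSum (fun i => D (i + K)) (1 / ((K : ℝ) + 1)) := by
    refine (hasSum_iff_tendsto_nat_of_nonneg (fun i => hD0 _) _).2 ?_
    have h2 : ∀ N : ℕ, ∑ i ∈ range N, D (i + K) = 1 / ((K : ℝ) + 1) - 1 / (((N + K : ℕ) : ℝ) + 1) := by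
      intro N
      have := Finset.sum_range_sub' (fun i : ℕ => 1 / (((i + K : ℕ) : ℝ) + 1)) N
      rw [← zero_add K] at this ⊢
      rw [zero_add K] at this ⊢
      convert this using 1
      · refine sum_congr rfl fun i _ => ?_
        simp only [hD]
        rw [show i + K + 1 = i + 1 + K by ring]
      · rw [Nat.zero_add]
    simp only [h2]
    have h3 : Filter.Tendsto (fun N : ℕ => 1 / (((N + K : ℕ) : ℝ) + 1)) Filter.atTop (nhds 0) := by
      have := tendsto_one_div_add_atTop_nhds_zero_nat (𝕜 := ℝ)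
      exact this.comp (Filter.tendsto_add_atTop_nat K)
    have h4 := h3.const_sub (1 / ((K : ℝ) + 1))
    rw [sub_zero] at h4
    exact h4
  have h2 : ‖∑' i, ((D (i + K) : ℝ) : ℂ) * A (i + K + 1)‖ ≤ n / (K + 1) := by
    have := hlim.mul_left (n : ℝ)
    have e5 : (n : ℝ) * (1 / ((K : ℝ) + 1)) = n / (K + 1) := by ring
    rw [e5] at this
    refine tsum_of_norm_bounded this fun i => ?_
    rw [norm_mul, Complex.norm_real, Real.norm_eq_abs, abs_of_nonneg (hD0 _), mul_comm]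
    exact mul_le_mul_of_nonneg_right (hS _) (hD0 _)
  calc _ ≤ _ := norm_sub_le _ _
    _ ≤ n / (K + 1) + n / (K + 1) := add_le_add h1 h2
    _ = 2 * n / (K + 1) := by ring

theorem T_bdd {n : ℕ} [NeZero n] {χ : DirichletCharacter ℂ n} (hχ : χ ≠ 1) :
    ∃ B : ℝ, 0 < B ∧ ∀ K : ℕ,
      ‖∑ i ∈ range K, χ ((i + 1 : ℕ) : ZMod n) / ((i + 1 : ℕ) : ℂ)‖ ≤ B := by
  refine ⟨2 * n + ‖DirichletCharacter.LFunction χ 1‖ + 1, by positivity, fun K => ?_⟩
  have h1 := T_lim hχ K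
  have h2 : 2 * (n : ℝ) / (K + 1) ≤ 2 * n := by
    rw [div_le_iff₀ (by positivity)]
    have : (0 : ℝ) ≤ K := Nat.cast_nonneg K
    have : (0 : ℝ) ≤ n := Nat.cast_nonneg n
    nlinarith
  have h3 := norm_sub_norm_le (∑ i ∈ range K, χ ((i + 1 : ℕ) : ZMod n) / ((i + 1 : ℕ) : ℂ))
    (DirichletCharacter.LFunction χ 1)
  linarith

end Pool.Agent.Y727.WA
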