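import Mathlib
import Pool.Agent.TH936.AW.Wc

/-!
# The unramified character `Ψ` and the spacing of the angles of the primitive ideals
-/

set_option autoImplicit false

open Complex

namespace Pool.Agent.Y727.WA

open Pool.Agent.W192.HK Pool.Agent.TH936.AC
open Pool.Agent.W192.CM (ez nu)

/-- the product over the roots of unity -/
theorem root_dist (w : ℕ) (hw : 1 ≤ w) : ∃ c : ℝ, 0 < c ∧ c ≤ 1 ∧ ∀ x : ℂ, ∃ η : ℂ, η ^ w = 1 ∧
    c * ‖x - η‖ ≤ ‖x ^ w - 1‖ := by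
  classical
  have hpr := Complex.isPrimitiveRoot_exp w (by omega)
  set S := Polynomial.nthRootsFinset w (1 : ℂ) with hS
  have hmem : ∀ η : ℂ, η ∈ S ↔ η ^ w = 1 := fun η => by
    rw [hS, Polynomial.mem_nthRootsFinset (by omega)]
  have h1S : (1 : ℂ) ∈ S := (hmem 1).2 (one_pow w)
  set cf : ℂ → ℝ := fun η0 => ∏ η ∈ S.erase η0, (‖η - η0‖ / 2) with hcf
  have hcf0 : ∀ η0, 0 < cf η0 := by
    intro η0
    refine Finset.prod_pos fun η hη => ?_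
    have : 0 < ‖η - η0‖ := norm_pos_iff.2 (sub_ne_zero.2 (Finset.ne_of_mem_erase hη))
    positivity
  obtain ⟨η1, -, hη1⟩ := Finset.exists_min_image S cf ⟨1, h1S⟩
  refine ⟨min (cf η1) 1, lt_min (hcf0 η1) one_pos, min_le_right _ _, fun x => ?_⟩
  obtain ⟨η0, hη0, hmin⟩ := Finset.exists_min_image S (fun η => ‖x - η‖) ⟨1, h1S⟩
  refine ⟨η0, (hmem η0).1 hη0, ?_⟩
  have hprod : x ^ w - 1 = ∏ η ∈ S, (x - η) := by
    have h := Polynomial.X_pow_sub_one_eq_prod (by omega : 0 < w) hpr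
    have h2 := congrArg (Polynomial.eval x) h
    rw [Polynomial.eval_prod] at h2
    simpa using h2
  rw [hprod, norm_prod, ← Finset.mul_prod_erase S _ hη0, mul_comm]
  refine mul_le_mul_of_nonneg_left ?_ (norm_nonneg _)
  calc min (cf η1) 1 ≤ cf η1 := min_le_left _ _
    _ ≤ cf η0 := hη1 η0 hη0
    _ ≤ ∏ η ∈ S.erase η0, ‖x - η‖ := by
      refine Finset.prod_le_prod (fun η _ => by positivity) fun η hη => ?_
      have h2 := hmin η (Finset.mem_of_mem_erase hη)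
      have h3 : ‖η - η0‖ ≤ ‖x - η0‖ + ‖x - η‖ := by
        have : η - η0 = (x - η0) - (x - η) := by ring
        rw [this]
        exact norm_sub_le _ _
      linarith

section
variable {R : Subring ℂ} {ω : ℂ}

theorem fin_units (hK : H_BASIC) (hQ : QP R ω) : Finite Rˣ := by
  obtain ⟨-, -, -, -, -, -, -, -, h⟩ := hK R ω hQ.qr
  exact h

theorem nu_pos (hK : H_BASIC) (hQ : QP R ω) : 1 ≤ nu R := by
  have := fin_units hK hQ
  exact Nat.card_pos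

theorem unit_pow (hK : H_BASIC) (hQ : QP R ω) (u : Rˣ) : ((u : R) : ℂ) ^ nu R = 1 := by
  have := fin_units hK hQ
  have h1 : u ^ nu R = 1 := pow_card_eq_one'
  have h2 : (((u ^ nu R : Rˣ) : R) : ℂ) = 1 := by rw [h1]; simp
  rw [Units.val_pow_eq_pow_val] at h2
  simpa using h2

theorem root_unit (hK : H_BASIC) (hQ : QP R ω) {η : ℂ} (h : η ^ nu R = 1) :
    ∃ u : Rˣ, ((u : R) : ℂ) = η := by
  classical
  have hfin := fin_units hK hQ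
  have hft : Fintype Rˣ := Fintype.ofFinite _
  have hw := nu_pos hK hQ
  have hpr := Complex.isPrimitiveRoot_exp (nu R) (by omega)
  set S := Polynomial.nthRootsFinset (nu R) (1 : ℂ) with hS
  set U : Finset ℂ := Finset.univ.image (fun u : Rˣ => ((u : R) : ℂ)) with hU
  have hinj : Function.Injective (fun u : Rˣ => ((u : R) : ℂ)) := by
    intro a b hab
    exact Units.ext (Subtype.ext hab)
  have h1 : U ⊆ S := by
    intro x hx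
    obtain ⟨u, -, rfl⟩ := Finset.mem_image.1 hx
    rw [hS, Polynomial.mem_nthRootsFinset (by omega)]
    exact unit_pow hK hQ u
  have h2 : S.card ≤ U.card := by
    rw [hS, hpr.card_nthRootsFinset, hU, Finset.card_image_of_injective _ hinj, Finset.card_univ,
      nu, Nat.card_eq_fintype_card]
  have h3 := Finset.eq_of_subset_of_card_le h1 h2
  have h4 : η ∈ S := by
    rw [hS, Polynomial.mem_nthRootsFinset (by omega)]
    exact h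
  rw [← h3] at h4
  obtain ⟨u, -, hu⟩ := Finset.mem_image.1 h4
  exact ⟨u, hu⟩

theorem ex_gen (hQ : QP R ω) (I : Ideal R) : ∃ α : R, I = sp α := by
  have := hQ.pid
  exact (this.principal I).principal

theorem sp_ne {α : R} (h : α ≠ 0) : sp α ≠ ⊥ := by
  rw [Ne, Ideal.span_singleton_eq_bot]
  exact h

theorem ne_of_sp {α : R} (h : sp α ≠ ⊥) : α ≠ 0 := by
  rwa [Ne, Ideal.span_singleton_eq_bot] at h

theorem sp_mul (α β : R) : sp α * sp β = sp (α * β) := Ideal.span_singleton_mul_span_singleton α β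

/-- `Ψ` is the character with `Ψ((α)) = α ^ (2 w)` -/
def IsPs (Ψ : Ideal R → ℂ) : Prop := ∀ α : R, Ψ (sp α) = (α : ℂ) ^ (2 * nu R)

theorem ex_Ps (hK : H_BASIC) (hQ : QP R ω) : ∃ Ψ : Ideal R → ℂ, IsPs Ψ := by
  classical
  choose g hg using ex_gen hQ
  refine ⟨fun I => ((g I : R) : ℂ) ^ (2 * nu R), fun α => ?_⟩
  have h1 := hg (sp α)
  have hd : IsDomain R := inferInstance
  obtain ⟨u, hu⟩ := Ideal.span_singleton_eq_span_singleton.1 h1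
  simp only
  rw [← hu]
  push_cast
  rw [mul_pow, pow_mul', pow_mul' ((u : R) : ℂ), ← pow_mul', ← pow_mul']
  have h2 := unit_pow hK hQ u
  rw [pow_mul' ((u : R) : ℂ), h2, one_pow, mul_one]

theorem Ps_mul (hQ : QP R ω) {Ψ : Ideal R → ℂ} (hΨ : IsPs Ψ) (I J : Ideal R) :
    Ψ (I * J) = Ψ I * Ψ J := by
  obtain ⟨α, rfl⟩ := ex_gen hQ I
  obtain ⟨β, rfl⟩ := ex_gen hQ J
  rw [sp_mul, hΨ, hΨ, hΨ]
  push_cast
  rw [mul_pow]

theorem Ps_bot (hK : H_BASIC) (hQ : QP R ω) {Ψ : Ideal R → ℂ} (hΨ : IsPs Ψ) : Ψ ⊥ = 0 := by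
  have h1 : (⊥ : Ideal R) = sp 0 := by
    rw [eq_comm, Ideal.span_singleton_eq_bot]
  rw [h1, hΨ, Subring.coe_zero, zero_pow]
  have := nu_pos hK hQ
  omega

theorem Ps_top (hQ : QP R ω) {Ψ : Ideal R → ℂ} (hΨ : IsPs Ψ) : Ψ ⊤ = 1 := by
  have h1 : (⊤ : Ideal R) = sp 1 := Ideal.span_singleton_one.symm
  rw [h1, hΨ]
  simp

theorem Ps_norm (hK : H_BASIC) (hQ : QP R ω) {Ψ : Ideal R → ℂ} (hΨ : IsPs Ψ) (I : Ideal R) :
    ‖Ψ I‖ = nm I ^ nu R := by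
  obtain ⟨-, -, -, -, h5, -⟩ := hK R ω hQ.qr
  obtain ⟨α, rfl⟩ := ex_gen hQ I
  rw [hΨ, h5, norm_pow, pow_mul, Complex.normSq_eq_norm_sq]

theorem Ps_ne (hK : H_BASIC) (hQ : QP R ω) {Ψ : Ideal R → ℂ} (hΨ : IsPs Ψ) {I : Ideal R}
    (hI : I ≠ ⊥) : Ψ I ≠ 0 := by
  obtain ⟨-, -, h3, -⟩ := hK R ω hQ.qr
  have h1 := Ps_norm hK hQ hΨ I
  have h2 := h3 I hI
  rw [← norm_pos_iff, h1]
  positivity

theorem Ps_bar (hB : A_BAR) (hQ : QP R ω) {Ψ : Ideal R → ℂ} (hΨ : IsPs Ψ) (I : Ideal R) :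
    Ψ (bar I) = (starRingEnd ℂ) (Ψ I) := by
  obtain ⟨b1, -, -, -, -, b6, -⟩ := hB R ω hQ
  obtain ⟨α, rfl⟩ := ex_gen hQ I
  obtain ⟨β, hβ⟩ := b1 α
  rw [b6 α β hβ, hΨ, hΨ, hβ, map_pow]

theorem Ps_fix (hK : H_BASIC) (hB : A_BAR) (hQ : QP R ω) {Ψ : Ideal R → ℂ} (hΨ : IsPs Ψ)
    {I : Ideal R} (hI : I ≠ ⊥) (hbar : bar I = I) : Ψ I = (nm I : ℂ) ^ nu R := by
  obtain ⟨-, -, -, -, h5, -⟩ := hK R ω hQ.qr
  obtain ⟨b1, -, -, -, -, b6, -⟩ := hB R ω hQ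
  obtain ⟨α, rfl⟩ := ex_gen hQ I
  obtain ⟨β, hβ⟩ := b1 α
  rw [b6 α β hβ] at hbar
  have hd : IsDomain R := inferInstance
  obtain ⟨u, hu⟩ := Ideal.span_singleton_eq_span_singleton.1 hbar
  -- β u = α
  have h1 : (β : ℂ) * ((u : R) : ℂ) = α := by
    rw [← hu]
    push_cast
    rfl
  rw [hΨ, h5]
  have h2 : ((Complex.normSq (α : ℂ) : ℝ) : ℂ) = (α : ℂ) * (β : ℂ) := by
    rw [hβ, Complex.mul_conj]
  rw [h2]
  have h3 := unit_pow hK hQ u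
  calc (α : ℂ) ^ (2 * nu R) = (α : ℂ) ^ nu R * (α : ℂ) ^ nu R := by rw [two_mul, pow_add]
    _ = (α : ℂ) ^ nu R * ((β : ℂ) * ((u : R) : ℂ)) ^ nu R := by rw [h1]
    _ = ((α : ℂ) * (β : ℂ)) ^ nu R := by rw [mul_pow, h3, mul_one, mul_pow]

/-- the angle -/
noncomputable def zz (Ψ : Ideal R → ℂ) (I : Ideal R) : ℂ := Ψ I / (nm I : ℂ) ^ nu R

theorem zz_norm (hK : H_BASIC) (hQ : QP R ω) {Ψ : Ideal R → ℂ} (hΨ : IsPs Ψ) {I : Ideal R}
    (hI : I ≠ ⊥) : ‖zz Ψ I‖ = 1 := by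
  obtain ⟨-, -, h3, -⟩ := hK R ω hQ.qr
  have h2 := h3 I hI
  unfold zz
  rw [norm_div, norm_pow, Ps_norm hK hQ hΨ, Complex.norm_real, Real.norm_eq_abs,
    abs_of_nonneg (by linarith)]
  exact div_self (by positivity)

theorem zz_top (hK : H_BASIC) (hQ : QP R ω) {Ψ : Ideal R → ℂ} (hΨ : IsPs Ψ) : zz Ψ ⊤ = 1 := by
  obtain ⟨-, -, -, -, -, -, h7, -⟩ := hK R ω hQ.qr
  unfold zz
  rw [Ps_top hQ hΨ, (h7 ⊤).2 rfl]
  simp

theorem zz_mul (hK : H_BASIC) (hQ : QP R ω) {Ψ : Ideal R → ℂ} (hΨ : IsPs Ψ) (I J : Ideal R) :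
    zz Ψ (I * J) = zz Ψ I * zz Ψ J := by
  obtain ⟨-, -, -, h4, -⟩ := hK R ω hQ.qr
  unfold zz
  rw [Ps_mul hQ hΨ, h4]
  push_cast
  rw [mul_pow, mul_div_mul_comm]

theorem zz_nat (hK : H_BASIC) (hQ : QP R ω) {Ψ : Ideal R → ℂ} (hΨ : IsPs Ψ) {k : ℕ}
    (hk : 1 ≤ k) : zz Ψ (sp (k : R)) = 1 := by
  obtain ⟨-, -, -, -, h5, -⟩ := hK R ω hQ.qr
  have hk0 : (k : ℂ) ≠ 0 := by
    have : k ≠ 0 := by omega
    exact_mod_cast this
  unfold zz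
  rw [hΨ, h5]
  have e1 : ((k : R) : ℂ) = (k : ℂ) := by push_cast; rfl
  rw [e1, Complex.normSq_natCast]
  push_cast
  rw [pow_mul, ← pow_two]
  exact div_self (by positivity)

/-- the spacing of the angles -/
theorem spacing (hK : H_BASIC) (hB : A_BAR) (hQ : QP R ω) {Ψ : Ideal R → ℂ} (hΨ : IsPs Ψ) :
    ∃ κ : ℝ, 0 < κ ∧ κ ≤ 1 ∧ ∀ c c' : Ideal R, Pri c → Pri c' → c ≠ c' →
      κ ≤ ‖zz Ψ c - zz Ψ c'‖ * (Real.sqrt (nm c) * Real.sqrt (nm c')) := by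
  obtain ⟨-, -, h3, h4, h5, -, h7, -⟩ := hK R ω hQ.qr
  obtain ⟨b1, -, -, -, -, b6, -⟩ := hB R ω hQ
  obtain ⟨κ, hκ0, hκ1, hκ⟩ := root_dist (nu R) (nu_pos hK hQ)
  refine ⟨κ, hκ0, hκ1, fun c c' hc hc' hne => ?_⟩
  obtain ⟨α, rfl⟩ := ex_gen hQ c
  obtain ⟨β, rfl⟩ := ex_gen hQ c'
  obtain ⟨α', hα'⟩ := b1 α
  obtain ⟨β', hβ'⟩ := b1 β
  have hα0 : (α : ℂ) ≠ 0 := fun h => ne_of_sp hc.1 (Subtype.ext h)
  have hβ0 : (β : ℂ) ≠ 0 := fun h => ne_of_sp hc'.1 (Subtype.ext h)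
  have hα'0 : (α' : ℂ) ≠ 0 := by rw [hα']; exact (map_ne_zero _).2 hα0
  have hβ'0 : (β' : ℂ) ≠ 0 := by rw [hβ']; exact (map_ne_zero _).2 hβ0
  have hzα : zz Ψ (sp α) = ((α : ℂ) / α') ^ nu R := by
    unfold zz
    rw [hΨ, h5]
    have : ((Complex.normSq (α : ℂ) : ℝ) : ℂ) = (α : ℂ) * (α' : ℂ) := by
      rw [hα', Complex.mul_conj]
    rw [this, pow_mul, ← div_pow]
    congr 1
    field_simp
  have hzβ : zz Ψ (sp β) = ((β : ℂ) / β') ^ nu R := by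
    unfold zz
    rw [hΨ, h5]
    have : ((Complex.normSq (β : ℂ) : ℝ) : ℂ) = (β : ℂ) * (β' : ℂ) := by
      rw [hβ', Complex.mul_conj]
    rw [this, pow_mul, ← div_pow]
    congr 1
    field_simp
  set x : ℂ := ((α : ℂ) * β') / ((α' : ℂ) * β) with hx
  have hxz : zz Ψ (sp α) = x ^ nu R * zz Ψ (sp β) := by
    rw [hzα, hzβ, ← mul_pow]
    congr 1
    rw [hx]
    field_simp
  have hdist : ‖zz Ψ (sp α) - zz Ψ (sp β)‖ = ‖x ^ nu R - 1‖ := by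
    have : zz Ψ (sp α) - zz Ψ (sp β) = (x ^ nu R - 1) * zz Ψ (sp β) := by rw [hxz]; ring
    rw [this, norm_mul, zz_norm hK hQ hΨ hc'.1, mul_one]
  obtain ⟨η, hη, hle⟩ := hκ x
  obtain ⟨u, hu⟩ := root_unit hK hQ hη
  set δ : R := α * β' - (u : R) * (α' * β) with hδ
  have hδc : (δ : ℂ) = (x - η) * ((α' : ℂ) * β) := by
    rw [hδ]
    push_cast
    rw [hu, hx, sub_mul, div_mul_cancel₀ _ (mul_ne_zero hα'0 hβ0)]
  have hδ0 : δ ≠ 0 := by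
    intro h0
    have e1 : α * β' = (u : R) * (α' * β) := by
      rw [hδ] at h0
      exact sub_eq_zero.1 h0
    have e2 : sp α * bar (sp β) = bar (sp α) * sp β := by
      rw [b6 α α' hα', b6 β β' hβ', sp_mul, sp_mul, e1]
      refine Ideal.span_singleton_eq_span_singleton.2 ?_
      exact ⟨u⁻¹, by rw [mul_comm, ← mul_assoc, Units.inv_mul, one_mul]⟩
    have e3 : sp α ∣ sp β := by
      have : sp α ∣ bar (sp α) * sp β := ⟨bar (sp β), e2.symm⟩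
      exact hc.2.dvd_of_dvd_mul_left this
    have e4 : sp β ∣ sp α := by
      have : sp β ∣ sp α * bar (sp β) := ⟨bar (sp α), by rw [e2, mul_comm]⟩
      exact hc'.2.dvd_of_dvd_mul_right this
    exact hne (le_antisymm (Ideal.le_of_dvd e4) (Ideal.le_of_dvd e3))
  have hδ1 : 1 ≤ ‖(δ : ℂ)‖ := by
    have e1 := h3 (sp δ) (sp_ne hδ0)
    rw [h5, Complex.normSq_eq_norm_sq] at e1
    nlinarith [norm_nonneg (δ : ℂ)]
  have hsα : Real.sqrt (nm (sp α)) = ‖(α' : ℂ)‖ := by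
    rw [h5, Complex.normSq_eq_norm_sq, Real.sqrt_sq (norm_nonneg _), hα', RCLike.norm_conj]
  have hsβ : Real.sqrt (nm (sp β)) = ‖(β : ℂ)‖ := by
    rw [h5, Complex.normSq_eq_norm_sq, Real.sqrt_sq (norm_nonneg _)]
  rw [hdist, hsα, hsβ]
  rw [hδc, norm_mul, norm_mul] at hδ1
  calc κ = κ * 1 := (mul_one κ).symm
    _ ≤ κ * (‖x - η‖ * (‖(α' : ℂ)‖ * ‖(β : ℂ)‖)) := mul_le_mul_of_nonneg_left hδ1 hκ0.le
    _ = (κ * ‖x - η‖) * (‖(α' : ℂ)‖ * ‖(β : ℂ)‖) := by ring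
    _ ≤ ‖x ^ nu R - 1‖ * (‖(α' : ℂ)‖ * ‖(β : ℂ)‖) :=
        mul_le_mul_of_nonneg_right hle (by positivity)

end

end Pool.Agent.Y727.WA
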