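import Mathlib
import Pool.Agent.Y727.WA.Sp
import Pool.Agent.Y727.WA.Dg
import Pool.Agent.TH936.AW.Eps

/-!
# Finite sums over ideals as sums over primitive ideals
-/

set_option autoImplicit false

open Finset

namespace Pool.Agent.Y727.WA

open Pool.Agent.W192.HK Pool.Agent.TH936.AC Pool.Agent.TH936.AW
open Pool.Agent.W192.CM (nu)

section
variable {R : Subring ℂ} {ω : ℂ}

/-- the norm as a natural number -/
noncomputable def nN (I : Ideal R) : ℕ := Nat.card (R ⧸ I)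

theorem nm_eq (I : Ideal R) : nm I = (nN I : ℝ) := rfl

theorem nN_pos (hK : H_BASIC) (hQ : QP R ω) {I : Ideal R} (hI : I ≠ ⊥) : 1 ≤ nN I := by
  obtain ⟨-, -, k3, -⟩ := hK R ω hQ.qr
  have := k3 I hI
  rw [nm_eq] at this
  exact_mod_cast this

theorem nN_mul (hK : H_BASIC) (hQ : QP R ω) (k : ℕ) (c : Ideal R) :
    nN (sp (k : R) * c) = k ^ 2 * nN c := by
  obtain ⟨-, -, -, k4, k5, -⟩ := hK R ω hQ.qr
  have h1 := k4 (sp (k : R)) c
  rw [k5] at h1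
  have e1 : ((k : R) : ℂ) = (k : ℂ) := by push_cast; rfl
  rw [e1, Complex.normSq_natCast, nm_eq, nm_eq, ← pow_two] at h1
  exact_mod_cast h1

open Classical in
theorem dec_fin (hK : H_BASIC) (hD : A_DEC) (hQ : QP R ω) {f : Ideal R} (hf : f ≠ ⊥) (hR : Ram f)
    (Y : ℕ) (s : Finset (Ideal R)) (hs : ∀ I : Ideal R, I ∈ s ↔ nN I ≤ Y)
    (h : ℕ → ℂ) (hh : ∀ n, Y < n → h n = 0) (b : Ideal R → ℂ) (hb0 : b ⊥ = 0)
    (hbc : ∀ J : Ideal R, ¬ IsCoprime J f → b J = 0) (x : ℕ → ℂ)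
    (hx : ∀ (k : ℕ) (c : Ideal R), b (sp ((k + 1 : ℕ) : R) * c) = x k * b c) :
    ∑ I ∈ s, b I * h (nN I) =
      ∑ c ∈ s.filter Pri, b c * ∑ i ∈ range Y, h ((i + 1) ^ 2 * nN c) * x i := by
  set G : Ideal R → ℂ := fun I => b I * h (nN I) with hG
  have hG0 : ∀ I ∉ s, G I = 0 := by
    intro I hI
    have h1 : Y < nN I := by
      by_contra h2
      exact hI ((hs I).2 (not_lt.1 h2))
    simp only [hG]
    rw [hh _ h1, mul_zero]
  have hsum : Summable G := summable_of_ne_finset_zero hG0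
  obtain ⟨-, hdec⟩ := hD R ω hQ
  obtain ⟨-, h2⟩ := hdec f hf hR G hsum (by simp only [hG]; rw [hb0, zero_mul])
    (fun J hJ => by simp only [hG]; rw [hbc J hJ, zero_mul])
  rw [tsum_eq_sum hG0] at h2
  have h3 : ∀ c : Ideal R, c ∉ s.filter Pri →
      ∑' k : ℕ, (if Pri c ∧ 0 < k then G (sp (k : R) * c) else 0) = 0 := by
    intro c hc
    have : ∀ k : ℕ, (if Pri c ∧ 0 < k then G (sp (k : R) * c) else 0) = 0 := by
      intro k
      split_ifs with h4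
      · have h5 : c ∉ s := fun h6 => hc (mem_filter.2 ⟨h6, h4.1⟩)
        have h6 : Y < nN c := by
          by_contra h7
          exact h5 ((hs c).2 (not_lt.1 h7))
        have h7 : Y < nN (sp (k : R) * c) := by
          rw [nN_mul hK hQ]
          have : 1 ≤ k ^ 2 := Nat.one_le_pow _ _ h4.2
          calc Y < nN c := h6
            _ = 1 * nN c := (one_mul _).symm
            _ ≤ k ^ 2 * nN c := Nat.mul_le_mul_right _ this
        simp only [hG]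
        rw [hh _ h7, mul_zero]
      · rfl
    simp only [this]
    exact tsum_zero
  rw [tsum_eq_sum (fun c hc => h3 c hc)] at h2
  rw [show ∑ I ∈ s, b I * h (nN I) = ∑ I ∈ s, G I from rfl, h2]
  refine sum_congr rfl fun c hc => ?_
  have hcP : Pri c := (mem_filter.1 hc).2
  have hcN := nN_pos hK hQ hcP.1
  have h4 : ∀ k ∉ range (Y + 1), (if Pri c ∧ 0 < k then G (sp (k : R) * c) else 0) = 0 := by
    intro k hk
    rw [mem_range, not_lt] at hk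
    split_ifs with h5
    · have h7 : Y < nN (sp (k : R) * c) := by
        rw [nN_mul hK hQ]
        calc Y < k := by omega
          _ = k * 1 := (mul_one k).symm
          _ ≤ k * k := Nat.mul_le_mul_left _ h5.2
          _ = k ^ 2 * 1 := by ring
          _ ≤ k ^ 2 * nN c := Nat.mul_le_mul_left _ hcN
      simp only [hG]
      rw [hh _ h7, mul_zero]
    · rfl
  rw [tsum_eq_sum h4, sum_range_succ', mul_sum]
  have h5 : (if Pri c ∧ 0 < 0 then G (sp ((0 : ℕ) : R) * c) else 0) = 0 := by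
    rw [if_neg]
    rintro ⟨-, h6⟩
    exact lt_irrefl _ h6
  rw [h5, add_zero]
  refine sum_congr rfl fun i _ => ?_
  rw [if_pos ⟨hcP, Nat.succ_pos i⟩]
  simp only [hG]
  rw [hx, nN_mul hK hQ]
  ring

/-- the coefficient of an ideal -/
noncomputable def a0 (m : ℕ) (ψ : Ideal R → ℂ) (I : Ideal R) : ℂ := ψ I / (nm I : ℂ) ^ m

theorem a0_norm (hK : H_BASIC) (hF : H_FP) (hQ : QP R ω) {m : ℕ} (hm : 1 ≤ m) {f : Ideal R}
    {ψ : Ideal R → ℂ} (h : HC (2 * m - 1) f ψ) {I : Ideal R} (hI : I ≠ ⊥) :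
    ‖a0 m ψ I‖ ^ 2 ≤ 1 / nN I := by
  have hodd : Odd (2 * m - 1) := ⟨m - 1, by omega⟩
  obtain ⟨f1, -⟩ := hF R ω hQ.qr _ f ψ h (Pool.Agent.TH936.AW.Wc.ne_top hodd h)
  have hN := nN_pos hK hQ hI
  have hN0 : (0 : ℝ) < nN I := by exact_mod_cast hN
  unfold a0
  by_cases hc : IsCoprime I f
  · have h1 := f1 I hI hc
    rw [norm_div, norm_pow, div_pow, h1, Complex.norm_real, nm_eq, Real.norm_eq_abs,
      abs_of_pos hN0]
    rw [div_le_div_iff₀ (by positivity) hN0, one_mul, ← pow_succ, ← pow_mul]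
    refine le_of_eq ?_
    congr 1
    omega
  · rw [(h.zero I).2 (Or.inr hc), zero_div, norm_zero, zero_pow two_ne_zero]
    positivity

theorem a0_bot {m : ℕ} {f : Ideal R} {ψ : Ideal R → ℂ} {n : ℕ} (h : HC n f ψ) :
    a0 m ψ ⊥ = 0 := by
  unfold a0
  rw [(h.zero ⊥).2 (Or.inl rfl), zero_div]

theorem a0_top (hK : H_BASIC) (hQ : QP R ω) {m : ℕ} {f : Ideal R} {ψ : Ideal R → ℂ} {n : ℕ}
    (h : HC n f ψ) : a0 m ψ ⊤ = 1 := by
  obtain ⟨-, -, -, -, -, -, h7, -⟩ := hK R ω hQ.qr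
  unfold a0
  have h1 : ψ ⊤ = 1 := by
    have h2 := h.princ 1 one_ne_zero (by rw [sub_self]; exact f.zero_mem)
    have e : sp (1 : R) = ⊤ := Ideal.span_singleton_one
    rw [e] at h2
    rw [h2]
    simp
  rw [h1, (h7 ⊤).2 rfl]
  simp

/-- the Dirichlet character of the rational integers -/
theorem ex_chi (hK : H_BASIC) (hG : B_GC) (hQ : QP R ω) {m : ℕ} (hm : 1 ≤ m) {f : Ideal R}
    {ψ : Ideal R → ℂ} (h : HC (2 * m - 1) f ψ) :
    ∃ (L0 : ℂ) (x : ℕ → ℂ) (B A : ℝ), L0 ≠ 0 ∧ 0 < B ∧ 0 < A ∧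
      (∀ (k : ℕ) (c : Ideal R), a0 m ψ (sp ((k + 1 : ℕ) : R) * c) = x k * a0 m ψ c) ∧
      (∀ K : ℕ, ‖∑ i ∈ range K, x i‖ ≤ B) ∧
      ∀ K : ℕ, ‖∑ i ∈ range K, x i - L0‖ ≤ A / (K + 1) := by
  obtain ⟨-, -, -, k4, k5, -⟩ := hK R ω hQ.qr
  have hgc := hG R ω hQ m hm f ψ h
  obtain ⟨n, hn, χ, hχ, hχm⟩ := Pool.Agent.TH936.AW.Eps.exists_chi hK hQ.qr hgc
  obtain ⟨B, hB, hBb⟩ := T_bdd hχ
  have hn0 : (0 : ℝ) < n := by exact_mod_cast NeZero.pos n
  refine ⟨DirichletCharacter.LFunction χ 1,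
    fun i => χ ((i + 1 : ℕ) : ZMod n) / ((i + 1 : ℕ) : ℂ), B, 2 * n,
    DirichletCharacter.LFunction_apply_one_ne_zero hχ, hB, by positivity, ?_, hBb, T_lim hχ⟩
  intro k c
  have h1 := hχm (k + 1)
  have e1 : (((k + 1 : ℕ) : R) : ℂ) = ((k + 1 : ℕ) : ℂ) := by push_cast; rfl
  have e2 : nm (sp ((k + 1 : ℕ) : R)) = ((k + 1 : ℕ) : ℝ) ^ 2 := by
    rw [k5, e1, Complex.normSq_natCast, pow_two]
  have e3 : (nm (sp ((k + 1 : ℕ) : R)) : ℂ) = ((k + 1 : ℕ) : ℂ) ^ 2 := by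
    rw [e2]; push_cast; ring
  have hk0 : ((k + 1 : ℕ) : ℂ) ≠ 0 := by exact_mod_cast Nat.succ_ne_zero k
  change a0 m ψ (sp ((k + 1 : ℕ) : R) * c) =
    χ ((k + 1 : ℕ) : ZMod n) / ((k + 1 : ℕ) : ℂ) * a0 m ψ c
  rw [h1]
  unfold a0
  rw [h.mul, k4]
  push_cast at e3 ⊢
  rw [e3, mul_pow, mul_div_mul_comm]
  congr 1
  obtain ⟨m', rfl⟩ : ∃ m', m = m' + 1 := ⟨m - 1, by omega⟩
  have hk0' : ((k : ℂ) + 1) ≠ 0 := by push_cast at hk0; exact hk0
  rw [Nat.add_sub_cancel]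
  field_simp
  ring

end

end Pool.Agent.Y727.WA
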