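import Mathlib

/-!
# Well spaced points on the unit circle: a large sieve inequality and a harmonic sum
-/

set_option autoImplicit false

open Finset

namespace Pool.Agent.Y727.WA

/-- the coordinate `Im (z conj z₀)` separates the points near `z₀` -/
theorem im_sep {x y : ℂ} (hx : ‖x‖ = 1) (hy : ‖y‖ = 1) (hx1 : ‖x - 1‖ ≤ 1) (hy1 : ‖y - 1‖ ≤ 1) :
    ‖x - y‖ ≤ 3 * |x.im - y.im| := by
  have ex : x.re ^ 2 + x.im ^ 2 = 1 := by
    have := Complex.sq_norm x
    rw [Complex.normSq_apply, hx] at this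
    nlinarith
  have ey : y.re ^ 2 + y.im ^ 2 = 1 := by
    have := Complex.sq_norm y
    rw [Complex.normSq_apply, hy] at this
    nlinarith
  have key : ∀ z : ℂ, z.re ^ 2 + z.im ^ 2 = 1 → ‖z - 1‖ ≤ 1 → 1 / 2 ≤ z.re := by
    intro z hz hz1
    have h1 : ‖z - 1‖ ^ 2 ≤ 1 := by
      have := norm_nonneg (z - 1)
      nlinarith
    rw [Complex.sq_norm, Complex.normSq_apply] at h1
    simp only [Complex.sub_re, Complex.one_re, Complex.sub_im, Complex.one_im, sub_zero] at h1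
    nlinarith
  have hxr := key x ex hx1
  have hyr := key y ey hy1
  have hxi : |x.im| ≤ 1 := abs_le_one_iff_mul_self_le_one.2 (by nlinarith [sq_nonneg x.re])
  have hyi : |y.im| ≤ 1 := abs_le_one_iff_mul_self_le_one.2 (by nlinarith [sq_nonneg y.re])
  have h2 : |x.re - y.re| ≤ 2 * |x.im - y.im| := by
    have e : (x.re - y.re) * (x.re + y.re) = (y.im - x.im) * (x.im + y.im) := by nlinarith
    have e2 : |x.re - y.re| * (x.re + y.re) = |x.im - y.im| * |x.im + y.im| := by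
      rw [← abs_of_nonneg (show 0 ≤ x.re + y.re by linarith), ← abs_mul, e, abs_mul,
        abs_sub_comm]
    have h3 : |x.im + y.im| ≤ 2 := (abs_add_le _ _).trans (by linarith)
    have h4 : |x.re - y.re| ≤ |x.re - y.re| * (x.re + y.re) :=
      le_mul_of_one_le_right (abs_nonneg _) (by linarith)
    rw [e2] at h4
    nlinarith [abs_nonneg (x.im - y.im), mul_le_mul_of_nonneg_left h3 (abs_nonneg (x.im - y.im))]
  calc ‖x - y‖ ≤ |(x - y).re| + |(x - y).im| := Complex.norm_le_abs_re_add_abs_im _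
    _ = |x.re - y.re| + |x.im - y.im| := by rw [Complex.sub_re, Complex.sub_im]
    _ ≤ 3 * |x.im - y.im| := by linarith

/-- the set of the points near `z₀` is indexed by integers -/
theorem near_sum {ι : Type*} [DecidableEq ι] (s : Finset ι) (z : ι → ℂ) (δ : ℝ) (hδ : 0 < δ)
    (hz : ∀ i ∈ s, ‖z i‖ = 1) (hs : ∀ i ∈ s, ∀ j ∈ s, i ≠ j → δ ≤ ‖z i - z j‖) (z0 : ℂ)
    (h0 : ‖z0‖ = 1) (hn : ∀ i ∈ s, ‖z i - z0‖ ≤ 1) (f : ℝ → ℝ) (hf0 : ∀ x, 0 ≤ f x)
    (hf : AntitoneOn f (Set.Ici 0)) (K : ℕ) (hK : 3 / δ ≤ K) :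
    ∑ i ∈ s, f (‖z i - z0‖) ≤ 2 * ∑ k ∈ range (K + 1), f (δ / 3 * k) := by
  set w : ι → ℂ := fun i => z i * (starRingEnd ℂ) z0 with hw
  have hz0 : z0 * (starRingEnd ℂ) z0 = 1 := by
    rw [Complex.mul_conj, Complex.normSq_eq_norm_sq, h0]; norm_num
  have hnc : ‖(starRingEnd ℂ) z0‖ = 1 := by rw [RCLike.norm_conj, h0]
  have hw1 : ∀ i ∈ s, ‖w i‖ = 1 := fun i hi => by rw [hw]; simp only; rw [norm_mul, hz i hi, hnc, one_mul]
  have hwd : ∀ i ∈ s, ‖w i - 1‖ = ‖z i - z0‖ := by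
    intro i _
    rw [hw]; simp only
    rw [← hz0, ← sub_mul, norm_mul, hnc, mul_one]
  have hws : ∀ i ∈ s, ∀ j ∈ s, ‖w i - w j‖ = ‖z i - z j‖ := by
    intro i _ j _
    rw [hw]; simp only
    rw [← sub_mul, norm_mul, hnc, mul_one]
  have him : ∀ i ∈ s, |(w i).im| ≤ ‖z i - z0‖ := by
    intro i hi
    rw [← hwd i hi]
    have := Complex.abs_im_le_norm (w i - 1)
    simpa using this
  have key : ∀ t ⊆ s, (∀ i ∈ t, ∀ j ∈ t, i ≠ j → δ / 3 ≤ |(w i).im - (w j).im|) := by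
    intro t ht i hi j hj hij
    have h1 := im_sep (hw1 i (ht hi)) (hw1 j (ht hj)) (by rw [hwd i (ht hi)]; exact hn i (ht hi))
      (by rw [hwd j (ht hj)]; exact hn j (ht hj))
    rw [hws i (ht hi) j (ht hj)] at h1
    have h2 := hs i (ht hi) j (ht hj) hij
    linarith
  -- one half
  have half : ∀ (σ : ℝ), (σ = 1 ∨ σ = -1) →
      ∑ i ∈ s.filter (fun i => 0 ≤ σ * (w i).im), f (‖z i - z0‖) ≤
        ∑ k ∈ range (K + 1), f (δ / 3 * k) := by
    intro σ hσ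
    set t := s.filter (fun i => 0 ≤ σ * (w i).im) with ht
    have hts : t ⊆ s := filter_subset _ _
    set g : ι → ℕ := fun i => ⌊3 * (σ * (w i).im) / δ⌋₊ with hg
    have hσσ : ∀ x : ℝ, |σ * x| = |x| := by
      intro x; rcases hσ with h | h <;> rw [h] <;> simp
    have hginj : Set.InjOn g (t : Set ι) := by
      intro i hi j hj hij
      by_contra hne
      have h1 := key t hts i hi j hj hne
      have hi0 : 0 ≤ σ * (w i).im := (mem_filter.1 hi).2
      have hj0 : 0 ≤ σ * (w j).im := (mem_filter.1 hj).2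
      have a1 := Nat.floor_le (show 0 ≤ 3 * (σ * (w i).im) / δ by positivity)
      have a2 := Nat.lt_floor_add_one (3 * (σ * (w i).im) / δ)
      have b1 := Nat.floor_le (show 0 ≤ 3 * (σ * (w j).im) / δ by positivity)
      have b2 := Nat.lt_floor_add_one (3 * (σ * (w j).im) / δ)
      have hij' : (⌊3 * (σ * (w i).im) / δ⌋₊ : ℝ) = (⌊3 * (σ * (w j).im) / δ⌋₊ : ℝ) := by
        exact_mod_cast hij
      have h2 : |3 * (σ * (w i).im) / δ - 3 * (σ * (w j).im) / δ| < 1 := by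
        rw [abs_lt]; constructor <;> linarith
      have h3 : |3 * (σ * (w i).im) / δ - 3 * (σ * (w j).im) / δ| =
          3 / δ * |(w i).im - (w j).im| := by
        have : 3 * (σ * (w i).im) / δ - 3 * (σ * (w j).im) / δ =
            (3 / δ) * (σ * ((w i).im - (w j).im)) := by ring
        rw [this, abs_mul, hσσ, abs_of_pos (by positivity)]
      rw [h3] at h2
      have h4 : 3 / δ * (δ / 3) ≤ 3 / δ * |(w i).im - (w j).im| :=
        mul_le_mul_of_nonneg_left h1 (by positivity)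
      have h5 : 3 / δ * (δ / 3) = 1 := by field_simp
      linarith
    have hgr : ∀ i ∈ t, g i ∈ range (K + 1) := by
      intro i hi
      have h1 : |(w i).im| ≤ 1 := (him i (hts hi)).trans (hn i (hts hi))
      have h2 : σ * (w i).im ≤ 1 := (le_abs_self _).trans (by rw [hσσ]; exact h1)
      have h3 : 3 * (σ * (w i).im) / δ ≤ K := by
        refine le_trans ?_ hK
        exact div_le_div_of_nonneg_right (by linarith) hδ.le
      rw [mem_range]
      exact Nat.lt_succ_of_le (Nat.floor_le_of_le h3)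
    calc ∑ i ∈ t, f (‖z i - z0‖) ≤ ∑ i ∈ t, f (δ / 3 * (g i : ℝ)) := by
          refine sum_le_sum fun i hi => hf ?_ ?_ ?_
          · exact Set.mem_Ici.2 (by positivity)
          · exact Set.mem_Ici.2 (norm_nonneg _)
          · have hi0 : 0 ≤ σ * (w i).im := (mem_filter.1 hi).2
            have a1 := Nat.floor_le (show 0 ≤ 3 * (σ * (w i).im) / δ by positivity)
            have h1 : σ * (w i).im ≤ ‖z i - z0‖ :=
              ((le_abs_self _).trans (by rw [hσσ])).trans (him i (hts hi))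
            have h2 : δ / 3 * (g i : ℝ) ≤ δ / 3 * (3 * (σ * (w i).im) / δ) :=
              mul_le_mul_of_nonneg_left a1 (by positivity)
            have h3 : δ / 3 * (3 * (σ * (w i).im) / δ) = σ * (w i).im := by field_simp
            linarith
      _ = ∑ k ∈ t.image g, f (δ / 3 * (k : ℝ)) := by
          rw [sum_image hginj]
      _ ≤ ∑ k ∈ range (K + 1), f (δ / 3 * k) := by
          refine sum_le_sum_of_subset_of_nonneg ?_ (fun _ _ _ => hf0 _)
          intro k hk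
          obtain ⟨i, hi, rfl⟩ := mem_image.1 hk
          exact hgr i hi
  have hsub : ∑ i ∈ s, f (‖z i - z0‖) ≤
      ∑ i ∈ s.filter (fun i => 0 ≤ (1 : ℝ) * (w i).im), f (‖z i - z0‖) +
      ∑ i ∈ s.filter (fun i => 0 ≤ (-1 : ℝ) * (w i).im), f (‖z i - z0‖) := by
    rw [← sum_union_inter]
    refine le_add_of_le_of_nonneg ?_ (sum_nonneg fun _ _ => hf0 _)
    refine sum_le_sum_of_subset_of_nonneg ?_ (fun _ _ _ => hf0 _)
    intro i hi
    rw [mem_union, mem_filter, mem_filter]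
    rcases le_total 0 (w i).im with h | h
    · left; exact ⟨hi, by linarith⟩
    · right; exact ⟨hi, by linarith⟩
  have h1 := half 1 (Or.inl rfl)
  have h2 := half (-1) (Or.inr rfl)
  linarith

/-- every point of the circle is near to one of the fourth roots of unity -/
theorem near_four {z : ℂ} (hz : ‖z‖ = 1) :
    ∃ u ∈ ({1, -1, Complex.I, -Complex.I} : Finset ℂ), ‖z - u‖ ≤ 1 := by
  have ez : z.re ^ 2 + z.im ^ 2 = 1 := by
    have := Complex.sq_norm z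
    rw [Complex.normSq_apply, hz] at this
    nlinarith
  have key : ∀ u : ℂ, (z.re - u.re) ^ 2 + (z.im - u.im) ^ 2 ≤ 1 → ‖z - u‖ ≤ 1 := by
    intro u hu
    have h1 : ‖z - u‖ ^ 2 ≤ 1 := by
      rw [Complex.sq_norm, Complex.normSq_apply, Complex.sub_re, Complex.sub_im]
      nlinarith
    nlinarith [norm_nonneg (z - u)]
  rcases le_total (1 / 2) z.re with h1 | h1
  · refine ⟨1, by simp, key _ ?_⟩
    simp only [Complex.one_re, Complex.one_im, sub_zero]; nlinarith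
  rcases le_total z.re (-(1 / 2)) with h2 | h2
  · refine ⟨-1, by simp, key _ ?_⟩
    simp only [Complex.neg_re, Complex.neg_im, Complex.one_re, Complex.one_im, neg_zero, sub_zero]
    nlinarith
  have h3 : 3 / 4 ≤ z.im ^ 2 := by nlinarith
  rcases le_total 0 z.im with h4 | h4
  · refine ⟨Complex.I, by simp, key _ ?_⟩
    have h5 : 1 / 2 ≤ z.im := by nlinarith
    simp only [Complex.I_re, Complex.I_im, sub_zero]
    nlinarith
  · refine ⟨-Complex.I, by simp, key _ ?_⟩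
    have h5 : z.im ≤ -(1 / 2) := by nlinarith
    simp only [Complex.neg_re, Complex.neg_im, Complex.I_re, Complex.I_im, neg_zero, sub_zero]
    nlinarith

/-- the number of well spaced points -/
theorem card_le {ι : Type*} [DecidableEq ι] (s : Finset ι) (z : ι → ℂ) (δ : ℝ) (hδ : 0 < δ)
    (hz : ∀ i ∈ s, ‖z i‖ = 1) (hs : ∀ i ∈ s, ∀ j ∈ s, i ≠ j → δ ≤ ‖z i - z j‖) :
    (s.card : ℝ) ≤ 8 * (3 / δ + 2) := by
  classical
  set U : Finset ℂ := {1, -1, Complex.I, -Complex.I} with hU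
  have hUc : U.card ≤ 4 := Finset.card_le_four
  have hU1 : ∀ u ∈ U, ‖u‖ = 1 := by
    intro u hu
    rw [hU] at hu
    simp only [Finset.mem_insert, Finset.mem_singleton] at hu
    rcases hu with h | h | h | h <;> rw [h] <;> simp
  set K : ℕ := ⌈3 / δ⌉₊ with hK
  have hK1 : 3 / δ ≤ K := Nat.le_ceil _
  have hK2 : (K : ℝ) ≤ 3 / δ + 1 := (Nat.ceil_lt_add_one (by positivity)).le
  have h1 : ∀ u ∈ U, ((s.filter (fun i => ‖z i - u‖ ≤ 1)).card : ℝ) ≤ 2 * (K + 1) := by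
    intro u hu
    have h := near_sum (s.filter (fun i => ‖z i - u‖ ≤ 1)) z δ hδ
      (fun i hi => hz i (mem_filter.1 hi).1)
      (fun i hi j hj => hs i (mem_filter.1 hi).1 j (mem_filter.1 hj).1) u (hU1 u hu)
      (fun i hi => (mem_filter.1 hi).2) (fun _ => 1) (fun _ => zero_le_one)
      (fun _ _ _ _ _ => le_rfl) K hK1
    simpa using h
  have h2 : s ⊆ U.biUnion (fun u => s.filter (fun i => ‖z i - u‖ ≤ 1)) := by
    intro i hi
    obtain ⟨u, hu, hu1⟩ := near_four (hz i hi)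
    exact mem_biUnion.2 ⟨u, hu, mem_filter.2 ⟨hi, hu1⟩⟩
  have h3 : (s.card : ℝ) ≤ ∑ u ∈ U, ((s.filter (fun i => ‖z i - u‖ ≤ 1)).card : ℝ) := by
    have := (Finset.card_le_card h2).trans Finset.card_biUnion_le
    exact_mod_cast this
  have h4 : ∑ u ∈ U, ((s.filter (fun i => ‖z i - u‖ ≤ 1)).card : ℝ) ≤ U.card * (2 * (K + 1)) := by
    rw [← nsmul_eq_mul]; exact Finset.sum_le_card_nsmul _ _ _ h1
  have h5 : (U.card : ℝ) ≤ 4 := by exact_mod_cast hUc
  have h6 : (0 : ℝ) ≤ 2 * (K + 1) := by positivity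
  calc (s.card : ℝ) ≤ U.card * (2 * (K + 1)) := h3.trans h4
    _ ≤ 4 * (2 * (K + 1)) := mul_le_mul_of_nonneg_right h5 h6
    _ ≤ 8 * (3 / δ + 2) := by linarith

/-- sum over all the points -/
theorem all_sum {ι : Type*} [DecidableEq ι] (s : Finset ι) (z : ι → ℂ) (δ : ℝ) (hδ : 0 < δ)
    (hz : ∀ i ∈ s, ‖z i‖ = 1) (hs : ∀ i ∈ s, ∀ j ∈ s, i ≠ j → δ ≤ ‖z i - z j‖) (z0 : ℂ)
    (h0 : ‖z0‖ = 1) (f : ℝ → ℝ) (hf0 : ∀ x, 0 ≤ f x)
    (hf : AntitoneOn f (Set.Ici 0)) (K : ℕ) (hK : 3 / δ ≤ K) :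
    ∑ i ∈ s, f (‖z i - z0‖) ≤ 2 * ∑ k ∈ range (K + 1), f (δ / 3 * k) + 8 * (3 / δ + 2) * f 1 := by
  classical
  rw [← Finset.sum_filter_add_sum_filter_not s (fun i => ‖z i - z0‖ ≤ 1)]
  refine add_le_add ?_ ?_
  · exact near_sum _ z δ hδ (fun i hi => hz i (mem_filter.1 hi).1)
      (fun i hi j hj => hs i (mem_filter.1 hi).1 j (mem_filter.1 hj).1) z0 h0
      (fun i hi => (mem_filter.1 hi).2) f hf0 hf K hK
  · have h1 : ∀ i ∈ s.filter (fun i => ¬ ‖z i - z0‖ ≤ 1), f (‖z i - z0‖) ≤ f 1 := by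
      intro i hi
      have := (mem_filter.1 hi).2
      exact hf (Set.mem_Ici.2 zero_le_one) (Set.mem_Ici.2 (norm_nonneg _)) (by linarith)
    refine (Finset.sum_le_card_nsmul _ _ _ h1).trans ?_
    rw [nsmul_eq_mul]
    refine mul_le_mul_of_nonneg_right ?_ (hf0 1)
    exact card_le _ z δ hδ (fun i hi => hz i (mem_filter.1 hi).1)
      (fun i hi j hj => hs i (mem_filter.1 hi).1 j (mem_filter.1 hj).1)

/-- harmonic sum -/
theorem harm {ι : Type*} [DecidableEq ι] (s : Finset ι) (z : ι → ℂ) (δ : ℝ) (hδ : 0 < δ)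
    (hδ1 : δ ≤ 1) (hz : ∀ i ∈ s, ‖z i‖ = 1)
    (hs : ∀ i ∈ s, ∀ j ∈ s, i ≠ j → δ ≤ ‖z i - z j‖) (z0 : ℂ)
    (h0 : ‖z0‖ = 1) (h1 : ∀ i ∈ s, δ ≤ ‖z i - z0‖) :
    ∑ i ∈ s, 1 / ‖z i - z0‖ ≤ 100 * (1 / δ) * (1 + Real.log (1 / δ)) := by
  set K : ℕ := ⌈3 / δ⌉₊ with hK
  have hK1 : 3 / δ ≤ K := Nat.le_ceil _
  have hK2 : (K : ℝ) ≤ 3 / δ + 1 := (Nat.ceil_lt_add_one (by positivity)).le
  set f : ℝ → ℝ := fun x => 1 / max δ x with hf
  have hf0 : ∀ x, 0 ≤ f x := fun x => by rw [hf]; simp only; positivity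
  have hfa : AntitoneOn f (Set.Ici 0) := by
    intro x _ y _ hxy
    rw [hf]; simp only
    exact one_div_le_one_div_of_le (by positivity) (max_le_max le_rfl hxy)
  have h2 := all_sum s z δ hδ hz hs z0 h0 f hf0 hfa K hK1
  have h3 : ∑ i ∈ s, 1 / ‖z i - z0‖ = ∑ i ∈ s, f (‖z i - z0‖) := by
    refine sum_congr rfl fun i hi => ?_
    rw [hf]; simp only
    rw [max_eq_right (h1 i hi)]
  have hd1 : 1 ≤ 1 / δ := by rw [le_div_iff₀ hδ]; linarith
  have hl0 : 0 ≤ Real.log (1 / δ) := Real.log_nonneg hd1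
  have h4 : f 1 = 1 := by rw [hf]; simp only; rw [max_eq_right hδ1]; norm_num
  have h5 : ∑ k ∈ range (K + 1), f (δ / 3 * k) ≤ 1 / δ + 3 / δ * (1 + Real.log K) := by
    rw [sum_range_succ']
    have e0 : f (δ / 3 * ((0 : ℕ) : ℝ)) = 1 / δ := by
      rw [hf]; simp only; rw [Nat.cast_zero, mul_zero, max_eq_left hδ.le]
    rw [e0, add_comm]
    refine add_le_add le_rfl ?_
    have e1 : ∀ k ∈ range K, f (δ / 3 * ((k + 1 : ℕ) : ℝ)) ≤ 3 / δ * (1 / ((k : ℝ) + 1)) := by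
      intro k _
      rw [hf]; simp only
      have : 3 / δ * (1 / ((k : ℝ) + 1)) = 1 / (δ / 3 * ((k + 1 : ℕ) : ℝ)) := by
        push_cast; field_simp
      rw [this]
      exact one_div_le_one_div_of_le (by positivity) (le_max_right _ _)
    refine (sum_le_sum e1).trans ?_
    rw [← mul_sum]
    refine mul_le_mul_of_nonneg_left ?_ (by positivity)
    have h := harmonic_le_one_add_log K
    have e2 : ((harmonic K : ℚ) : ℝ) = ∑ k ∈ range K, 1 / ((k : ℝ) + 1) := by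
      unfold harmonic
      push_cast
      exact sum_congr rfl fun k _ => by rw [one_div]
    rw [e2] at h
    exact h
  have hK0 : (0 : ℝ) < K := lt_of_lt_of_le (by positivity) hK1
  have h6 : Real.log K ≤ 2 + Real.log (1 / δ) := by
    have a1 : (K : ℝ) ≤ 4 * (1 / δ) := by
      have : 3 / δ = 3 * (1 / δ) := by ring
      linarith
    have a2 := Real.log_le_log hK0 a1
    rw [Real.log_mul (by norm_num) (by positivity)] at a2
    have a3 : Real.log 4 ≤ 2 := by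
      have : Real.log 4 = 2 * Real.log 2 := by
        rw [show (4 : ℝ) = 2 ^ 2 by norm_num, Real.log_pow]; norm_num
      rw [this]
      have := Real.log_two_lt_d9
      linarith
    linarith
  rw [h3]
  rw [h4, mul_one] at h2
  have e3 : 3 / δ = 3 * (1 / δ) := by ring
  rw [e3] at h5 h2
  set D := 1 / δ
  set l := Real.log D
  have h7 : 3 * D * (1 + Real.log K) ≤ 3 * D * (3 + l) :=
    mul_le_mul_of_nonneg_left (by linarith) (by positivity)
  nlinarith [mul_nonneg (by linarith : (0:ℝ) ≤ D) hl0]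

/-- the kernel function -/
noncomputable def fk (M x : ℝ) : ℝ := 4 / (max x (2 / M)) ^ 2

theorem fk_nonneg (M x : ℝ) : 0 ≤ fk M x := by unfold fk; positivity

theorem fk_anti {M : ℝ} (hM : 0 < M) : AntitoneOn (fk M) (Set.Ici 0) := by
  intro x _ y _ hxy
  unfold fk
  have h1 : 0 < 2 / M := by positivity
  have h2 : 0 < max x (2 / M) := lt_of_lt_of_le h1 (le_max_right _ _)
  refine div_le_div_of_nonneg_left (by norm_num) (by positivity) ?_
  exact pow_le_pow_left₀ h2.le (max_le_max hxy le_rfl) 2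

theorem fk_sum {M δ : ℝ} (hM : 1 ≤ M) (hδ : 0 < δ) (K : ℕ) :
    ∑ k ∈ range (K + 1), fk M (δ / 3 * k) ≤ M ^ 2 + 24 * (M / δ) := by
  have hM0 : 0 < M := by linarith
  set c : ℝ := 2 / M with hc
  have hc0 : 0 < c := by positivity
  rw [sum_range_succ', add_comm]
  refine add_le_add ?_ ?_
  · unfold fk
    rw [Nat.cast_zero, mul_zero, max_eq_right (by positivity)]
    rw [div_pow, div_div_eq_mul_div, div_le_iff₀ (by positivity)]
    nlinarith [sq_nonneg M]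
  · set h : ℕ → ℝ := fun k => 48 / δ * (1 / (δ / 3 * k + c)) with hh
    have h1 : ∀ k ∈ range K, fk M (δ / 3 * ((k + 1 : ℕ) : ℝ)) ≤ h k - h (k + 1) := by
      intro k _
      have hk : (0 : ℝ) ≤ k := Nat.cast_nonneg k
      set x : ℝ := δ / 3 * k with hx
      have hx0 : 0 ≤ x := by positivity
      have e1 : δ / 3 * ((k + 1 : ℕ) : ℝ) = x + δ / 3 := by push_cast; ring
      have e2 : h k - h (k + 1) = 16 / ((x + c) * (x + δ / 3 + c)) := by
        simp only [hh]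
        rw [e1]
        have a1 : x + c ≠ 0 := by positivity
        have a2 : x + δ / 3 + c ≠ 0 := by positivity
        field_simp
        ring
      rw [e1, e2]
      unfold fk
      rw [div_le_div_iff₀ (by positivity) (by positivity)]
      have a3 : x + δ / 3 + c ≤ 2 * max (x + δ / 3) c := by
        have b1 := le_max_left (x + δ / 3) c
        have b2 := le_max_right (x + δ / 3) c
        linarith
      have a4 : x + c ≤ 2 * max (x + δ / 3) c := by linarith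
      have a5 : (x + c) * (x + δ / 3 + c) ≤ (2 * max (x + δ / 3) c) * (2 * max (x + δ / 3) c) :=
        mul_le_mul a4 a3 (by positivity) (by positivity)
      nlinarith
    refine (sum_le_sum h1).trans ?_
    rw [Finset.sum_range_sub']
    have h2 : 0 ≤ h K := by simp only [hh]; positivity
    have h3 : h 0 = 24 * (M / δ) := by
      simp only [hh, hc]
      rw [Nat.cast_zero, mul_zero, zero_add]
      field_simp
      ring
    linarith

theorem fk_one {M : ℝ} : fk M 1 ≤ 4 := by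
  unfold fk
  rw [div_le_iff₀ (by positivity)]
  have h1 := le_max_left (1 : ℝ) (2 / M)
  nlinarith

/-- the geometric sums -/
theorem geo_fk {x y : ℂ} (hx : ‖x‖ = 1) (hy : ‖y‖ = 1) (M : ℕ) (hM : 1 ≤ M) :
    ‖∑ a ∈ range M, (x * (starRingEnd ℂ) y) ^ a‖ ^ 2 ≤ fk M ‖x - y‖ := by
  have hM0 : (0 : ℝ) < M := by exact_mod_cast hM
  have hyc : ‖(starRingEnd ℂ) y‖ = 1 := by rw [RCLike.norm_conj, hy]
  have hζ : ‖x * (starRingEnd ℂ) y‖ = 1 := by rw [norm_mul, hx, hyc, one_mul]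
  have hyy : y * (starRingEnd ℂ) y = 1 := by
    rw [Complex.mul_conj, Complex.normSq_eq_norm_sq, hy]; norm_num
  have hd : ‖x * (starRingEnd ℂ) y - 1‖ = ‖x - y‖ := by
    rw [← hyy, ← sub_mul, norm_mul, hyc, mul_one]
  have h1 : ‖∑ a ∈ range M, (x * (starRingEnd ℂ) y) ^ a‖ ≤ M := by
    calc _ ≤ ∑ a ∈ range M, (1 : ℝ) := norm_sum_le_of_le _ fun a _ => by
          rw [norm_pow, hζ, one_pow]
      _ = M := by simp
  have key : ∀ t : ℝ, 0 ≤ t → t ≤ 2 / max ‖x - y‖ (2 / M) → t ^ 2 ≤ fk M ‖x - y‖ := by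
    intro t ht h
    unfold fk
    calc t ^ 2 ≤ (2 / max ‖x - y‖ (2 / M)) ^ 2 := pow_le_pow_left₀ ht h 2
      _ = 4 / (max ‖x - y‖ (2 / M)) ^ 2 := by rw [div_pow]; norm_num
  refine key _ (norm_nonneg _) ?_
  rcases le_total ‖x - y‖ (2 / (M : ℝ)) with h | h
  · rw [max_eq_right h]
    have : 2 / (2 / (M : ℝ)) = M := by field_simp
    rw [this]
    exact h1
  · rw [max_eq_left h]
    have h0 : 0 < ‖x - y‖ := lt_of_lt_of_le (by positivity) h
    have hne : x * (starRingEnd ℂ) y ≠ 1 := by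
      intro hh
      rw [hh, sub_self, norm_zero] at hd
      linarith
    rw [geom_sum_eq hne, norm_div, hd]
    refine div_le_div_of_nonneg_right ?_ h0.le
    refine (norm_sub_le _ _).trans ?_
    rw [norm_pow, hζ, one_pow, norm_one]
    norm_num

/-- the quadratic form -/
theorem quad {ι : Type*} (s : Finset ι) (z c : ι → ℂ) (M : ℕ) :
    ∑ a ∈ range M, ∑ b ∈ range M, ‖∑ i ∈ s, c i * z i ^ (a + b)‖ ^ 2 ≤
      ∑ i ∈ s, ∑ j ∈ s, ‖c i‖ * ‖c j‖ *
        ‖∑ a ∈ range M, (z i * (starRingEnd ℂ) (z j)) ^ a‖ ^ 2 := by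
  have h1 : ∀ n : ℕ, ((‖∑ i ∈ s, c i * z i ^ n‖ ^ 2 : ℝ) : ℂ) =
      ∑ i ∈ s, ∑ j ∈ s, c i * (starRingEnd ℂ) (c j) * (z i * (starRingEnd ℂ) (z j)) ^ n := by
    intro n
    have : ((‖∑ i ∈ s, c i * z i ^ n‖ ^ 2 : ℝ) : ℂ) =
        (∑ i ∈ s, c i * z i ^ n) * (starRingEnd ℂ) (∑ i ∈ s, c i * z i ^ n) := by
      rw [Complex.mul_conj, Complex.normSq_eq_norm_sq]
    rw [this, map_sum, sum_mul_sum]
    refine sum_congr rfl fun i _ => sum_congr rfl fun j _ => ?_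
    rw [map_mul, map_pow, mul_pow]
    ring
  have h2 : ((∑ a ∈ range M, ∑ b ∈ range M, ‖∑ i ∈ s, c i * z i ^ (a + b)‖ ^ 2 : ℝ) : ℂ) =
      ∑ i ∈ s, ∑ j ∈ s, c i * (starRingEnd ℂ) (c j) *
        (∑ a ∈ range M, (z i * (starRingEnd ℂ) (z j)) ^ a) ^ 2 := by
    rw [Complex.ofReal_sum]
    have e1 : ∀ a ∈ range M, ((∑ b ∈ range M, ‖∑ i ∈ s, c i * z i ^ (a + b)‖ ^ 2 : ℝ) : ℂ) =
        ∑ i ∈ s, ∑ j ∈ s, ∑ b ∈ range M, c i * (starRingEnd ℂ) (c j) *
          (z i * (starRingEnd ℂ) (z j)) ^ (a + b) := by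
      intro a _
      rw [Complex.ofReal_sum, sum_congr rfl fun b _ => h1 (a + b), sum_comm]
      exact sum_congr rfl fun i _ => by rw [sum_comm]
    rw [sum_congr rfl e1, sum_comm]
    refine sum_congr rfl fun i _ => ?_
    rw [sum_comm]
    refine sum_congr rfl fun j _ => ?_
    rw [pow_two, sum_mul_sum, mul_sum]
    refine sum_congr rfl fun a _ => ?_
    rw [mul_sum]
    refine sum_congr rfl fun b _ => ?_
    rw [pow_add]
  have h3 : ∑ a ∈ range M, ∑ b ∈ range M, ‖∑ i ∈ s, c i * z i ^ (a + b)‖ ^ 2 =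
      ‖∑ i ∈ s, ∑ j ∈ s, c i * (starRingEnd ℂ) (c j) *
        (∑ a ∈ range M, (z i * (starRingEnd ℂ) (z j)) ^ a) ^ 2‖ := by
    rw [← h2, Complex.norm_real, Real.norm_eq_abs, abs_of_nonneg]
    exact sum_nonneg fun _ _ => sum_nonneg fun _ _ => by positivity
  rw [h3]
  refine norm_sum_le_of_le _ fun i _ => norm_sum_le_of_le _ fun j _ => ?_
  rw [norm_mul, norm_mul, norm_pow, RCLike.norm_conj]

/-- the large sieve inequality -/
theorem large_sieve {ι : Type*} [DecidableEq ι] (s : Finset ι) (z : ι → ℂ) (δ : ℝ) (hδ : 0 < δ)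
    (hδ1 : δ ≤ 1) (hz : ∀ i ∈ s, ‖z i‖ = 1)
    (hs : ∀ i ∈ s, ∀ j ∈ s, i ≠ j → δ ≤ ‖z i - z j‖) (b : ι → ℂ) (J H : ℕ) :
    ∑ k ∈ range H, ‖∑ i ∈ s, b i * z i ^ (J + k)‖ ^ 2 ≤
      (8 * H + 256 / δ) * ∑ i ∈ s, ‖b i‖ ^ 2 := by
  rcases Nat.eq_zero_or_pos H with h0 | hH
  · subst h0
    simp only [range_zero, sum_empty]
    positivity
  have hHr : (1 : ℝ) ≤ H := by exact_mod_cast hH
  set c : ι → ℂ := fun i => b i * z i ^ J * ((starRingEnd ℂ) (z i)) ^ H with hc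
  have hcn : ∀ i ∈ s, ‖c i‖ = ‖b i‖ := by
    intro i hi
    simp only [hc]
    rw [norm_mul, norm_mul, norm_pow, norm_pow, RCLike.norm_conj, hz i hi]
    simp
  have hzz : ∀ i ∈ s, (starRingEnd ℂ) (z i) * z i = 1 := by
    intro i hi
    rw [mul_comm, Complex.mul_conj, Complex.normSq_eq_norm_sq, hz i hi]; norm_num
  set f : ℕ → ℝ := fun n => ‖∑ i ∈ s, c i * z i ^ n‖ ^ 2 with hf
  have hf0 : ∀ n, 0 ≤ f n := fun n => by simp only [hf]; positivity
  have h1 : ∀ k, f (H + k) = ‖∑ i ∈ s, b i * z i ^ (J + k)‖ ^ 2 := by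
    intro k
    simp only [hf, hc]
    congr 2
    refine sum_congr rfl fun i hi => ?_
    rw [pow_add, pow_add]
    have : ((starRingEnd ℂ) (z i)) ^ H * z i ^ H = 1 := by rw [← mul_pow, hzz i hi, one_pow]
    linear_combination (b i * z i ^ J * z i ^ k) * this
  have h2 : (H : ℝ) * ∑ k ∈ range H, f (H + k) ≤
      ∑ a ∈ range (2 * H), ∑ b ∈ range (2 * H), f (a + b) := by
    have e1 : ∀ a ∈ range H, ∑ k ∈ range H, f (H + k) ≤ ∑ b ∈ range (2 * H), f (a + b) := by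
      intro a ha
      have ha' := mem_range.1 ha
      have e2 : ∑ k ∈ range H, f (H + k) = ∑ b ∈ Ico (H - a) (H - a + H), f (a + b) := by
        rw [Finset.sum_Ico_eq_sum_range]
        rw [show H - a + H - (H - a) = H by omega]
        refine sum_congr rfl fun k _ => ?_
        congr 1
        omega
      rw [e2]
      refine sum_le_sum_of_subset_of_nonneg ?_ fun _ _ _ => hf0 _
      intro x hx
      rw [mem_Ico] at hx
      rw [mem_range]
      omega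
    calc (H : ℝ) * ∑ k ∈ range H, f (H + k) = ∑ a ∈ range H, ∑ k ∈ range H, f (H + k) := by
          rw [sum_const, card_range, nsmul_eq_mul]
      _ ≤ ∑ a ∈ range H, ∑ b ∈ range (2 * H), f (a + b) := sum_le_sum e1
      _ ≤ _ := by
          refine sum_le_sum_of_subset_of_nonneg (range_subset_range.2 (by omega)) ?_
          exact fun _ _ _ => sum_nonneg fun _ _ => hf0 _
  have h3 := quad s z c (2 * H)
  have hM1 : 1 ≤ 2 * H := by omega
  set φ : ι → ι → ℝ := fun i j => fk ((2 * H : ℕ) : ℝ) ‖z i - z j‖ with hφ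
  have hφs : ∀ i j, φ i j = φ j i := by
    intro i j
    simp only [hφ]
    rw [norm_sub_rev]
  have hφ0 : ∀ i j, 0 ≤ φ i j := fun i j => fk_nonneg _ _
  set Λ : ℝ := 8 * (H : ℝ) ^ 2 + 256 * (H / δ) with hΛ
  have hrow : ∀ i ∈ s, ∑ j ∈ s, φ j i ≤ Λ := by
    intro i hi
    have a1 := all_sum s z δ hδ hz hs (z i) (hz i hi) (fk ((2 * H : ℕ) : ℝ))
      (fk_nonneg _) (fk_anti (by positivity)) ⌈3 / δ⌉₊ (Nat.le_ceil _)
    have a2 := fk_sum (M := ((2 * H : ℕ) : ℝ)) (δ := δ) (by exact_mod_cast hM1) hδ ⌈3 / δ⌉₊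
    have a3 := fk_one (M := ((2 * H : ℕ) : ℝ))
    have a4 : 8 * (3 / δ + 2) * fk ((2 * H : ℕ) : ℝ) 1 ≤ 8 * (3 / δ + 2) * 4 :=
      mul_le_mul_of_nonneg_left a3 (by positivity)
    have a5 : 1 ≤ 1 / δ := by rw [le_div_iff₀ hδ]; linarith
    have a6 : (H : ℝ) / δ = H * (1 / δ) := by ring
    have a7 : 1 / δ ≤ H * (1 / δ) := le_mul_of_one_le_left (by positivity) hHr
    have a8 : ((2 * H : ℕ) : ℝ) = 2 * H := by push_cast; ring
    rw [a8] at a1 a2 a4
    have a9 : 24 * (2 * (H : ℝ) / δ) = 48 * (H * (1 / δ)) := by ring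
    have a10 : 8 * (3 / δ + 2) * 4 = 96 * (1 / δ) + 64 := by ring
    rw [a9] at a2
    rw [a10] at a4
    simp only [hφ, hΛ]
    rw [a8, a6]
    nlinarith
  have h4 : ∑ i ∈ s, ∑ j ∈ s, ‖c i‖ * ‖c j‖ *
        ‖∑ a ∈ range (2 * H), (z i * (starRingEnd ℂ) (z j)) ^ a‖ ^ 2 ≤
      Λ * ∑ i ∈ s, ‖b i‖ ^ 2 := by
    have e1 : ∀ i ∈ s, ∀ j ∈ s, ‖c i‖ * ‖c j‖ *
        ‖∑ a ∈ range (2 * H), (z i * (starRingEnd ℂ) (z j)) ^ a‖ ^ 2 ≤
        (‖b i‖ ^ 2 / 2) * φ i j + (‖b j‖ ^ 2 / 2) * φ i j := by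
      intro i hi j hj
      have a1 := geo_fk (hz i hi) (hz j hj) (2 * H) hM1
      rw [hcn i hi, hcn j hj]
      calc ‖b i‖ * ‖b j‖ * ‖∑ a ∈ range (2 * H), (z i * (starRingEnd ℂ) (z j)) ^ a‖ ^ 2
          ≤ ‖b i‖ * ‖b j‖ * φ i j := mul_le_mul_of_nonneg_left a1 (by positivity)
        _ ≤ (‖b i‖ ^ 2 / 2 + ‖b j‖ ^ 2 / 2) * φ i j := by
            refine mul_le_mul_of_nonneg_right ?_ (hφ0 i j)
            nlinarith [sq_nonneg (‖b i‖ - ‖b j‖)]
        _ = _ := by ring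
    have e2 : ∑ i ∈ s, ∑ j ∈ s, ((‖b i‖ ^ 2 / 2) * φ i j + (‖b j‖ ^ 2 / 2) * φ i j) =
        ∑ i ∈ s, ‖b i‖ ^ 2 * ∑ j ∈ s, φ j i := by
      have e3 : ∑ i ∈ s, ∑ j ∈ s, (‖b i‖ ^ 2 / 2) * φ i j =
          ∑ i ∈ s, (‖b i‖ ^ 2 / 2) * ∑ j ∈ s, φ j i := by
        refine sum_congr rfl fun i _ => ?_
        rw [mul_sum]
        exact sum_congr rfl fun j _ => by rw [hφs]
      have e4 : ∑ i ∈ s, ∑ j ∈ s, (‖b j‖ ^ 2 / 2) * φ i j =
          ∑ i ∈ s, (‖b i‖ ^ 2 / 2) * ∑ j ∈ s, φ j i := by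
        rw [sum_comm]
        exact sum_congr rfl fun i _ => by rw [mul_sum]
      simp only [sum_add_distrib]
      rw [e3, e4, ← sum_add_distrib]
      exact sum_congr rfl fun i _ => by ring
    calc _ ≤ ∑ i ∈ s, ∑ j ∈ s, ((‖b i‖ ^ 2 / 2) * φ i j + (‖b j‖ ^ 2 / 2) * φ i j) :=
          sum_le_sum fun i hi => sum_le_sum fun j hj => e1 i hi j hj
      _ = ∑ i ∈ s, ‖b i‖ ^ 2 * ∑ j ∈ s, φ j i := e2
      _ ≤ ∑ i ∈ s, ‖b i‖ ^ 2 * Λ :=
          sum_le_sum fun i hi => mul_le_mul_of_nonneg_left (hrow i hi) (by positivity)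
      _ = Λ * ∑ i ∈ s, ‖b i‖ ^ 2 := by rw [← sum_mul, mul_comm]
  have h5 : (H : ℝ) * ∑ k ∈ range H, f (H + k) ≤
      (H : ℝ) * ((8 * H + 256 / δ) * ∑ i ∈ s, ‖b i‖ ^ 2) := by
    refine (h2.trans (h3.trans h4)).trans (le_of_eq ?_)
    simp only [hΛ]
    ring
  have h6 := le_of_mul_le_mul_left h5 (by linarith)
  rw [sum_congr rfl fun k _ => h1 k] at h6
  exact h6

end Pool.Agent.Y727.WA
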