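import Mathlib
import Pool.Agent.Y727.WA.Ab
import Pool.Agent.Y727.WA.Ls

/-!
# First and second moment, abstract form
-/

set_option autoImplicit false

open Finset

namespace Pool.Agent.Y727.WA

/-- the configuration -/
structure Cfg {ι : Type*} (s : Finset ι) (N : ι → ℕ) (z a : ι → ℂ) (κ C0 : ℝ) : Prop where
  pos : ∀ i ∈ s, 1 ≤ N i
  zn : ∀ i ∈ s, ‖z i‖ = 1
  sp : ∀ i ∈ s, ∀ j ∈ s, i ≠ j → κ ≤ ‖z i - z j‖ * (Real.sqrt (N i) * Real.sqrt (N j))
  an : ∀ i ∈ s, ‖a i‖ ^ 2 ≤ 1 / N i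
  cnt : ∀ n : ℕ, 1 ≤ n → ((s.filter (fun i => N i ≤ n)).card : ℝ) ≤ C0 * n
  k0 : 0 < κ
  k1 : κ ≤ 1
  c0 : 0 < C0

variable {ι : Type*} [DecidableEq ι] {s : Finset ι} {N : ι → ℕ} {z a : ι → ℂ} {κ C0 : ℝ}

theorem Cfg.spn (h : Cfg s N z a κ C0) {n : ℕ} (hn : 1 ≤ n) {i j : ι} (hi : i ∈ s) (hj : j ∈ s)
    (hin : N i ≤ n) (hjn : N j ≤ n) (hij : i ≠ j) : κ / n ≤ ‖z i - z j‖ := by
  have h1 := h.sp i hi j hj hij
  have hn0 : (0 : ℝ) < n := by exact_mod_cast hn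
  rw [div_le_iff₀ hn0]
  refine h1.trans (mul_le_mul_of_nonneg_left ?_ (norm_nonneg _))
  have h2 : Real.sqrt (N i) ≤ Real.sqrt n := Real.sqrt_le_sqrt (by exact_mod_cast hin)
  have h3 : Real.sqrt (N j) ≤ Real.sqrt n := Real.sqrt_le_sqrt (by exact_mod_cast hjn)
  calc Real.sqrt (N i) * Real.sqrt (N j) ≤ Real.sqrt n * Real.sqrt n :=
        mul_le_mul h2 h3 (Real.sqrt_nonneg _) (Real.sqrt_nonneg _)
    _ = n := Real.mul_self_sqrt hn0.le

/-- the sum of `1 / N` -/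
theorem Cfg.inv (h : Cfg s N z a κ C0) {n : ℕ} (hn : 1 ≤ n) :
    ∑ i ∈ s.filter (fun i => N i ≤ n), (1 : ℝ) / N i ≤ C0 * (1 + Real.log n) := by
  have h1 := abel_le (s.filter (fun i => N i ≤ n)) N n (fun i hi => (mem_filter.1 hi).2)
    (fun i hi => h.pos i (mem_filter.1 hi).1) (fun _ => (1 : ℝ)) C0 (by
      intro k hk hkn
      rw [filter_filter, sum_const, nsmul_eq_mul, mul_one]
      refine le_trans ?_ (h.cnt k hk)
      have : (s.filter (fun i => N i ≤ n ∧ N i ≤ k)) ⊆ s.filter (fun i => N i ≤ k) := by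
        intro i hi
        rw [mem_filter] at hi ⊢
        exact ⟨hi.1, hi.2.2⟩
      exact_mod_cast Finset.card_le_card this) (fun n => 1 / (n : ℝ)) (by positivity) (by
      intro k hk
      have hk0 : (0 : ℝ) < k := by exact_mod_cast hk
      refine one_div_le_one_div_of_le hk0 ?_
      push_cast
      linarith) hn
  simp only [one_mul] at h1
  refine h1.trans (mul_le_mul_of_nonneg_left (harm_le n) h.c0.le)

/-- the second moment of a partial sum -/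
theorem Cfg.second (h : Cfg s N z a κ C0) (t : ι → ℂ) (B : ℝ) (ht : ∀ i ∈ s, ‖t i‖ ≤ B)
    {n : ℕ} (hn : 1 ≤ n) (J H : ℕ) :
    ∑ k ∈ range H, ‖∑ i ∈ s.filter (fun i => N i ≤ n), a i * t i * z i ^ (J + k)‖ ^ 2 ≤
      (8 * H + 256 * n / κ) * (B ^ 2 * (C0 * (1 + Real.log n))) := by
  have hn0 : (0 : ℝ) < n := by exact_mod_cast hn
  have hn1 : (1 : ℝ) ≤ n := by exact_mod_cast hn
  have hκ := h.k0
  have h1 := large_sieve (s.filter (fun i => N i ≤ n)) z (κ / n) (by positivity)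
    (by rw [div_le_iff₀ hn0]; linarith [h.k1]) (fun i hi => h.zn i (mem_filter.1 hi).1)
    (fun i hi j hj hij => h.spn hn (mem_filter.1 hi).1 (mem_filter.1 hj).1 (mem_filter.1 hi).2
      (mem_filter.1 hj).2 hij) (fun i => a i * t i) J H
  refine h1.trans ?_
  have e1 : 256 / (κ / n) = 256 * n / κ := by field_simp
  rw [e1]
  refine mul_le_mul_of_nonneg_left ?_ (by positivity)
  have h2 := h.inv hn
  calc ∑ i ∈ s.filter (fun i => N i ≤ n), ‖a i * t i‖ ^ 2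
      ≤ ∑ i ∈ s.filter (fun i => N i ≤ n), B ^ 2 * (1 / N i) := by
        refine sum_le_sum fun i hi => ?_
        have hi' := (mem_filter.1 hi).1
        rw [norm_mul, mul_pow, mul_comm]
        refine mul_le_mul ?_ (h.an i hi') (by positivity) (by positivity)
        exact pow_le_pow_left₀ (norm_nonneg _) (ht i hi') 2
    _ ≤ B ^ 2 * (C0 * (1 + Real.log n)) := by
        rw [← mul_sum]
        exact mul_le_mul_of_nonneg_left h2 (by positivity)

/-- the second moment of a weighted sum of partial sums -/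
theorem Cfg.second_w (h : Cfg s N z a κ C0) (t : ι → ℕ → ℂ) (B : ℝ)
    (ht : ∀ i ∈ s, ∀ n, ‖t i n‖ ≤ B) (J H Y : ℕ) (hY : 1 ≤ Y) (w : ℕ → ℕ → ℝ) (W : ℝ)
    (hw0 : ∀ k n, 0 ≤ w k n) (hw : ∀ k ∈ range H, ∀ n ∈ Icc 1 Y, w k n ≤ W / n) :
    ∑ k ∈ range H, ‖∑ n ∈ Icc 1 Y, (w k n : ℂ) *
        ∑ i ∈ s.filter (fun i => N i ≤ n), a i * t i n * z i ^ (J + k)‖ ^ 2 ≤
      W ^ 2 * B ^ 2 * C0 * (1 + Real.log Y) ^ 2 *
        (8 * H * (1 + Real.log Y) + 256 * Y / κ) := by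
  have hκ := h.k0
  set S : ℕ → ℕ → ℂ := fun k n =>
    ∑ i ∈ s.filter (fun i => N i ≤ n), a i * t i n * z i ^ (J + k) with hS
  set ℓ : ℝ := 1 + Real.log Y with hℓ
  have hYr : (1 : ℝ) ≤ Y := by exact_mod_cast hY
  have hℓ1 : 1 ≤ ℓ := by rw [hℓ]; linarith [Real.log_nonneg hYr]
  have h1 : ∀ k ∈ range H, ‖∑ n ∈ Icc 1 Y, (w k n : ℂ) * S k n‖ ^ 2 ≤
      W ^ 2 * (ℓ * ∑ n ∈ Icc 1 Y, ‖S k n‖ ^ 2 / n) := by
    intro k hk
    have e1 : ‖∑ n ∈ Icc 1 Y, (w k n : ℂ) * S k n‖ ≤ |W| * ∑ n ∈ Icc 1 Y, ‖S k n‖ / n := by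
      rw [mul_sum]
      refine norm_sum_le_of_le _ fun n hn => ?_
      rw [norm_mul, Complex.norm_real, Real.norm_eq_abs, abs_of_nonneg (hw0 k n)]
      have hn1 : (0 : ℝ) < n := by exact_mod_cast (mem_Icc.1 hn).1
      have e2 : w k n ≤ |W| / n :=
        (hw k hk n hn).trans (div_le_div_of_nonneg_right (le_abs_self _) hn1.le)
      calc w k n * ‖S k n‖ ≤ |W| / n * ‖S k n‖ := mul_le_mul_of_nonneg_right e2 (norm_nonneg _)
        _ = |W| * (‖S k n‖ / n) := by ring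
    have e3 : (∑ n ∈ Icc 1 Y, ‖S k n‖ / n) ^ 2 ≤
        (∑ n ∈ Icc 1 Y, (1 : ℝ) / n) * ∑ n ∈ Icc 1 Y, ‖S k n‖ ^ 2 / n := by
      refine Finset.sum_sq_le_sum_mul_sum_of_sq_le_mul _ (fun n _ => by positivity)
        (fun n _ => by positivity) (fun n _ => le_of_eq (by ring))
    calc ‖∑ n ∈ Icc 1 Y, (w k n : ℂ) * S k n‖ ^ 2
        ≤ (|W| * ∑ n ∈ Icc 1 Y, ‖S k n‖ / n) ^ 2 := pow_le_pow_left₀ (norm_nonneg _) e1 2
      _ = W ^ 2 * (∑ n ∈ Icc 1 Y, ‖S k n‖ / n) ^ 2 := by rw [mul_pow, sq_abs]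
      _ ≤ W ^ 2 * (ℓ * ∑ n ∈ Icc 1 Y, ‖S k n‖ ^ 2 / n) := by
          refine mul_le_mul_of_nonneg_left (e3.trans ?_) (by positivity)
          refine mul_le_mul_of_nonneg_right (harm_le Y) ?_
          exact sum_nonneg fun n _ => by positivity
  have h2 : ∀ n ∈ Icc 1 Y, ∑ k ∈ range H, ‖S k n‖ ^ 2 / n ≤
      B ^ 2 * C0 * ℓ * (8 * H * (1 / n) + 256 / κ) := by
    intro n hn
    obtain ⟨hn1, hnY⟩ := mem_Icc.1 hn
    have hn0 : (0 : ℝ) < n := by exact_mod_cast hn1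
    have e1 := h.second (fun i => t i n) B (fun i hi => ht i hi n) hn1 J H
    have e2 : Real.log n ≤ Real.log Y := Real.log_le_log hn0 (by exact_mod_cast hnY)
    rw [← sum_div, div_le_iff₀ hn0]
    refine e1.trans ?_
    have e3 : B ^ 2 * (C0 * (1 + Real.log n)) ≤ B ^ 2 * (C0 * ℓ) := by
      refine mul_le_mul_of_nonneg_left (mul_le_mul_of_nonneg_left ?_ h.c0.le) (by positivity)
      rw [hℓ]; linarith
    refine (mul_le_mul_of_nonneg_left e3 (by positivity)).trans (le_of_eq ?_)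
    field_simp
  calc ∑ k ∈ range H, ‖∑ n ∈ Icc 1 Y, (w k n : ℂ) * S k n‖ ^ 2
      ≤ ∑ k ∈ range H, W ^ 2 * (ℓ * ∑ n ∈ Icc 1 Y, ‖S k n‖ ^ 2 / n) := sum_le_sum h1
    _ = W ^ 2 * ℓ * ∑ n ∈ Icc 1 Y, ∑ k ∈ range H, ‖S k n‖ ^ 2 / n := by
        rw [sum_comm, mul_sum]
        exact sum_congr rfl fun k _ => by ring
    _ ≤ W ^ 2 * ℓ * ∑ n ∈ Icc 1 Y, B ^ 2 * C0 * ℓ * (8 * H * (1 / n) + 256 / κ) :=
        mul_le_mul_of_nonneg_left (sum_le_sum h2) (by positivity)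
    _ ≤ W ^ 2 * ℓ * (B ^ 2 * C0 * ℓ * (8 * H * ℓ + 256 * Y / κ)) := by
        refine mul_le_mul_of_nonneg_left ?_ (by positivity)
        rw [← mul_sum, sum_add_distrib, ← mul_sum, sum_const, Nat.card_Icc, nsmul_eq_mul,
          Nat.add_sub_cancel]
        have hc := h.c0
        refine mul_le_mul_of_nonneg_left (add_le_add ?_ (le_of_eq (by ring))) (by positivity)
        exact mul_le_mul_of_nonneg_left (harm_le Y) (by positivity)
    _ = _ := by ring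

/-- the harmonic sum near `1` -/
theorem Cfg.near (h : Cfg s N z a κ C0) {i0 : ι} (hi0 : i0 ∈ s) (hN0 : N i0 = 1) (hz0 : z i0 = 1)
    (Y : ℕ) (hY : 1 ≤ Y) (hNY : ∀ i ∈ s, N i ≤ Y) :
    (∀ i ∈ s.erase i0, z i ≠ 1) ∧ ∑ i ∈ s.erase i0, ‖a i‖ / ‖z i - 1‖ ≤
      200 / κ * (1 + Real.log (Y / κ)) * Real.sqrt Y := by
  have hκ := h.k0
  have hYr : (1 : ℝ) ≤ Y := by exact_mod_cast hY
  have hsp : ∀ i ∈ s.erase i0, κ ≤ ‖z i - 1‖ * Real.sqrt (N i) := by
    intro i hi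
    have h1 := h.sp i (mem_of_mem_erase hi) i0 hi0 (ne_of_mem_erase hi)
    rw [hN0, hz0, Nat.cast_one, Real.sqrt_one, mul_one] at h1
    exact h1
  have hpos : ∀ i ∈ s.erase i0, 0 < ‖z i - 1‖ := by
    intro i hi
    by_contra hneg
    have h0 : ‖z i - 1‖ = 0 := le_antisymm (not_lt.1 hneg) (norm_nonneg _)
    have := hsp i hi
    rw [h0, zero_mul] at this
    linarith
  refine ⟨fun i hi h1 => ?_, ?_⟩
  · have := hpos i hi
    rw [h1, sub_self, norm_zero] at this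
    exact lt_irrefl _ this
  have hbd : ∀ n, 1 ≤ n → n ≤ Y →
      ∑ i ∈ (s.erase i0).filter (fun i => N i ≤ n), 1 / ‖z i - 1‖ ≤
        100 / κ * (1 + Real.log (Y / κ)) * n := by
    intro n hn hnY
    have hn0 : (0 : ℝ) < n := by exact_mod_cast hn
    have hn1 : (1 : ℝ) ≤ n := by exact_mod_cast hn
    have h1 := harm ((s.erase i0).filter (fun i => N i ≤ n)) z (κ / n) (by positivity)
      (by rw [div_le_iff₀ hn0]; linarith [h.k1])
      (fun i hi => h.zn i (mem_of_mem_erase (mem_filter.1 hi).1))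
      (fun i hi j hj hij => h.spn hn (mem_of_mem_erase (mem_filter.1 hi).1)
        (mem_of_mem_erase (mem_filter.1 hj).1) (mem_filter.1 hi).2 (mem_filter.1 hj).2 hij)
      1 norm_one (by
        intro i hi
        have := h.spn hn (mem_of_mem_erase (mem_filter.1 hi).1) hi0 (mem_filter.1 hi).2
          (by rw [hN0]; exact hn) (ne_of_mem_erase (mem_filter.1 hi).1)
        rwa [hz0] at this)
    refine h1.trans ?_
    have e1 : 1 / (κ / (n : ℝ)) = n / κ := by field_simp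
    rw [e1]
    have e2 : Real.log (n / κ) ≤ Real.log (Y / κ) := by
      refine Real.log_le_log (by positivity) ?_
      refine div_le_div_of_nonneg_right ?_ hκ.le
      exact_mod_cast hnY
    have e3 : 100 * (n / κ) * (1 + Real.log (n / κ)) ≤ 100 * (n / κ) * (1 + Real.log (Y / κ)) :=
      mul_le_mul_of_nonneg_left (by linarith) (by positivity)
    refine e3.trans (le_of_eq ?_)
    ring
  have h2 := abel_le (s.erase i0) N Y (fun i hi => hNY i (mem_of_mem_erase hi))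
    (fun i hi => h.pos i (mem_of_mem_erase hi)) (fun i => 1 / ‖z i - 1‖)
    (100 / κ * (1 + Real.log (Y / κ))) hbd (fun n => 1 / Real.sqrt n) (by positivity) (by
      intro n hn
      have hn0 : (0 : ℝ) < n := by exact_mod_cast hn
      refine one_div_le_one_div_of_le (Real.sqrt_pos.2 hn0) (Real.sqrt_le_sqrt ?_)
      push_cast
      linarith) hY
  have hlog : 0 ≤ Real.log (Y / κ) := by
    refine Real.log_nonneg ?_
    rw [le_div_iff₀ hκ]
    linarith [h.k1]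
  calc ∑ i ∈ s.erase i0, ‖a i‖ / ‖z i - 1‖
      ≤ ∑ i ∈ s.erase i0, 1 / ‖z i - 1‖ * (1 / Real.sqrt (N i)) := by
        refine sum_le_sum fun i hi => ?_
        have hp := hpos i hi
        have e1 : ‖a i‖ ≤ 1 / Real.sqrt (N i) := by
          have := h.an i (mem_of_mem_erase hi)
          refine le_trans (Real.le_sqrt_of_sq_le this) ?_
          rw [Real.sqrt_div zero_le_one, Real.sqrt_one]
        calc ‖a i‖ / ‖z i - 1‖ ≤ (1 / Real.sqrt (N i)) / ‖z i - 1‖ :=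
              div_le_div_of_nonneg_right e1 hp.le
          _ = _ := by ring
    _ ≤ 100 / κ * (1 + Real.log (Y / κ)) * ∑ n ∈ Icc 1 Y, 1 / Real.sqrt n := h2
    _ ≤ 100 / κ * (1 + Real.log (Y / κ)) * (2 * Real.sqrt Y) :=
        mul_le_mul_of_nonneg_left (sqrt_sum Y) (by positivity)
    _ = _ := by ring

/-- the first moment -/
theorem Cfg.first (h : Cfg s N z a κ C0) {i0 : ι} (hi0 : i0 ∈ s) (hN0 : N i0 = 1) (hz0 : z i0 = 1)
    (Y : ℕ) (hY : 1 ≤ Y) (hNY : ∀ i ∈ s, N i ≤ Y) (P : ℕ → ι → ℂ) (Λ : ℝ) (J H : ℕ)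
    (hP : ∀ i ∈ s, ‖P H i‖ + ∑ k ∈ range H, ‖P k i - P (k + 1) i‖ ≤ Λ) :
    ‖∑ k ∈ range H, ∑ i ∈ s, a i * z i ^ (J + k) * P k i -
      a i0 * ∑ k ∈ range H, P k i0‖ ≤
      400 / κ * Λ * (1 + Real.log (Y / κ)) * Real.sqrt Y := by
  obtain ⟨hne, hsum⟩ := h.near hi0 hN0 hz0 Y hY hNY
  have h1 : ∑ k ∈ range H, ∑ i ∈ s, a i * z i ^ (J + k) * P k i -
      a i0 * ∑ k ∈ range H, P k i0 =
      ∑ i ∈ s.erase i0, a i * z i ^ J * ∑ k ∈ range H, P k i * z i ^ k := by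
    have e1 : ∀ k ∈ range H, ∑ i ∈ s, a i * z i ^ (J + k) * P k i =
        a i0 * P k i0 + ∑ i ∈ s.erase i0, a i * z i ^ (J + k) * P k i := by
      intro k _
      rw [← Finset.add_sum_erase s _ hi0, hz0, one_pow, mul_one]
    rw [sum_congr rfl e1, sum_add_distrib, ← mul_sum, add_sub_cancel_left, sum_comm]
    refine sum_congr rfl fun i _ => ?_
    rw [mul_sum]
    refine sum_congr rfl fun k _ => ?_
    rw [pow_add]
    ring
  rw [h1]
  have hΛ : 0 ≤ Λ := le_trans (by positivity) (hP i0 hi0)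
  have h2 : ∀ i ∈ s.erase i0, ‖a i * z i ^ J * ∑ k ∈ range H, P k i * z i ^ k‖ ≤
      2 * Λ * (‖a i‖ / ‖z i - 1‖) := by
    intro i hi
    have his := mem_of_mem_erase hi
    have e1 := parts_le (fun k => P k i) (fun k => z i ^ k) (2 / ‖z i - 1‖)
      (fun N => geo_le (h.zn i his) (hne i hi) N) H
    rw [norm_mul, norm_mul, norm_pow, h.zn i his, one_pow, mul_one]
    have e2 : 0 ≤ 2 / ‖z i - 1‖ := by positivity
    calc ‖a i‖ * ‖∑ k ∈ range H, P k i * z i ^ k‖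
        ≤ ‖a i‖ * (2 / ‖z i - 1‖ * Λ) := by
          refine mul_le_mul_of_nonneg_left ?_ (norm_nonneg _)
          exact e1.trans (mul_le_mul_of_nonneg_left (hP i his) e2)
      _ = _ := by ring
  calc _ ≤ ∑ i ∈ s.erase i0, 2 * Λ * (‖a i‖ / ‖z i - 1‖) := norm_sum_le_of_le _ h2
    _ ≤ 2 * Λ * (200 / κ * (1 + Real.log (Y / κ)) * Real.sqrt Y) := by
        rw [← mul_sum]
        exact mul_le_mul_of_nonneg_left hsum (by positivity)
    _ = _ := by ring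

end Pool.Agent.Y727.WA
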