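import Mathlib
import Pool.Agent.Y727.WA.Mo
import Pool.Agent.Y727.WA.Id

/-!
# First and second moment of the truncated sums over ideals
-/

set_option autoImplicit false

open Finset

namespace Pool.Agent.Y727.WA

open Pool.Agent.W192.HK Pool.Agent.TH936.AC Pool.Agent.TH936.AW
open Pool.Agent.W192.CM (nu)

/-- the sum over the rational integers, main term -/
theorem diag (G : ℕ → ℝ) (x : ℕ → ℂ) (L0 : ℂ) (A W : ℝ) (hA : 0 ≤ A) (hW : 0 ≤ W) (Y : ℕ)
    (hx : ∀ K : ℕ, ‖∑ i ∈ range K, x i - L0‖ ≤ A / (K + 1)) (hGY : G Y = 0)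
    (hG0 : ∀ i < Y, 0 ≤ G i - G (i + 1)) (hG : ∀ i < Y, G i - G (i + 1) ≤ W / (i + 1)) :
    ‖∑ i ∈ range Y, (G i : ℂ) * x i - L0 * G 0‖ ≤ W * A := by
  have h1 := parts (fun i => (G i : ℂ)) x Y
  have h2 : (G 0 : ℂ) = ∑ i ∈ range Y, ((G i : ℂ) - (G (i + 1) : ℂ)) := by
    rw [Finset.sum_range_sub', hGY]
    simp
  have h3 : ∑ i ∈ range Y, (G i : ℂ) * x i - L0 * G 0 =
      ∑ i ∈ range Y, ((G i : ℂ) - (G (i + 1) : ℂ)) * (∑ k ∈ range (i + 1), x k - L0) := by
    have e : ∑ i ∈ range Y, ((G i : ℂ) - (G (i + 1) : ℂ)) * (∑ k ∈ range (i + 1), x k - L0) =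
        ∑ i ∈ range Y, ((G i : ℂ) - (G (i + 1) : ℂ)) * ∑ k ∈ range (i + 1), x k -
          (∑ i ∈ range Y, ((G i : ℂ) - (G (i + 1) : ℂ))) * L0 := by
      rw [sum_mul, ← sum_sub_distrib]
      exact sum_congr rfl fun i _ => by ring
    rw [e, ← h2, h1, hGY]
    push_cast
    ring
  rw [h3]
  have h4 : ∀ i ∈ range Y, ‖((G i : ℂ) - (G (i + 1) : ℂ)) * (∑ k ∈ range (i + 1), x k - L0)‖ ≤
      W * A * (1 / ((i : ℝ) + 1) - 1 / (((i + 1 : ℕ) : ℝ) + 1)) := by
    intro i hi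
    have hi' := mem_range.1 hi
    rw [norm_mul, ← Complex.ofReal_sub, Complex.norm_real, Real.norm_eq_abs,
      abs_of_nonneg (hG0 i hi')]
    have e1 := hx (i + 1)
    have e2 := hG i hi'
    have e3 : 1 / ((i : ℝ) + 1) - 1 / (((i + 1 : ℕ) : ℝ) + 1) =
        1 / (((i : ℝ) + 1) * (((i + 1 : ℕ) : ℝ) + 1)) := by
      push_cast
      field_simp
      ring
    rw [e3]
    calc (G i - G (i + 1)) * ‖∑ k ∈ range (i + 1), x k - L0‖
        ≤ W / ((i : ℝ) + 1) * (A / (((i + 1 : ℕ) : ℝ) + 1)) :=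
          mul_le_mul e2 e1 (norm_nonneg _) (by positivity)
      _ = _ := by
          field_simp
  refine (norm_sum_le_of_le _ h4).trans ?_
  rw [← mul_sum, Finset.sum_range_sub' (fun i : ℕ => 1 / ((i : ℝ) + 1))]
  have h5 : (1 : ℝ) / (((0 : ℕ) : ℝ) + 1) - 1 / ((Y : ℝ) + 1) ≤ 1 := by
    have : (0 : ℝ) ≤ 1 / ((Y : ℝ) + 1) := by positivity
    push_cast
    linarith
  calc W * A * (1 / (((0 : ℕ) : ℝ) + 1) - 1 / ((Y : ℝ) + 1)) ≤ W * A * 1 :=
        mul_le_mul_of_nonneg_left h5 (mul_nonneg hW hA)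
    _ = W * A := mul_one _

/-- the properties of the weights `g k n` -/
structure WK (g : ℕ → ℕ → ℝ) (Y H : ℕ) (W0 : ℝ) : Prop where
  w0 : 0 ≤ W0
  nn : ∀ k n, 0 ≤ g k n
  anti : ∀ k a b, 1 ≤ a → a ≤ b → g k b ≤ g k a
  mono : ∀ k a, 1 ≤ a → g k a ≤ g (k + 1) a
  diff : ∀ k a b, 1 ≤ a → a ≤ b → g (k + 1) b - g k b ≤ g (k + 1) a - g k a
  log : ∀ k a b : ℕ, 1 ≤ a → a ≤ b → g k a - g k b ≤ Real.log ((b : ℝ) / a)
  dec : ∀ k ≤ H, ∀ n : ℕ, 1 ≤ n → Y ≤ 4 * n → g k n ≤ W0 / n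

theorem WK.step {g : ℕ → ℕ → ℝ} {Y H : ℕ} {W0 : ℝ} (h : WK g Y H W0) (k n : ℕ) (hn : 1 ≤ n) :
    g k n - g k (n + 1) ≤ 1 / n := by
  have hn0 : (0 : ℝ) < n := by exact_mod_cast hn
  refine (h.log k n (n + 1) hn (Nat.le_succ n)).trans ?_
  have h1 := Real.log_le_sub_one_of_pos (show (0 : ℝ) < ((n + 1 : ℕ) : ℝ) / n by positivity)
  refine h1.trans (le_of_eq ?_)
  push_cast
  field_simp
  ring

section
variable {R : Subring ℂ} {ω : ℂ}

open Classical in
/-- the configuration of the primitive ideals -/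
theorem ex_cfg (hK : H_BASIC) (hC : H_CNT) (hF : H_FP) (hB : A_BAR) (hQ : QP R ω) {m : ℕ}
    (hm : 1 ≤ m) {f : Ideal R} {ψ Ψ : Ideal R → ℂ} (h : HC (2 * m - 1) f ψ) (hΨ : IsPs Ψ) :
    ∃ κ C0 : ℝ, 0 < κ ∧ κ ≤ 1 ∧ 0 < C0 ∧ ∀ (Y : ℕ) (s : Finset (Ideal R)),
      (∀ I : Ideal R, I ∈ s ↔ nN I ≤ Y) → Cfg (s.filter Pri) nN (zz Ψ) (a0 m ψ) κ C0 := by
  obtain ⟨κ, hκ0, hκ1, hκ⟩ := spacing hK hB hQ hΨ
  obtain ⟨hfin, -, C0, hC0, hcnt, -⟩ := hC R ω hQ.qr
  refine ⟨κ, C0, hκ0, hκ1, hC0, fun Y s hs => ⟨?_, ?_, ?_, ?_, ?_, hκ0, hκ1, hC0⟩⟩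
  · intro c hc
    exact nN_pos hK hQ (mem_filter.1 hc).2.1
  · intro c hc
    exact zz_norm hK hQ hΨ (mem_filter.1 hc).2.1
  · intro c hc c' hc' hne
    exact hκ c c' (mem_filter.1 hc).2 (mem_filter.1 hc').2 hne
  · intro c hc
    exact a0_norm hK hF hQ hm h (mem_filter.1 hc).2.1
  · intro n hn
    refine le_trans ?_ (hcnt n (by exact_mod_cast hn))
    have h1 : (((s.filter Pri).filter (fun i => nN i ≤ n) : Finset (Ideal R)) : Set (Ideal R)) ⊆
        {I : Ideal R | nm I ≤ (n : ℝ)} := by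
      intro I hI
      have h2 := (mem_filter.1 (mem_coe.1 hI)).2
      show nm I ≤ (n : ℝ)
      rw [nm_eq]
      exact_mod_cast h2
    have h2 := Set.ncard_le_ncard h1 (hfin n)
    rw [Set.ncard_coe_finset] at h2
    exact_mod_cast h2

open Classical in
/-- the second moment of the truncated sums -/
theorem second_main (hK : H_BASIC) (hD : A_DEC) (hQ : QP R ω) {m : ℕ} {f : Ideal R}
    {ψ Ψ : Ideal R → ℂ} {n' : ℕ} (h : HC n' f ψ) (hR : Ram f) (hΨ : IsPs Ψ)
    {x : ℕ → ℂ} {B : ℝ}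
    (hx : ∀ (k : ℕ) (c : Ideal R), a0 m ψ (sp ((k + 1 : ℕ) : R) * c) = x k * a0 m ψ c)
    (hB : ∀ K : ℕ, ‖∑ i ∈ range K, x i‖ ≤ B) {κ C0 : ℝ} (Y : ℕ) (hY : 1 ≤ Y)
    (s : Finset (Ideal R)) (hs : ∀ I : Ideal R, I ∈ s ↔ nN I ≤ Y)
    (hcfg : Cfg (s.filter Pri) nN (zz Ψ) (a0 m ψ) κ C0) (J H : ℕ) (g : ℕ → ℕ → ℝ) {W0 : ℝ}
    (hg : WK g Y H W0) :
    ∑ k ∈ range H, ‖∑ I ∈ s, a0 m ψ I * zz Ψ I ^ (J + k) * (g k (nN I) : ℂ)‖ ^ 2 ≤
      (1 + W0) ^ 2 * B ^ 2 * C0 * (1 + Real.log Y) ^ 2 *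
        (8 * H * (1 + Real.log Y) + 256 * Y / κ) := by
  have hB0 : 0 ≤ B := (norm_nonneg _).trans (hB 0)
  set t : Ideal R → ℕ → ℂ := fun c n =>
    ∑ i ∈ range Y, ((if (i + 1) ^ 2 * nN c ≤ n then (1 : ℝ) else 0 : ℝ) : ℂ) * x i with ht
  have htB : ∀ c ∈ s.filter Pri, ∀ n, ‖t c n‖ ≤ B := by
    intro c _ n
    simp only [ht]
    refine (parts_anti (fun i => if (i + 1) ^ 2 * nN c ≤ n then (1 : ℝ) else 0) x B hB ?_ ?_ Y).trans
      ?_
    · intro i
      split_ifs <;> norm_num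
    · intro i
      split_ifs with h1 h2
      · exact le_rfl
      · exfalso
        apply h2
        refine le_trans (Nat.mul_le_mul_right _ ?_) h1
        exact Nat.pow_le_pow_left (by omega) 2
      · norm_num
      · exact le_rfl
    · have : (if (0 + 1) ^ 2 * nN c ≤ n then (1 : ℝ) else 0) ≤ 1 := by split_ifs <;> norm_num
      calc B * (if (0 + 1) ^ 2 * nN c ≤ n then (1 : ℝ) else 0) ≤ B * 1 :=
            mul_le_mul_of_nonneg_left this hB0
        _ = B := mul_one B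
  set w : ℕ → ℕ → ℝ := fun k n => if n < Y then max (g k n - g k (n + 1)) 0 else g k n with hw
  have hw0 : ∀ k n, 0 ≤ w k n := by
    intro k n
    simp only [hw]
    split_ifs
    · exact le_max_right _ _
    · exact hg.nn k n
  have hwW : ∀ k ∈ range H, ∀ n ∈ Icc 1 Y, w k n ≤ (1 + W0) / n := by
    intro k hk n hn
    obtain ⟨hn1, hnY⟩ := mem_Icc.1 hn
    have hn0 : (0 : ℝ) < n := by exact_mod_cast hn1
    have hW0 := hg.w0
    simp only [hw]
    split_ifs with h1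
    · refine max_le ?_ (by positivity)
      refine (hg.step k n hn1).trans (div_le_div_of_nonneg_right ?_ hn0.le)
      linarith
    · have h2 : n = Y := by omega
      have h3 := hg.dec k (mem_range.1 hk).le n hn1 (by omega)
      refine h3.trans (div_le_div_of_nonneg_right ?_ hn0.le)
      linarith
  have hkey : ∀ k, ∑ I ∈ s, a0 m ψ I * zz Ψ I ^ (J + k) * (g k (nN I) : ℂ) =
      ∑ n ∈ Icc 1 Y, (w k n : ℂ) *
        ∑ c ∈ (s.filter Pri).filter (fun c => nN c ≤ n), a0 m ψ c * t c n * zz Ψ c ^ (J + k) := by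
    intro k
    set b : Ideal R → ℂ := fun I => a0 m ψ I * zz Ψ I ^ (J + k) with hb
    have hb0 : b ⊥ = 0 := by
      simp only [hb]
      rw [a0_bot h, zero_mul]
    have hbc : ∀ J' : Ideal R, ¬ IsCoprime J' f → b J' = 0 := by
      intro J' hJ'
      simp only [hb]
      unfold a0
      rw [(h.zero J').2 (Or.inr hJ'), zero_div, zero_mul]
    have hbx : ∀ (i : ℕ) (c : Ideal R), b (sp ((i + 1 : ℕ) : R) * c) = x i * b c := by
      intro i c
      simp only [hb]
      rw [hx, zz_mul hK hQ hΨ, zz_nat hK hQ hΨ (Nat.succ_pos i), one_mul]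
      ring
    have e1 := abel_fin s nN Y (fun I hI => (hs I).1 hI) b (fun n => (g k n : ℂ))
    have hS : ∀ n, n ≤ Y → ∑ I ∈ s.filter (fun I => nN I ≤ n), b I =
        ∑ c ∈ (s.filter Pri).filter (fun c => nN c ≤ n), a0 m ψ c * t c n * zz Ψ c ^ (J + k) := by
      intro n hn
      have e2 := dec_fin hK hD hQ h.ne hR Y s hs (fun l => if l ≤ n then (1 : ℂ) else 0)
        (fun l hl => by
          rw [if_neg (by omega)]) b hb0 hbc x hbx
      have e3 : ∑ I ∈ s.filter (fun I => nN I ≤ n), b I =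
          ∑ I ∈ s, b I * (if nN I ≤ n then (1 : ℂ) else 0) := by
        rw [sum_filter]
        refine sum_congr rfl fun I _ => ?_
        split_ifs <;> simp
      rw [e3, e2]
      rw [sum_filter (fun c => nN c ≤ n)]
      refine sum_congr rfl fun c _ => ?_
      have e4 : ∑ i ∈ range Y, (if (i + 1) ^ 2 * nN c ≤ n then (1 : ℂ) else 0) * x i = t c n := by
        simp only [ht]
        refine sum_congr rfl fun i _ => ?_
        split_ifs <;> simp
      rw [e4]
      split_ifs with h5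
      · simp only [hb]
        ring
      · have h6 : t c n = 0 := by
          simp only [ht]
          refine sum_eq_zero fun i _ => ?_
          rw [if_neg]
          · simp
          · intro h7
            apply h5
            refine le_trans ?_ h7
            have : 1 ≤ (i + 1) ^ 2 := Nat.one_le_pow _ _ (Nat.succ_pos i)
            calc nN c = 1 * nN c := (one_mul _).symm
              _ ≤ (i + 1) ^ 2 * nN c := Nat.mul_le_mul_right _ this
        rw [h6, mul_zero]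
    have hS0 : ∑ I ∈ s.filter (fun I => nN I ≤ 0), b I = 0 := by
      refine sum_eq_zero fun I hI => ?_
      have h7 : nN I ≤ 0 := (mem_filter.1 hI).2
      have h8 : I = ⊥ := by
        by_contra hne
        have := nN_pos hK hQ hne
        omega
      rw [h8, hb0]
    have hYY : ∑ I ∈ s, b I = ∑ I ∈ s.filter (fun I => nN I ≤ Y), b I := by
      rw [filter_true_of_mem fun I hI => (hs I).1 hI]
    rw [e1, hYY, hS Y le_rfl]
    have e5 : ∑ n ∈ range Y, (∑ I ∈ s.filter (fun I => nN I ≤ n), b I) *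
        ((g k n : ℂ) - (g k (n + 1) : ℂ)) =
        ∑ n ∈ Ico 1 Y, (w k n : ℂ) * ∑ c ∈ (s.filter Pri).filter (fun c => nN c ≤ n),
          a0 m ψ c * t c n * zz Ψ c ^ (J + k) := by
      rw [range_eq_Ico, Finset.sum_eq_sum_Ico_succ_bot (by omega : 0 < Y), hS0, zero_mul, zero_add]
      refine sum_congr rfl fun n hn => ?_
      obtain ⟨h9, h10⟩ := mem_Ico.1 hn
      rw [hS n h10.le]
      simp only [hw]
      rw [if_pos h10, max_eq_left (sub_nonneg.2 (hg.anti k n (n + 1) h9 (Nat.le_succ n)))]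
      push_cast
      ring
    rw [e5, ← Finset.Ico_insert_right hY, sum_insert (by simp), add_comm]
    congr 1
    simp only [hw]
    rw [if_neg (lt_irrefl Y), mul_comm]
  rw [sum_congr rfl fun k _ => by rw [hkey k]]
  exact hcfg.second_w t B htB J H Y hY w (1 + W0) hw0 hwW

open Classical in
/-- the first moment of the truncated sums -/
theorem first_main (hK : H_BASIC) (hD : A_DEC) (hBar : A_BAR) (hQ : QP R ω) {m : ℕ} {f : Ideal R}
    {ψ Ψ : Ideal R → ℂ} {n' : ℕ} (h : HC n' f ψ) (hR : Ram f) (hΨ : IsPs Ψ)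
    {x : ℕ → ℂ} {B A : ℝ} {L0 : ℂ}
    (hx : ∀ (k : ℕ) (c : Ideal R), a0 m ψ (sp ((k + 1 : ℕ) : R) * c) = x k * a0 m ψ c)
    (hB : ∀ K : ℕ, ‖∑ i ∈ range K, x i‖ ≤ B) (hA0 : 0 ≤ A)
    (hA : ∀ K : ℕ, ‖∑ i ∈ range K, x i - L0‖ ≤ A / (K + 1)) {κ C0 : ℝ} (Y : ℕ) (hY : 1 ≤ Y)
    (s : Finset (Ideal R)) (hs : ∀ I : Ideal R, I ∈ s ↔ nN I ≤ Y)
    (hcfg : Cfg (s.filter Pri) nN (zz Ψ) (a0 m ψ) κ C0) (J H : ℕ) (g : ℕ → ℕ → ℝ) {W0 : ℝ}
    (hg : WK g Y H W0) :
    ‖∑ k ∈ range H, ∑ I ∈ s, a0 m ψ I * zz Ψ I ^ (J + k) * (g k (nN I) : ℂ) -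
      L0 * ∑ k ∈ range H, (g k 1 : ℂ)‖ ≤
      400 / κ * (2 * B * g H 1) * (1 + Real.log (Y / κ)) * Real.sqrt Y +
        (2 + W0) * A * H := by
  have hB0 : 0 ≤ B := (norm_nonneg _).trans (hB 0)
  set G : ℕ → ℕ → ℝ := fun k n => if n ≤ Y then g k n else 0 with hG
  set P : ℕ → Ideal R → ℂ := fun k c => ∑ i ∈ range Y, (G k ((i + 1) ^ 2 * nN c) : ℂ) * x i with hP
  have hkey : ∀ k, ∑ I ∈ s, a0 m ψ I * zz Ψ I ^ (J + k) * (g k (nN I) : ℂ) =
      ∑ c ∈ s.filter Pri, a0 m ψ c * zz Ψ c ^ (J + k) * P k c := by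
    intro k
    set b : Ideal R → ℂ := fun I => a0 m ψ I * zz Ψ I ^ (J + k) with hb
    have hb0 : b ⊥ = 0 := by
      simp only [hb]
      rw [a0_bot h, zero_mul]
    have hbc : ∀ J' : Ideal R, ¬ IsCoprime J' f → b J' = 0 := by
      intro J' hJ'
      simp only [hb]
      unfold a0
      rw [(h.zero J').2 (Or.inr hJ'), zero_div, zero_mul]
    have hbx : ∀ (i : ℕ) (c : Ideal R), b (sp ((i + 1 : ℕ) : R) * c) = x i * b c := by
      intro i c
      simp only [hb]
      rw [hx, zz_mul hK hQ hΨ, zz_nat hK hQ hΨ (Nat.succ_pos i), one_mul]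
      ring
    have e2 := dec_fin hK hD hQ h.ne hR Y s hs (fun l => (G k l : ℂ))
        (fun l hl => by
          simp only [hG]
          rw [if_neg (by omega), Complex.ofReal_zero]) b hb0 hbc x hbx
    rw [← e2]
    refine sum_congr rfl fun I hI => ?_
    simp only [hG, hb]
    rw [if_pos ((hs I).1 hI)]
  rw [sum_congr rfl fun k _ => hkey k]
  have htop : (⊤ : Ideal R) ∈ s.filter Pri := by
    obtain ⟨-, -, -, -, -, -, h7, -⟩ := hK R ω hQ.qr
    have h1 : nN (⊤ : Ideal R) = 1 := by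
      have := (h7 ⊤).2 rfl
      rw [nm_eq] at this
      exact_mod_cast this
    refine mem_filter.2 ⟨(hs ⊤).2 (by rw [h1]; exact hY), ?_, ?_⟩
    · have hd : IsDomain R := inferInstance
      exact top_ne_bot
    · obtain ⟨-, -, -, -, -, -, -, -, -, -, b11, -⟩ := hBar R ω hQ
      rw [b11]
      exact ⟨1, 0, by simp⟩
  have hN1 : nN (⊤ : Ideal R) = 1 := by
    obtain ⟨-, -, -, -, -, -, h7, -⟩ := hK R ω hQ.qr
    have := (h7 ⊤).2 rfl
    rw [nm_eq] at this
    exact_mod_cast this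
  have hPle : ∀ c ∈ s.filter Pri,
      ‖P H c‖ + ∑ k ∈ range H, ‖P k c - P (k + 1) c‖ ≤ 2 * B * g H 1 := by
    intro c hc
    have hcN : 1 ≤ nN c := nN_pos hK hQ (mem_filter.1 hc).2.1
    have hcY : nN c ≤ Y := (hs c).1 (mem_filter.1 hc).1
    have hge : ∀ i, 1 ≤ (i + 1) ^ 2 * nN c := fun i =>
      Nat.one_le_iff_ne_zero.2 (Nat.mul_ne_zero (by positivity) (by omega))
    have hmon : ∀ i, (i + 1) ^ 2 * nN c ≤ (i + 1 + 1) ^ 2 * nN c := fun i =>
      Nat.mul_le_mul_right _ (Nat.pow_le_pow_left (by omega) 2)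
    have h1 : ‖P H c‖ ≤ B * g H (nN c) := by
      simp only [hP]
      refine (parts_anti (fun i => G H ((i + 1) ^ 2 * nN c)) x B hB ?_ ?_ Y).trans ?_
      · intro i
        simp only [hG]
        split_ifs
        · exact hg.nn _ _
        · exact le_rfl
      · intro i
        simp only [hG]
        split_ifs with h2 h3
        · exact hg.anti H _ _ (hge i) (hmon i)
        · exact absurd ((hmon i).trans h2) h3
        · exact hg.nn _ _
        · exact le_rfl
      · refine mul_le_mul_of_nonneg_left (le_of_eq ?_) hB0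
        simp only [hG]
        rw [show (0 + 1) ^ 2 * nN c = nN c by ring, if_pos hcY]
    have h2 : ∀ k ∈ range H, ‖P k c - P (k + 1) c‖ ≤ B * (g (k + 1) (nN c) - g k (nN c)) := by
      intro k _
      have e1 : P k c - P (k + 1) c = -∑ i ∈ range Y,
          ((G (k + 1) ((i + 1) ^ 2 * nN c) - G k ((i + 1) ^ 2 * nN c) : ℝ) : ℂ) * x i := by
        simp only [hP]
        rw [← sum_sub_distrib, ← sum_neg_distrib]
        refine sum_congr rfl fun i _ => ?_
        push_cast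
        ring
      rw [e1, norm_neg]
      refine (parts_anti (fun i => G (k + 1) ((i + 1) ^ 2 * nN c) - G k ((i + 1) ^ 2 * nN c))
        x B hB ?_ ?_ Y).trans ?_
      · intro i
        simp only [hG]
        split_ifs
        · exact sub_nonneg.2 (hg.mono _ _ (hge i))
        · simp
      · intro i
        simp only [hG]
        split_ifs with h2 h3
        · exact hg.diff k _ _ (hge i) (hmon i)
        · exact absurd ((hmon i).trans h2) h3
        · rw [sub_zero]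
          exact sub_nonneg.2 (hg.mono _ _ (hge i))
        · exact le_rfl
      · refine mul_le_mul_of_nonneg_left (le_of_eq ?_) hB0
        simp only [hG]
        rw [show (0 + 1) ^ 2 * nN c = nN c by ring, if_pos hcY, if_pos hcY]
    have h3 : ∑ k ∈ range H, ‖P k c - P (k + 1) c‖ ≤ B * g H (nN c) := by
      refine (sum_le_sum h2).trans ?_
      rw [← mul_sum, Finset.sum_range_sub (fun k => g k (nN c))]
      refine mul_le_mul_of_nonneg_left ?_ hB0
      linarith [hg.nn 0 (nN c)]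
    have h4 : g H (nN c) ≤ g H 1 := hg.anti H 1 (nN c) le_rfl hcN
    have h5 := mul_le_mul_of_nonneg_left h4 hB0
    linarith
  have hfirst := hcfg.first htop hN1 (zz_top hK hQ hΨ) Y hY (fun c hc => (hs c).1 (mem_filter.1 hc).1)
    P (2 * B * g H 1) J H hPle
  rw [a0_top hK hQ h, one_mul] at hfirst
  have hdiag : ∀ k ∈ range H, ‖P k ⊤ - L0 * (g k 1 : ℂ)‖ ≤ (2 + W0) * A := by
    intro k hk
    have hW0 := hg.w0
    have e1 := diag (fun i => G k ((i + 1) ^ 2)) x L0 A (2 + W0) hA0 (by linarith) Y hA (by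
        simp only [hG]
        rw [if_neg]
        have : Y < (Y + 1) ^ 2 := by nlinarith
        omega) (by
        intro i hi
        simp only [hG]
        have hle : (i + 1) ^ 2 ≤ (i + 1 + 1) ^ 2 := Nat.pow_le_pow_left (by omega) 2
        split_ifs with h2 h3
        · exact sub_nonneg.2 (hg.anti k _ _ (Nat.one_le_pow _ _ (Nat.succ_pos i)) hle)
        · rw [sub_zero]
          exact hg.nn _ _
        · exact absurd (hle.trans (by assumption)) h2
        · simp) (by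
        intro i hi
        have hi0 : (0 : ℝ) < (i : ℝ) + 1 := by positivity
        simp only [hG]
        have h1le : 1 ≤ (i + 1) ^ 2 := Nat.one_le_pow _ _ (Nat.succ_pos i)
        have hle : (i + 1) ^ 2 ≤ (i + 1 + 1) ^ 2 := Nat.pow_le_pow_left (by omega) 2
        split_ifs with h2 h3
        · refine (hg.log k _ _ h1le hle).trans ?_
          have e2 : (((i + 1 + 1) ^ 2 : ℕ) : ℝ) / (((i + 1) ^ 2 : ℕ) : ℝ) =
              (((i : ℝ) + 2) / ((i : ℝ) + 1)) ^ 2 := by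
            push_cast
            rw [div_pow]
            ring
          rw [e2, Real.log_pow]
          have e3 := Real.log_le_sub_one_of_pos (show (0 : ℝ) < ((i : ℝ) + 2) / ((i : ℝ) + 1) by
            positivity)
          have e4 : ((i : ℝ) + 2) / ((i : ℝ) + 1) - 1 = 1 / ((i : ℝ) + 1) := by
            field_simp
            ring
          rw [e4] at e3
          push_cast
          calc 2 * Real.log (((i : ℝ) + 2) / ((i : ℝ) + 1)) ≤ 2 * (1 / ((i : ℝ) + 1)) := by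
                linarith
            _ ≤ (2 + W0) / ((i : ℝ) + 1) := by
                rw [mul_one_div]
                exact div_le_div_of_nonneg_right (by linarith) hi0.le
        · rw [sub_zero]
          have h5 : Y ≤ 4 * (i + 1) ^ 2 := by nlinarith
          refine (hg.dec k (mem_range.1 hk).le _ h1le h5).trans ?_
          have h6 : ((i : ℝ) + 1) ≤ (((i + 1) ^ 2 : ℕ) : ℝ) := by
            push_cast
            nlinarith [Nat.cast_nonneg (α := ℝ) i]
          calc W0 / (((i + 1) ^ 2 : ℕ) : ℝ) ≤ W0 / ((i : ℝ) + 1) :=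
                div_le_div_of_nonneg_left hW0 hi0 h6
            _ ≤ (2 + W0) / ((i : ℝ) + 1) := div_le_div_of_nonneg_right (by linarith) hi0.le
        · exact absurd (hle.trans (by assumption)) h2
        · rw [sub_zero]
          positivity)
    have e5 : P k ⊤ = ∑ i ∈ range Y, (G k ((i + 1) ^ 2) : ℂ) * x i := by
      simp only [hP]
      refine sum_congr rfl fun i _ => ?_
      rw [hN1, mul_one]
    have e6 : G k ((0 + 1) ^ 2) = g k 1 := by
      simp only [hG]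
      rw [show (0 + 1) ^ 2 = 1 by norm_num, if_pos hY]
    simp only [e6] at e1
    rw [e5]
    exact e1
  have h6 : ‖∑ k ∈ range H, P k ⊤ - L0 * ∑ k ∈ range H, (g k 1 : ℂ)‖ ≤ (2 + W0) * A * H := by
    rw [mul_sum, ← sum_sub_distrib]
    refine (norm_sum_le_of_le _ hdiag).trans ?_
    rw [sum_const, card_range, nsmul_eq_mul, mul_comm]
  calc _ = ‖(∑ k ∈ range H, ∑ c ∈ s.filter Pri, a0 m ψ c * zz Ψ c ^ (J + k) * P k c -
        ∑ k ∈ range H, P k ⊤) + (∑ k ∈ range H, P k ⊤ - L0 * ∑ k ∈ range H, (g k 1 : ℂ))‖ := by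
        rw [sub_add_sub_cancel]
    _ ≤ _ := (norm_add_le _ _).trans (add_le_add hfirst h6)

end

end Pool.Agent.Y727.WA
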