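import Mathlib

/-!
# The final numerical argument
-/

set_option autoImplicit false

open Finset

namespace Pool.Agent.Y727.WA

theorem count_core (D : ℕ → ℂ) (H : ℕ) (t : ℝ) (ht : 0 ≤ t) (u : ℝ) (hu : 0 ≤ u)
    (h : u + t * H ≤ ‖∑ k ∈ range H, D k‖) :
    u ^ 2 ≤
      (((range H).filter (fun k => t ≤ ‖D k‖)).card : ℝ) * ∑ k ∈ range H, ‖D k‖ ^ 2 := by
  classical
  have h1 : ‖∑ k ∈ range H, D k‖ ≤ ∑ k ∈ (range H).filter (fun k => t ≤ ‖D k‖), ‖D k‖ +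
      ∑ k ∈ (range H).filter (fun k => ¬ t ≤ ‖D k‖), ‖D k‖ := by
    rw [sum_filter_add_sum_filter_not]
    exact norm_sum_le _ _
  have h2 : ∑ k ∈ (range H).filter (fun k => ¬ t ≤ ‖D k‖), ‖D k‖ ≤ t * H := by
    have a1 : ∀ k ∈ (range H).filter (fun k => ¬ t ≤ ‖D k‖), ‖D k‖ ≤ t := by
      intro k hk
      exact (not_le.1 (mem_filter.1 hk).2).le
    refine (Finset.sum_le_card_nsmul _ _ _ a1).trans ?_
    rw [nsmul_eq_mul, mul_comm]
    refine mul_le_mul_of_nonneg_left ?_ ht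
    have := Finset.card_filter_le (range H) (fun k => ¬ t ≤ ‖D k‖)
    rw [card_range] at this
    exact_mod_cast this
  have h3 : u ≤ ∑ k ∈ (range H).filter (fun k => t ≤ ‖D k‖), ‖D k‖ := by linarith
  calc u ^ 2 ≤ (∑ k ∈ (range H).filter (fun k => t ≤ ‖D k‖), ‖D k‖) ^ 2 :=
        pow_le_pow_left₀ hu h3 2
    _ ≤ (((range H).filter (fun k => t ≤ ‖D k‖)).card : ℝ) *
        ∑ k ∈ (range H).filter (fun k => t ≤ ‖D k‖), ‖D k‖ ^ 2 := sq_sum_le_card_mul_sum_sq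
    _ ≤ _ := by
        refine mul_le_mul_of_nonneg_left ?_ (Nat.cast_nonneg _)
        exact sum_le_sum_of_subset_of_nonneg (filter_subset _ _) fun _ _ _ => by positivity

/-- the count from the two moments -/
theorem count_fin (lam c6 c7 c8 : ℝ) (hlam : 0 < lam) (h6 : 0 < c6) (h7 : 0 ≤ c7) (h8 : 0 ≤ c8) :
    ∃ c C : ℝ, 0 < c ∧ 0 < C ∧ c ≤ lam / 4 ∧ ∀ (J H : ℕ) (D : ℕ → ℂ), C ≤ J →
      C * Real.sqrt J * Real.log J ≤ H →
      lam * (H * Real.log J) - c7 * (Real.log J ^ 2 * Real.sqrt J) - c8 * H ≤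
        ‖∑ k ∈ range H, D k‖ →
      ∑ k ∈ range H, ‖D k‖ ^ 2 ≤ c6 * (Real.log J ^ 2 * (H * Real.log J + J)) →
      c * H ^ 2 / (J + H * Real.log J) ≤
        (((range H).filter (fun k => lam / 4 * Real.log J ≤ ‖D k‖)).card : ℝ) := by
  set K : ℝ := 4 * (c7 + c8) / lam + 1 with hK
  have hK1 : 1 ≤ K := by rw [hK]; linarith [show 0 ≤ 4 * (c7 + c8) / lam by positivity]
  refine ⟨min (lam ^ 2 / (16 * c6)) (lam / 4), Real.exp K + K, by positivity, by positivity,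
    min_le_right _ _, ?_⟩
  intro J H D hJ hH h1 h2
  set ℓ : ℝ := Real.log J with hℓ
  have hexp : Real.exp K ≤ J := by linarith
  have hJ0 : (0 : ℝ) < J := lt_of_lt_of_le (Real.exp_pos _) hexp
  have hℓK : K ≤ ℓ := by
    rw [hℓ, Real.le_log_iff_exp_le hJ0]
    exact hexp
  have hℓ1 : 1 ≤ ℓ := hK1.trans hℓK
  have hs0 : 0 < Real.sqrt J := Real.sqrt_pos.2 hJ0
  have hH0 : (0 : ℝ) ≤ H := Nat.cast_nonneg H
  have hKH : K * (Real.sqrt J * ℓ) ≤ H := by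
    refine le_trans ?_ hH
    rw [mul_assoc]
    refine mul_le_mul_of_nonneg_right ?_ (by positivity)
    linarith [Real.exp_pos K]
  -- the first moment
  have e1 : 4 * (c7 + c8) ≤ lam * K := by
    have : lam * (4 * (c7 + c8) / lam + 1) = 4 * (c7 + c8) + lam := by field_simp
    rw [hK, this]
    linarith
  have e2 : c7 * (ℓ ^ 2 * Real.sqrt J) * K ≤ c7 * (H * ℓ) := by
    have : ℓ ^ 2 * Real.sqrt J * K ≤ H * ℓ := by
      calc ℓ ^ 2 * Real.sqrt J * K = (K * (Real.sqrt J * ℓ)) * ℓ := by ring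
        _ ≤ H * ℓ := mul_le_mul_of_nonneg_right hKH (by linarith)
    calc c7 * (ℓ ^ 2 * Real.sqrt J) * K = c7 * (ℓ ^ 2 * Real.sqrt J * K) := by ring
      _ ≤ c7 * (H * ℓ) := mul_le_mul_of_nonneg_left this h7
  have e3 : c8 * H * K ≤ c8 * (H * ℓ) := by
    calc c8 * H * K = c8 * (H * K) := by ring
      _ ≤ c8 * (H * ℓ) := mul_le_mul_of_nonneg_left (mul_le_mul_of_nonneg_left hℓK hH0) h8
  have e4 : c7 * (ℓ ^ 2 * Real.sqrt J) + c8 * H ≤ lam / 4 * (H * ℓ) := by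
    have hK0 : 0 < K := by linarith
    have a1 : (c7 * (ℓ ^ 2 * Real.sqrt J) + c8 * H) * K ≤ (c7 + c8) * (H * ℓ) := by
      rw [add_mul, add_mul]; linarith
    have a2 : (c7 + c8) * (H * ℓ) ≤ (lam / 4 * (H * ℓ)) * K := by
      have : 0 ≤ H * ℓ := by positivity
      nlinarith
    exact le_of_mul_le_mul_right (a1.trans a2) hK0
  have e5 : lam / 2 * (H * ℓ) ≤ ‖∑ k ∈ range H, D k‖ := by
    have : 0 ≤ lam / 4 * (H * ℓ) := by positivity
    linarith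
  have e6 := count_core D H (lam / 4 * ℓ) (by positivity) (lam / 4 * (H * ℓ)) (by positivity)
    (le_trans (le_of_eq (by ring)) e5)
  set n : ℝ := (((range H).filter (fun k => lam / 4 * ℓ ≤ ‖D k‖)).card : ℝ) with hn
  have hn0 : 0 ≤ n := Nat.cast_nonneg _
  have e8 : (lam / 4 * (H * ℓ)) ^ 2 ≤ n * (c6 * (ℓ ^ 2 * (H * ℓ + J))) :=
    e6.trans (mul_le_mul_of_nonneg_left h2 hn0)
  have hden : 0 < (J : ℝ) + H * ℓ := by positivity
  rw [div_le_iff₀ hden]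
  have e9 : (lam ^ 2 / (16 * c6) * H ^ 2) * (c6 * ℓ ^ 2) ≤ (n * (J + H * ℓ)) * (c6 * ℓ ^ 2) := by
    have a1 : (lam ^ 2 / (16 * c6) * H ^ 2) * (c6 * ℓ ^ 2) = (lam / 4 * (H * ℓ)) ^ 2 := by
      field_simp
      ring
    rw [a1]
    refine e8.trans (le_of_eq ?_)
    ring
  refine le_trans ?_ (le_of_mul_le_mul_right e9 (by positivity))
  exact mul_le_mul_of_nonneg_right (min_le_left _ _) (by positivity)

end Pool.Agent.Y727.WA
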