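import Mathlib
import Pool.Agent.Y727.WA.Sp

/-!
# The characters `ψ Ψ ^ j`, their root numbers, and the parity of the order of vanishing
-/

set_option autoImplicit false

open Complex Filter Topology

namespace Pool.Agent.Y727.WA

open Pool.Agent.W192.HK Pool.Agent.TH936.AC Pool.Agent.TH936.AW
open Pool.Agent.W192.CM (ez nu)

section
variable {R : Subring ℂ} {ω : ℂ}

/-- the twist -/
noncomputable def tw (ψ Ψ : Ideal R → ℂ) (j : ℕ) (I : Ideal R) : ℂ := ψ I * Ψ I ^ j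

/-- the centre -/
noncomputable def mj (R : Subring ℂ) (m j : ℕ) : ℕ := m + nu R * j

theorem exp_eq {m : ℕ} (hm : 1 ≤ m) (j : ℕ) :
    2 * mj R m j - 1 = (2 * m - 1) + (2 * nu R) * j := by
  unfold mj
  have : (2 * nu R) * j = 2 * (nu R * j) := by ring
  rw [this]
  omega

theorem hc_tw (hK : H_BASIC) (hQ : QP R ω) {m : ℕ} (hm : 1 ≤ m) {f : Ideal R} {ψ Ψ : Ideal R → ℂ}
    (h : HC (2 * m - 1) f ψ) (hΨ : IsPs Ψ) (j : ℕ) :
    HC (2 * mj R m j - 1) f (tw ψ Ψ j) := by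
  have hexp : 2 * mj R m j - 1 = (2 * m - 1) + (2 * nu R) * j := exp_eq hm j
  refine ⟨h.ne, ?_, ?_, ?_, ?_⟩
  · intro I J
    unfold tw
    rw [h.mul, Ps_mul hQ hΨ, mul_pow]
    ring
  · intro I
    unfold tw
    constructor
    · intro h0
      rcases mul_eq_zero.1 h0 with h1 | h1
      · exact (h.zero I).1 h1
      · left
        by_contra hne
        exact pow_ne_zero j (Ps_ne hK hQ hΨ hne) h1
    · intro h0
      rw [(h.zero I).2 h0, zero_mul]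
  · intro α hα hα1
    unfold tw
    rw [h.princ α hα hα1, hΨ, hexp, pow_add, pow_mul _ (2 * nu R) j]
  · intro q' hq'
    obtain ⟨α, h0, h1, h2, h3⟩ := h.prim q' hq'
    refine ⟨α, h0, h1, h2, fun h4 => h3 ?_⟩
    unfold tw at h4
    rw [hΨ, hexp, pow_add, ← pow_mul] at h4
    have hαc : (α : ℂ) ≠ 0 := fun h' => h0 (Subtype.ext h')
    exact mul_right_cancel₀ (pow_ne_zero _ hαc) h4

theorem cs_tw (hB : A_BAR) (hQ : QP R ω) {ψ Ψ : Ideal R → ℂ} (h : CS ψ) (hΨ : IsPs Ψ) (j : ℕ) :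
    CS (tw ψ Ψ j) := by
  intro I
  unfold tw
  rw [h, Ps_bar hB hQ hΨ, map_mul, map_pow]

theorem wc_tw (hK : H_BASIC) (hB : A_BAR) (hF : H_FP) (hQ : QP R ω) {m : ℕ} (hm : 1 ≤ m)
    {f : Ideal R} {ψ Ψ : Ideal R → ℂ} (h : HC (2 * m - 1) f ψ) (hc : CS ψ) (hΨ : IsPs Ψ)
    {s : Finset (Ideal R)} {hh : Ideal R} {μ : R} {T : Finset R} (hS : Sys f s hh μ T) (j : ℕ) :
    Wc ω (mj R m j) f hh μ T (tw ψ Ψ j) = Wc ω m f hh μ T ψ := by
  obtain ⟨-, -, k3, -⟩ := hK R ω hQ.qr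
  have hexp : 2 * mj R m j - 1 = (2 * m - 1) + (2 * nu R) * j := exp_eq hm j
  have hodd : Odd (2 * m - 1) := ⟨m - 1, by omega⟩
  have hbar := Pool.Agent.TH936.AW.Wc.bar_eq hB hF hQ hodd h hc
  have hΨf := Ps_fix hK hB hQ hΨ h.ne hbar
  have hfp : ∀ x : R, fp (2 * mj R m j - 1) (tw ψ Ψ j) x = fp (2 * m - 1) ψ x := by
    intro x
    unfold fp tw
    by_cases hx : x = 0
    · subst hx
      have h1 : sp (0 : R) = ⊥ := by rw [Ideal.span_singleton_eq_bot]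
      rw [h1, (h.zero ⊥).2 (Or.inl rfl)]
      simp
    · have hxc : (x : ℂ) ≠ 0 := fun h' => hx (Subtype.ext h')
      rw [hΨ, hexp, pow_add, ← pow_mul, mul_div_mul_right _ _ (pow_ne_zero _ hxc)]
  have hg : gT ω (2 * mj R m j - 1) (tw ψ Ψ j) μ T = gT ω (2 * m - 1) ψ μ T := by
    unfold gT
    exact Finset.sum_congr rfl fun x _ => by rw [hfp]
  unfold Wc
  rw [hg]
  have h1 := k3 f h.ne
  have hnf : (nm f : ℂ) ≠ 0 := by
    have : nm f ≠ 0 := by linarith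
    exact_mod_cast this
  have hΨh : Ψ hh ≠ 0 := Ps_ne hK hQ hΨ hS.ne
  have hμ : (μ : ℂ) ^ (2 * nu R) = (nm f : ℂ) ^ nu R * Ψ hh := by
    rw [← hΨ, ← hS.prn, Ps_mul hQ hΨ, hΨf]
  have hμ0 : (μ : ℂ) ^ (2 * nu R) ≠ 0 := by
    rw [hμ]
    exact mul_ne_zero (pow_ne_zero _ hnf) hΨh
  unfold tw
  rw [hexp, pow_add (μ : ℂ), pow_mul (μ : ℂ) (2 * nu R) j]
  have e1 : (nm f : ℂ) ^ (mj R m j) * (ψ hh * Ψ hh ^ j) =
      ((nm f : ℂ) ^ m * ψ hh) * ((μ : ℂ) ^ (2 * nu R)) ^ j := by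
    rw [hμ]
    unfold mj
    rw [pow_add, mul_pow, ← pow_mul]
    ring
  rw [e1, ← mul_assoc, mul_div_mul_right _ _ (pow_ne_zero _ hμ0)]

/-- the coefficients -/
theorem coef_tw {m : ℕ} (ψ Ψ : Ideal R → ℂ) (j : ℕ) (I : Ideal R) :
    tw ψ Ψ j I / (nm I : ℂ) ^ (mj R m j) = ψ I / (nm I : ℂ) ^ m * zz Ψ I ^ j := by
  unfold tw zz mj
  rw [pow_add, div_pow, ← pow_mul, mul_div_mul_comm]

/-- the parity of the order of vanishing -/
theorem parity {m : ℕ} (hm : 1 ≤ m) {Q : Ideal R} {W : ℂ} {F : ℂ → ℂ} (hF : Differentiable ℂ F)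
    (hX : 0 < ω.im * Real.sqrt (nm Q) / Real.pi) (hfe : FEQK m ω Q W F) {n : ℕ}
    (hn : analyticOrderAt F (m : ℂ) = n) : W = (-1) ^ n := by
  have hFa := hF.analyticAt (m : ℂ)
  obtain ⟨g, hg, hgm, hge⟩ := hFa.analyticOrderAt_eq_natCast.1 hn
  set X : ℝ := ω.im * Real.sqrt (nm Q) / Real.pi with hXdef
  have hXc : (X : ℂ) ≠ 0 := by exact_mod_cast hX.ne'
  have hm0 : (0 : ℝ) < m := by exact_mod_cast hm
  set A : ℂ → ℂ := fun s => (X : ℂ) ^ s * Complex.Gamma s with hA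
  have hG0 : Complex.Gamma (m : ℂ) ≠ 0 := by
    refine Complex.Gamma_ne_zero_of_re_pos ?_
    rw [Complex.natCast_re]
    exact hm0
  have hAm : A m ≠ 0 := mul_ne_zero (by
    rw [Complex.cpow_def_of_ne_zero hXc]
    exact Complex.exp_ne_zero _) hG0
  have hAc : ContinuousAt A (m : ℂ) := by
    refine ContinuousAt.mul ?_ ?_
    · exact (continuousAt_const_cpow hXc)
    · refine (Complex.differentiableAt_Gamma _ fun k hk => ?_).continuousAt
      have h1 := congrArg Complex.re hk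
      rw [Complex.natCast_re, Complex.neg_re, Complex.natCast_re] at h1
      have : (0 : ℝ) ≤ k := Nat.cast_nonneg k
      linarith
  -- reflection
  have hrefl : Tendsto (fun z : ℂ => 2 * (m : ℂ) - z) (𝓝 (m : ℂ)) (𝓝 (m : ℂ)) := by
    have h1 : Continuous (fun z : ℂ => 2 * (m : ℂ) - z) := continuous_const.sub continuous_id
    have h2 := h1.tendsto (m : ℂ)
    have h3 : 2 * (m : ℂ) - (m : ℂ) = m := by ring
    rwa [h3] at h2
  have hre : ∀ᶠ z : ℂ in 𝓝 (m : ℂ), 0 < z.re ∧ z.re < 2 * m := by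
    have h1 : ContinuousAt (fun z : ℂ => z.re) (m : ℂ) := Complex.continuous_re.continuousAt
    have h2 : (m : ℂ).re = (m : ℝ) := Complex.natCast_re m
    refine (h1.eventually (lt_mem_nhds (show (0 : ℝ) < (m : ℂ).re by rw [h2]; exact hm0))).and
      (h1.eventually (gt_mem_nhds (show (m : ℂ).re < 2 * m by rw [h2]; linarith)))
  have hev : ∀ᶠ z : ℂ in 𝓝[≠] (m : ℂ), A z * g z =
      W * (-1) ^ n * (A (2 * (m : ℂ) - z) * g (2 * (m : ℂ) - z)) := by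
    have h1 := hge.filter_mono (nhdsWithin_le_nhds (s := {(m : ℂ)}ᶜ))
    have h2 := (hrefl.eventually hge).filter_mono (nhdsWithin_le_nhds (s := {(m : ℂ)}ᶜ))
    have h3 := hre.filter_mono (nhdsWithin_le_nhds (s := {(m : ℂ)}ᶜ))
    filter_upwards [h1, h2, h3, self_mem_nhdsWithin] with z hz1 hz2 hz3 hz4
    have h5 := hfe z hz3.1 hz3.2
    rw [hz1, hz2, smul_eq_mul, smul_eq_mul] at h5
    have hz0 : z - (m : ℂ) ≠ 0 := sub_ne_zero.2 hz4
    have h6 : 2 * (m : ℂ) - z - m = (-1) * (z - m) := by ring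
    rw [h6, mul_pow] at h5
    refine mul_left_cancel₀ (pow_ne_zero n hz0) ?_
    simp only [hA]
    linear_combination h5
  have hl1 : Tendsto (fun z => A z * g z) (𝓝[≠] (m : ℂ)) (𝓝 (A m * g m)) :=
    (hAc.mul hg.continuousAt).tendsto.mono_left nhdsWithin_le_nhds
  have hl2 : Tendsto (fun z => W * (-1) ^ n * (A (2 * (m : ℂ) - z) * g (2 * (m : ℂ) - z)))
      (𝓝[≠] (m : ℂ)) (𝓝 (W * (-1) ^ n * (A m * g m))) := by
    refine Tendsto.mono_left ?_ nhdsWithin_le_nhds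
    exact ((hAc.mul hg.continuousAt).tendsto.comp hrefl).const_mul _
  have h7 := tendsto_nhds_unique (hl1.congr' hev) hl2
  have h8 : A m * g m ≠ 0 := mul_ne_zero hAm hgm
  have h9 : W * (-1) ^ n = 1 := by
    refine mul_right_cancel₀ h8 ?_
    rw [one_mul]
    exact h7.symm
  have h10 : ((-1 : ℂ) ^ n) * (-1) ^ n = 1 := by rw [← mul_pow]; norm_num
  calc W = W * (((-1 : ℂ) ^ n) * (-1) ^ n) := by rw [h10, mul_one]
    _ = (W * (-1) ^ n) * (-1) ^ n := by ring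
    _ = (-1) ^ n := by rw [h9, one_mul]

end

end Pool.Agent.Y727.WA
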