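import Mathlib
import Pool.Agent.TH936.AD.Vd

/-!
# The weight functions for large weight
-/

set_option autoImplicit false

open Filter Topology Set MeasureTheory

namespace Pool.Agent.Y727.WA

open Pool.Agent.W192.CY (Vk)
open Pool.Agent.TH936.HK (vk_nonneg vk_le vk_le_one le_vk hasDerivAt_vk vk_int)
open Pool.Agent.TH936.AD (Vd)
open Pool.Agent.TH936.AD.Vd (cont_vk contOn intOn dec nonneg')

theorem V_mono {m m' : ℕ} (h : m ≤ m') {x : ℝ} (hx : 0 ≤ x) : Vk m x ≤ Vk m' x := by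
  unfold Vk
  refine mul_le_mul_of_nonneg_left ?_ (Real.exp_pos _).le
  refine Finset.sum_le_sum_of_subset_of_nonneg (Finset.range_subset_range.2 h) ?_
  intro i _ _
  positivity

theorem V_anti {m : ℕ} (hm : 1 ≤ m) {x y : ℝ} (hx : 0 ≤ x) (hxy : x ≤ y) : Vk m y ≤ Vk m x := by
  have h1 : AntitoneOn (Vk m) (Ici 0) := by
    refine antitoneOn_of_deriv_nonpos (convex_Ici 0) (cont_vk hm).continuousOn ?_ ?_
    · exact fun u _ => (hasDerivAt_vk m hm u).differentiableAt.differentiableWithinAt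
    · intro u hu
      rw [interior_Ici] at hu
      have hu0 : 0 < u := hu
      rw [(hasDerivAt_vk m hm u).deriv]
      have : 0 ≤ u ^ (m - 1) * Real.exp (-u) / ((m - 1).factorial : ℝ) := by positivity
      linarith
  exact h1 (Set.mem_Ici.2 hx) (Set.mem_Ici.2 (hx.trans hxy)) hxy

theorem V_low {m : ℕ} (hm : 2 ≤ m) {x : ℝ} (hx : 0 ≤ x) (hxm : x ≤ m / 8) : 1 / 2 ≤ Vk m x := by
  have hs := NormedSpace.expSeries_div_hasSum_exp (x : ℝ)
  rw [← Real.exp_eq_exp_ℝ] at hs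
  have hs2 := NormedSpace.expSeries_div_hasSum_exp (2 * x : ℝ)
  rw [← Real.exp_eq_exp_ℝ] at hs2
  have h1 : Real.exp x = ∑ j ∈ Finset.range m, x ^ j / (j.factorial : ℝ) +
      ∑' j : ℕ, x ^ (j + m) / ((j + m).factorial : ℝ) := by
    rw [← hs.tsum_eq]
    exact (hs.summable.sum_add_tsum_nat_add m).symm
  have h2 : ∑' j : ℕ, (2 * x) ^ (j + m) / ((j + m).factorial : ℝ) ≤ Real.exp (2 * x) := by
    rw [← hs2.tsum_eq, ← hs2.summable.sum_add_tsum_nat_add m]
    have : 0 ≤ ∑ j ∈ Finset.range m, (2 * x) ^ j / (j.factorial : ℝ) :=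
      Finset.sum_nonneg fun _ _ => by positivity
    linarith
  have h3 : ∑' j : ℕ, x ^ (j + m) / ((j + m).factorial : ℝ) ≤
      (1 / 2) ^ m * ∑' j : ℕ, (2 * x) ^ (j + m) / ((j + m).factorial : ℝ) := by
    rw [← tsum_mul_left]
    refine Summable.tsum_le_tsum ?_ ((summable_nat_add_iff m).2 hs.summable)
      (((summable_nat_add_iff m).2 hs2.summable).mul_left _)
    intro j
    rw [← mul_div_assoc]
    refine div_le_div_of_nonneg_right ?_ (by positivity)
    have e1 : (1 / 2 : ℝ) ^ m * (2 * x) ^ (j + m) = 2 ^ j * x ^ (j + m) := by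
      rw [mul_pow, pow_add (2 : ℝ) j m, one_div, inv_pow]
      field_simp
    rw [e1]
    exact le_mul_of_one_le_left (by positivity) (one_le_pow₀ (by norm_num))
  have hm0 : (2 : ℝ) ≤ m := by exact_mod_cast hm
  have h4 : (1 / 2 : ℝ) ^ m * Real.exp (2 * x) ≤ 1 / 2 * Real.exp x := by
    have e1 : Real.exp (2 * x) = Real.exp x * Real.exp x := by rw [← Real.exp_add]; ring_nf
    have e2 : (1 / 2 : ℝ) ^ m * Real.exp x ≤ 1 / 2 := by
      have a1 : Real.exp x ≤ Real.exp ((m : ℝ) / 8) := Real.exp_le_exp.2 hxm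
      have a2 : (1 / 2 : ℝ) ^ m = Real.exp (-(Real.log 2 * m)) := by
        rw [Real.exp_neg, mul_comm, Real.exp_nat_mul, Real.exp_log (by norm_num), one_div, inv_pow]
      have a3 : (1 / 2 : ℝ) = Real.exp (-Real.log 2) := by
        rw [Real.exp_neg, Real.exp_log (by norm_num), one_div]
      calc (1 / 2 : ℝ) ^ m * Real.exp x ≤ (1 / 2 : ℝ) ^ m * Real.exp ((m : ℝ) / 8) :=
            mul_le_mul_of_nonneg_left a1 (by positivity)
        _ = Real.exp (-(Real.log 2 * m) + (m : ℝ) / 8) := by rw [a2, ← Real.exp_add]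
        _ ≤ Real.exp (-Real.log 2) := by
            refine Real.exp_le_exp.2 ?_
            have := Real.log_two_gt_d9
            nlinarith
        _ = 1 / 2 := a3.symm
    calc (1 / 2 : ℝ) ^ m * Real.exp (2 * x) = ((1 / 2 : ℝ) ^ m * Real.exp x) * Real.exp x := by
          rw [e1]; ring
      _ ≤ 1 / 2 * Real.exp x := mul_le_mul_of_nonneg_right e2 (Real.exp_pos _).le
  have h5 : 1 / 2 * Real.exp x ≤ ∑ j ∈ Finset.range m, x ^ j / (j.factorial : ℝ) := by
    have := mul_le_mul_of_nonneg_left h2 (show (0 : ℝ) ≤ (1 / 2) ^ m by positivity)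
    linarith
  unfold Vk
  have h6 := mul_le_mul_of_nonneg_left h5 (Real.exp_pos (-x)).le
  have h7 : Real.exp (-x) * (1 / 2 * Real.exp x) = 1 / 2 := by
    rw [Real.exp_neg]
    have := (Real.exp_pos x).ne'
    field_simp
  linarith

/-- the difference of two values -/
theorem vd_split {m : ℕ} (hm : 1 ≤ m) {a b : ℝ} (ha : 0 < a) (hab : a ≤ b) :
    Vd m a - Vd m b = ∫ u in a..b, Vk m u / u := by
  unfold Vd
  rw [intervalIntegral.integral_of_le hab, ← Set.Ioc_union_Ioi_eq_Ioi hab,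
    setIntegral_union (Set.Ioc_disjoint_Ioi le_rfl)
    measurableSet_Ioi ((intOn hm ha).mono_set fun u hu => hu.1)
    (intOn hm (ha.trans_le hab))]
  ring

theorem ii {m : ℕ} (hm : 1 ≤ m) {a b : ℝ} (ha : 0 < a) (hab : a ≤ b) :
    IntervalIntegrable (fun u : ℝ => Vk m u / u) volume a b :=
  (contOn hm fun u hu => by
    rw [Set.uIcc_of_le hab] at hu
    exact (ha.trans_le hu.1).ne').intervalIntegrable

theorem int_c {a b : ℝ} (ha : 0 < a) (hab : a ≤ b) (c : ℝ) :
    IntervalIntegrable (fun u : ℝ => c / u) volume a b ∧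
    ∫ u in a..b, c / u = c * Real.log (b / a) := by
  have h0 : ∀ u ∈ Set.uIcc a b, u ≠ 0 := by
    intro u hu
    rw [Set.uIcc_of_le hab] at hu
    exact (ha.trans_le hu.1).ne'
  refine ⟨(continuousOn_const.div continuousOn_id h0).intervalIntegrable, ?_⟩
  have e : ∀ u : ℝ, c / u = c * (1 / u) := fun u => by ring
  simp only [e]
  rw [intervalIntegral.integral_const_mul, integral_one_div fun h => h0 0 h rfl]

theorem vd_le {m : ℕ} (hm : 1 ≤ m) {a b : ℝ} (ha : 0 < a) (hab : a ≤ b) :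
    Vd m a - Vd m b ≤ Real.log (b / a) := by
  rw [vd_split hm ha hab]
  obtain ⟨h1, h2⟩ := int_c ha hab 1
  rw [one_mul] at h2
  rw [← h2]
  refine intervalIntegral.integral_mono_on hab (ii hm ha hab) h1 fun u hu => ?_
  exact div_le_div_of_nonneg_right (vk_le_one m (ha.le.trans hu.1)) (ha.le.trans hu.1)

theorem vd_ge {m : ℕ} (hm : 1 ≤ m) {a b : ℝ} (ha : 0 < a) (hab : a ≤ b) :
    Vk m b * Real.log (b / a) ≤ Vd m a - Vd m b := by
  rw [vd_split hm ha hab]
  obtain ⟨h1, h2⟩ := int_c ha hab (Vk m b)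
  rw [← h2]
  refine intervalIntegral.integral_mono_on hab h1 (ii hm ha hab) fun u hu => ?_
  exact div_le_div_of_nonneg_right (V_anti hm (ha.le.trans hu.1) hu.2) (ha.le.trans hu.1)

theorem vd_anti {m : ℕ} (hm : 1 ≤ m) {a b : ℝ} (ha : 0 < a) (hab : a ≤ b) : Vd m b ≤ Vd m a := by
  have h1 := vd_ge hm ha hab
  have h2 : 0 ≤ Vk m b * Real.log (b / a) := by
    refine mul_nonneg (vk_nonneg m (ha.le.trans hab)) (Real.log_nonneg ?_)
    rw [le_div_iff₀ ha]; linarith
  linarith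

theorem vd_nonneg (m : ℕ) {x : ℝ} (hx : 0 ≤ x) : 0 ≤ Vd m x := by
  unfold Vd
  exact setIntegral_nonneg measurableSet_Ioi fun u hu => nonneg' m hx u hu

theorem vd_mono {m m' : ℕ} (hm : 1 ≤ m) (h : m ≤ m') {x : ℝ} (hx : 0 < x) :
    Vd m x ≤ Vd m' x := by
  unfold Vd
  refine setIntegral_mono_on (intOn hm hx) (intOn (hm.trans h) hx) measurableSet_Ioi fun u hu => ?_
  have hu0 : 0 < u := hx.trans hu
  exact div_le_div_of_nonneg_right (V_mono h hu0.le) hu0.le

/-- the difference of two weight functions is decreasing -/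
theorem vd_diff {m m' : ℕ} (hm : 1 ≤ m) (h : m ≤ m') {a b : ℝ} (ha : 0 < a) (hab : a ≤ b) :
    Vd m' b - Vd m b ≤ Vd m' a - Vd m a := by
  have h1 : Vd m a - Vd m b ≤ Vd m' a - Vd m' b := by
    rw [vd_split hm ha hab, vd_split (hm.trans h) ha hab]
    refine intervalIntegral.integral_mono_on hab (ii hm ha hab) (ii (hm.trans h) ha hab) ?_
    intro u hu
    exact div_le_div_of_nonneg_right (V_mono h (ha.le.trans hu.1)) (ha.le.trans hu.1)
  linarith

theorem vd_dec {m : ℕ} (hm : 1 ≤ m) {x : ℝ} (hxm : 4 * m ≤ x) :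
    Vd m x ≤ 2 * Real.exp (-(x / 4)) := by
  have hm0 : (1 : ℝ) ≤ m := by exact_mod_cast hm
  have h1 := dec hm (show (1 : ℝ) ≤ x by linarith)
  refine h1.trans ?_
  have h2 : (2 : ℝ) ^ m ≤ Real.exp (x / 4) := by
    have a2 : (2 : ℝ) ^ m = Real.exp (m * Real.log 2) := by
      rw [Real.exp_nat_mul, Real.exp_log (by norm_num)]
    rw [a2]
    refine Real.exp_le_exp.2 ?_
    have := Real.log_two_lt_d9
    nlinarith
  have h3 : Real.exp (-(x / 2)) = Real.exp (-(x / 4)) * Real.exp (-(x / 4)) := by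
    rw [← Real.exp_add]; ring_nf
  rw [h3, pow_succ]
  have h4 : (2 : ℝ) ^ m * Real.exp (-(x / 4)) ≤ 1 := by
    have := mul_le_mul_of_nonneg_right h2 (Real.exp_pos (-(x / 4))).le
    rw [← Real.exp_add, add_neg_cancel, Real.exp_zero] at this
    exact this
  have h5 := Real.exp_pos (-(x / 4))
  nlinarith

theorem vd_up {m : ℕ} (hm : 1 ≤ m) {x : ℝ} (hx : 0 < x) :
    Vd m x ≤ 2 + |Real.log (4 * m / x)| := by
  have hm0 : (1 : ℝ) ≤ m := by exact_mod_cast hm
  have h0 : Vd m (4 * m) ≤ 2 := by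
    have h1 := vd_dec hm (le_refl (4 * (m : ℝ)))
    have h2 : Real.exp (-(4 * (m : ℝ) / 4)) ≤ 1 := Real.exp_le_one_iff.2 (by linarith)
    linarith
  rcases le_total x (4 * m) with h | h
  · have h1 := vd_le hm hx h
    have h2 := le_abs_self (Real.log (4 * m / x))
    linarith
  · have h1 := vd_anti hm (show (0 : ℝ) < 4 * m by linarith) h
    have h2 := abs_nonneg (Real.log (4 * m / x))
    linarith

theorem vd_low {m : ℕ} (hm : 2 ≤ m) {x : ℝ} (hx : 0 < x) (hxm : x ≤ m / 8) :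
    1 / 2 * Real.log (m / 8 / x) ≤ Vd m x := by
  have hm0 : (2 : ℝ) ≤ m := by exact_mod_cast hm
  have h1 := vd_ge (by omega : 1 ≤ m) hx hxm
  have h2 := V_low hm (show (0 : ℝ) ≤ m / 8 by linarith) le_rfl
  have h3 := vd_nonneg m (show (0 : ℝ) ≤ m / 8 by linarith)
  have h4 : 0 ≤ Real.log (m / 8 / x) := by
    refine Real.log_nonneg ?_
    rw [le_div_iff₀ hx]; linarith
  nlinarith [mul_le_mul_of_nonneg_right h2 h4]

end Pool.Agent.Y727.WA
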