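import Mathlib
import Pool.Agent.Y727.WA.Co
import Pool.Agent.Y727.WA.Vk
import Pool.Agent.Y727.WA.Hc

/-!
# The tail of the sum for the derivative, and the weights
-/

set_option autoImplicit false

open Finset

namespace Pool.Agent.Y727.WA

open Pool.Agent.W192.HK Pool.Agent.TH936.AC Pool.Agent.TH936.AW
open Pool.Agent.W192.CM (nu)
open Pool.Agent.W192.CY (Vk)
open Pool.Agent.TH936.AD (Vd)

section
variable {R : Subring ℂ} {ω : ℂ}

theorem mj_ge {m : ℕ} (hw : 1 ≤ nu R) (j : ℕ) : j ≤ mj R m j := by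
  unfold mj
  calc j = 1 * j := (one_mul j).symm
    _ ≤ nu R * j := Nat.mul_le_mul_right _ hw
    _ ≤ m + nu R * j := Nat.le_add_left _ _

theorem mj_mono {m : ℕ} {i j : ℕ} (h : i ≤ j) : mj R m i ≤ mj R m j := by
  unfold mj
  exact Nat.add_le_add_left (Nat.mul_le_mul_left _ h) _

theorem mj_pos {m : ℕ} (hm : 1 ≤ m) (j : ℕ) : 1 ≤ mj R m j := by
  unfold mj
  omega

theorem wk (m : ℕ) (hm : 1 ≤ m) (X : ℝ) (hX : 0 < X) (J H Y : ℕ)
    (hY : 16 * X * mj R m (J + H) ≤ Y) :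
    WK (fun k n => Vd (mj R m (J + k)) (n / X)) Y H (8 * X) := by
  refine ⟨by positivity, ?_, ?_, ?_, ?_, ?_, ?_⟩
  · intro k n
    exact vd_nonneg _ (by positivity)
  · intro k a b ha hab
    have ha0 : (0 : ℝ) < a := by exact_mod_cast ha
    have hab' : (a : ℝ) ≤ b := by exact_mod_cast hab
    exact vd_anti (mj_pos hm _) (by positivity) (div_le_div_of_nonneg_right hab' hX.le)
  · intro k a ha
    have ha0 : (0 : ℝ) < a := by exact_mod_cast ha
    exact vd_mono (mj_pos hm _) (mj_mono (by omega)) (by positivity)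
  · intro k a b ha hab
    have ha0 : (0 : ℝ) < a := by exact_mod_cast ha
    have hab' : (a : ℝ) ≤ b := by exact_mod_cast hab
    exact vd_diff (mj_pos hm _) (mj_mono (by omega)) (by positivity)
      (div_le_div_of_nonneg_right hab' hX.le)
  · intro k a b ha hab
    have ha0 : (0 : ℝ) < a := by exact_mod_cast ha
    have hab' : (a : ℝ) ≤ b := by exact_mod_cast hab
    refine (vd_le (mj_pos hm _) (show 0 < (a : ℝ) / X by positivity)
      (div_le_div_of_nonneg_right hab' hX.le)).trans (le_of_eq ?_)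
    congr 1
    field_simp
  · intro k hk n hn hYn
    have hn0 : (0 : ℝ) < n := by exact_mod_cast hn
    have h1 : (mj R m (J + k) : ℝ) ≤ mj R m (J + H) := by
      exact_mod_cast mj_mono (by omega)
    have h2 : (Y : ℝ) ≤ 4 * n := by exact_mod_cast hYn
    have h3 : 4 * (mj R m (J + k) : ℝ) ≤ n / X := by
      rw [le_div_iff₀ hX]
      have := mul_le_mul_of_nonneg_left h1 (show 0 ≤ 16 * X by positivity)
      nlinarith
    refine (vd_dec (mj_pos hm _) h3).trans ?_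
    have h4 : 0 < (n : ℝ) / X / 4 := by positivity
    have h5 : Real.exp (-((n : ℝ) / X / 4)) ≤ 1 / ((n : ℝ) / X / 4) := by
      rw [Real.exp_neg, inv_eq_one_div]
      exact one_div_le_one_div_of_le h4 (by linarith [Real.add_one_le_exp ((n : ℝ) / X / 4)])
    calc 2 * Real.exp (-((n : ℝ) / X / 4)) ≤ 2 * (1 / ((n : ℝ) / X / 4)) := by linarith
      _ = 8 * X / n := by field_simp; ring

/-- the tail of the sum -/
theorem tail (hK : H_BASIC) (hC : H_CNT) (hF : H_FP) (hQ : QP R ω) {m : ℕ} (hm : 1 ≤ m)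
    {f : Ideal R} {ψ Ψ : Ideal R → ℂ} (h : HC (2 * m - 1) f ψ) (hΨ : IsPs Ψ) (X : ℝ)
    (hX : 0 < X) : ∃ E : ℝ, 0 < E ∧ ∀ (Y : ℕ) (s : Finset (Ideal R)),
      (∀ I : Ideal R, I ∈ s ↔ nN I ≤ Y) → ∀ j : ℕ, 4 * X * mj R m j ≤ Y →
      ‖∑' I : Ideal R, a0 m ψ I * zz Ψ I ^ j * (Vd (mj R m j) (nm I / X) : ℂ) -
        ∑ I ∈ s, a0 m ψ I * zz Ψ I ^ j * (Vd (mj R m j) (nm I / X) : ℂ)‖ ≤ E := by
  obtain ⟨hfin, hsm, -⟩ := hC R ω hQ.qr
  have hs2 := (hsm 2 (by norm_num)).mul_left (64 * X ^ 2)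
  refine ⟨∑' I : Ideal R, 64 * X ^ 2 * (nm I) ^ (-(2 : ℝ)) + 1, ?_, fun Y s hs j hj => ?_⟩
  · have : 0 ≤ ∑' I : Ideal R, 64 * X ^ 2 * (nm I) ^ (-(2 : ℝ)) :=
      tsum_nonneg fun I => mul_nonneg (by positivity) (Real.rpow_nonneg (by rw [nm_eq]; positivity) _)
    linarith
  set F : Ideal R → ℂ := fun I => a0 m ψ I * zz Ψ I ^ j * (Vd (mj R m j) (nm I / X) : ℂ) with hFdef
  have hbd : ∀ I ∉ s, ‖F I‖ ≤ 64 * X ^ 2 * (nm I) ^ (-(2 : ℝ)) := by
    intro I hI
    have h1 : Y < nN I := by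
      by_contra h2
      exact hI ((hs I).2 (not_lt.1 h2))
    have hI0 : I ≠ ⊥ := by
      rintro rfl
      obtain ⟨-, k2, -⟩ := hK R ω hQ.qr
      rw [nm_eq] at k2
      have : nN (⊥ : Ideal R) = 0 := by exact_mod_cast k2
      omega
    have hN : (0 : ℝ) < nN I := by
      have : 0 < nN I := by omega
      exact_mod_cast this
    have hN1 : (1 : ℝ) ≤ nN I := by
      have : 1 ≤ nN I := by omega
      exact_mod_cast this
    have hYN : (Y : ℝ) ≤ nN I := by exact_mod_cast h1.le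
    have e1 : ‖a0 m ψ I‖ ≤ 1 := by
      have h2 := a0_norm hK hF hQ hm h hI0
      have h3 : (1 : ℝ) / nN I ≤ 1 := by rw [div_le_one hN]; exact hN1
      nlinarith [norm_nonneg (a0 m ψ I)]
    have e2 : ‖zz Ψ I ^ j‖ = 1 := by rw [norm_pow, zz_norm hK hQ hΨ hI0, one_pow]
    have e3 : 4 * (mj R m j : ℝ) ≤ (nN I : ℝ) / X := by
      rw [le_div_iff₀ hX]
      linarith
    have e4 := vd_dec (mj_pos (R := R) hm j) e3
    have e5 := vd_nonneg (mj R m j) (show 0 ≤ (nN I : ℝ) / X by positivity)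
    set t : ℝ := (nN I : ℝ) / X / 4 with ht
    have ht0 : 0 < t := by positivity
    have e6 : Real.exp (-t) ≤ 2 / t ^ 2 := by
      rw [Real.exp_neg, inv_eq_one_div, div_le_div_iff₀ (Real.exp_pos t) (by positivity)]
      have := Real.quadratic_le_exp_of_nonneg ht0.le
      nlinarith
    simp only [hFdef]
    rw [norm_mul, norm_mul, e2, mul_one, Complex.norm_real, Real.norm_eq_abs, nm_eq,
      abs_of_nonneg e5]
    calc ‖a0 m ψ I‖ * Vd (mj R m j) ((nN I : ℝ) / X) ≤ 1 * (2 * (2 / t ^ 2)) := by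
          refine mul_le_mul e1 (e4.trans ?_) e5 zero_le_one
          linarith
      _ = 64 * X ^ 2 * (nN I : ℝ) ^ (-(2 : ℝ)) := by
          rw [Real.rpow_neg hN.le, Real.rpow_two, ht]
          field_simp
          ring
  have hsumF : Summable F := by
    refine Summable.of_norm_bounded_eventually hs2 ?_
    have : {I : Ideal R | ¬ ‖F I‖ ≤ 64 * X ^ 2 * (nm I) ^ (-(2 : ℝ))} ⊆ (s : Set (Ideal R)) := by
      intro I hI
      by_contra h2
      exact hI (hbd I (fun h3 => h2 (mem_coe.2 h3)))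
    exact (s.finite_toSet.subset this)
  have h3 := hsumF.sum_add_tsum_subtype_compl s
  have h4 : ∑' I : Ideal R, F I - ∑ I ∈ s, F I = ∑' I : {I : Ideal R // I ∉ s}, F I := by
    rw [← h3]
    ring
  rw [h4]
  have h5 : Summable (fun I : {I : Ideal R // I ∉ s} => 64 * X ^ 2 * (nm (I : Ideal R)) ^ (-(2 : ℝ))) :=
    hs2.subtype _
  have h6 : ‖∑' I : {I : Ideal R // I ∉ s}, F I‖ ≤
      ∑' I : {I : Ideal R // I ∉ s}, 64 * X ^ 2 * (nm (I : Ideal R)) ^ (-(2 : ℝ)) :=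
    tsum_of_norm_bounded h5.hasSum fun I => hbd I I.2
  have h7 : ∑' I : {I : Ideal R // I ∉ s}, 64 * X ^ 2 * (nm (I : Ideal R)) ^ (-(2 : ℝ)) ≤
      ∑' I : Ideal R, 64 * X ^ 2 * (nm I) ^ (-(2 : ℝ)) :=
    hs2.tsum_subtype_le (fun I => 64 * X ^ 2 * (nm I) ^ (-(2 : ℝ))) {I : Ideal R | I ∉ s}
      (fun I => mul_nonneg (by positivity) (Real.rpow_nonneg (by rw [nm_eq]; positivity) _))
  linarith

end

end Pool.Agent.Y727.WA
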