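import Mathlib
import Pool.Agent.Y727.WA.Tl
import Pool.Agent.Y727.WA.Nu
import Pool.Agent.TH936.AD.Fe

/-!
# The number of simple zeros
-/

set_option autoImplicit false

open Finset

namespace Pool.Agent.Y727.WA

open Pool.Agent.W192.HK Pool.Agent.TH936.AC Pool.Agent.TH936.AW
open Pool.Agent.W192.CM (nu)
open Pool.Agent.W192.CY (Vk)
open Pool.Agent.TH936.AD (Vd D_FE)

section
variable {R : Subring ℂ} {ω : ℂ}

/-- the two moments of the derivatives -/
theorem moments (hK : H_BASIC) (hC : H_CNT) (hF : H_FP) (hBar : A_BAR) (hDec : A_DEC) (hGC : B_GC)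
    (hFE : D_FE) (hQ : QP R ω) {m : ℕ} (hm : 1 ≤ m) {f : Ideal R} {ψ Ψ : Ideal R → ℂ}
    (h : HC (2 * m - 1) f ψ) (hc : CS ψ) (hR : Ram f) (hΨ : IsPs Ψ)
    {s0 : Finset (Ideal R)} {hh : Ideal R} {μ : R} {T : Finset R} (hS : Sys f s0 hh μ T)
    (hW : Wc ω m f hh μ T ψ = -1) :
    ∃ lam c6 c7 c8 C0 : ℝ, 0 < lam ∧ 0 < c6 ∧ 0 ≤ c7 ∧ 0 ≤ c8 ∧ 0 < C0 ∧
      ∀ F : ℕ → ℂ → ℂ, (∀ j, Differentiable ℂ (F j)) →
      (∀ j, ∀ z : ℂ, (mj R m j : ℝ) + 1 / 2 < z.re →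
        HasSum (fun I : Ideal R => tw ψ Ψ j I * (nm I : ℂ) ^ (-z)) (F j z)) →
      ∀ J H : ℕ, C0 ≤ J → H ≤ J →
      lam * (H * Real.log J) - c7 * (Real.log J ^ 2 * Real.sqrt J) - c8 * H ≤
        ‖∑ k ∈ range H, deriv (F (J + k)) (mj R m (J + k) : ℂ)‖ ∧
      ∑ k ∈ range H, ‖deriv (F (J + k)) (mj R m (J + k) : ℂ)‖ ^ 2 ≤
        c6 * (Real.log J ^ 2 * (H * Real.log J + J)) := by
  classical
  set X : ℝ := ω.im * Real.sqrt (nm f) / Real.pi with hXdef
  have hX : 0 < X := by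
    obtain ⟨-, -, k3, -⟩ := hK R ω hQ.qr
    have h1 := k3 f h.ne
    have h2 : 0 < Real.sqrt (nm f) := Real.sqrt_pos.2 (by linarith)
    have h3 := hQ.qr.im
    have h4 := Real.pi_pos
    positivity
  obtain ⟨L0, x, B, A, hL0, hB, hA, hx, hxB, hxA⟩ := ex_chi hK hGC hQ hm h
  obtain ⟨κ, Cn, hκ, hκ1, hCn, hcfg⟩ := ex_cfg hK hC hF hBar hQ hm h hΨ
  obtain ⟨E, hE, htail⟩ := tail hK hC hF hQ hm h hΨ X hX
  obtain ⟨hfin, -⟩ := hC R ω hQ.qr
  have hw : 1 ≤ nu R := nu_pos hK hQ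
  have hL0n : 0 < ‖L0‖ := norm_pos_iff.2 hL0
  set c1 : ℝ := 16 * X * (m + 2 * nu R) + 2 with hc1
  have hc1p : 2 ≤ c1 := by
    rw [hc1]
    have : 0 ≤ 16 * X * ((m : ℝ) + 2 * nu R) := by positivity
    linarith
  set A1 : ℝ := 2 + Real.log c1 with hA1
  set A2 : ℝ := 2 + Real.log (c1 / κ) with hA2
  set A3 : ℝ := 3 + |Real.log (4 * X)| + Real.log c1 with hA3
  have hlc1 : 0 ≤ Real.log c1 := Real.log_nonneg (by linarith)
  have hlc2 : 0 ≤ Real.log (c1 / κ) := by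
    refine Real.log_nonneg ?_
    rw [le_div_iff₀ hκ]
    linarith
  have hA1p : 0 < A1 := by rw [hA1]; linarith
  have hA2p : 0 < A2 := by rw [hA2]; linarith
  have hA3p : 0 < A3 := by rw [hA3]; linarith [abs_nonneg (Real.log (4 * X))]
  refine ⟨‖L0‖ / 2, 8 * ((1 + 8 * X) ^ 2 * B ^ 2 * Cn * A1 ^ 2 * (8 * A1 + 256 * c1 / κ)) +
    8 * E ^ 2, 2 * (400 / κ * (2 * B * A3) * A2 * Real.sqrt c1), 2 * ((2 + 8 * X) * A) + 2 * E,
    64 / X ^ 2 + 8 / X + 3, by positivity, by positivity, by positivity, by positivity,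
    by positivity, ?_⟩
  intro F hFd hFs J H hJ hHJ
  have hJ64 : 64 / X ^ 2 ≤ J := by
    have : 0 < 8 / X := by positivity
    linarith
  have hJ8 : 8 / X ≤ J := by
    have : 0 < 64 / X ^ 2 := by positivity
    linarith
  have hJ3 : (3 : ℝ) ≤ J := by
    have : 0 < 64 / X ^ 2 := by positivity
    have : 0 < 8 / X := by positivity
    linarith
  have hJ0 : (0 : ℝ) < J := by linarith
  have hJn : 3 ≤ J := by exact_mod_cast hJ3
  set ℓ : ℝ := Real.log J with hℓ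
  have hℓ1 : 1 ≤ ℓ := by
    rw [hℓ, Real.le_log_iff_exp_le hJ0]
    have := Real.exp_one_lt_d9
    linarith
  have hHr : (H : ℝ) ≤ J := by exact_mod_cast hHJ
  have hH0 : (0 : ℝ) ≤ H := Nat.cast_nonneg H
  set M : ℕ := mj R m (J + H) with hM
  have hM1 : 1 ≤ M := mj_pos hm _
  have hM1r : (1 : ℝ) ≤ M := by exact_mod_cast hM1
  have hMle : (M : ℝ) ≤ (m + 2 * nu R) * J := by
    rw [hM]
    unfold mj
    push_cast
    have h1 : (m : ℝ) * 1 ≤ m * J := mul_le_mul_of_nonneg_left (by linarith) (Nat.cast_nonneg m)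
    have h2 : (nu R : ℝ) * H ≤ nu R * J := mul_le_mul_of_nonneg_left hHr (Nat.cast_nonneg _)
    calc (m : ℝ) + nu R * (J + H) = m * 1 + nu R * J + nu R * H := by ring
      _ ≤ m * J + nu R * J + nu R * J := by linarith
      _ = (m + 2 * nu R) * J := by ring
  set Y : ℕ := ⌈16 * X * M⌉₊ + 1 with hYdef
  have hY1 : 1 ≤ Y := by omega
  have hY1r : (1 : ℝ) ≤ Y := by exact_mod_cast hY1
  have hYge : 16 * X * M ≤ Y := by
    have := Nat.le_ceil (16 * X * (M : ℝ))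
    rw [hYdef]
    push_cast
    linarith
  have hYle : (Y : ℝ) ≤ c1 * J := by
    have h1 := (Nat.ceil_lt_add_one (show 0 ≤ 16 * X * (M : ℝ) by positivity)).le
    have h2 : (Y : ℝ) ≤ 16 * X * M + 2 := by
      rw [hYdef]
      push_cast
      linarith
    have h3 : 16 * X * (M : ℝ) ≤ 16 * X * ((m + 2 * nu R) * J) :=
      mul_le_mul_of_nonneg_left hMle (by positivity)
    have h4 : c1 * J = 16 * X * ((m + 2 * nu R) * J) + 2 * J := by rw [hc1]; ring
    rw [h4]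
    linarith
  have hY0 : (0 : ℝ) < Y := by linarith
  set s : Finset (Ideal R) := (hfin (Y : ℝ)).toFinset with hsdef
  have hs : ∀ I : Ideal R, I ∈ s ↔ nN I ≤ Y := by
    intro I
    rw [hsdef, Set.Finite.mem_toFinset]
    exact Nat.cast_le (α := ℝ)
  set g : ℕ → ℕ → ℝ := fun k n => Vd (mj R m (J + k)) (n / X) with hg
  have hwk : WK g Y H (8 * X) := wk m hm X hX J H Y hYge
  have hsec := second_main hK hDec hQ h hR hΨ hx hxB Y hY1 s hs (hcfg Y s hs) J H g hwk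
  have hfir := first_main hK hDec hBar hQ h hR hΨ hx hxB hA.le hxA Y hY1 s hs (hcfg Y s hs) J H g hwk
  set Mn : ℕ → ℂ := fun k => ∑ I ∈ s, a0 m ψ I * zz Ψ I ^ (J + k) * (g k (nN I) : ℂ) with hMn
  set D : ℕ → ℂ := fun k => deriv (F (J + k)) (mj R m (J + k) : ℂ) with hD
  -- the derivatives
  have hDM : ∀ k ∈ range H, ‖D k - 2 * Mn k‖ ≤ 2 * E := by
    intro k hk
    have hkH := mem_range.1 hk
    have h1 := hFE R ω hQ (mj R m (J + k)) (mj_pos hm _) f (tw ψ Ψ (J + k))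
      (hc_tw hK hQ hm h hΨ (J + k)) (cs_tw hBar hQ hc hΨ (J + k)) s0 hh μ T hS
      (by rw [wc_tw hK hBar hF hQ hm h hc hΨ hS (J + k), hW]) (F (J + k)) (hFd _) (hFs _)
    have h2 := h1.2
    simp only [coef_tw] at h2
    have h4 : 4 * X * (mj R m (J + k) : ℝ) ≤ Y := by
      have a1 : (mj R m (J + k) : ℝ) ≤ M := by
        exact_mod_cast mj_mono (by omega)
      have a2 := mul_le_mul_of_nonneg_left a1 (show 0 ≤ 4 * X by positivity)
      have a3 : 0 ≤ X * (M : ℝ) := by positivity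
      linarith
    have h5 := htail Y s hs (J + k) h4
    have h6 : D k - 2 * Mn k = 2 * (∑' I : Ideal R, a0 m ψ I * zz Ψ I ^ (J + k) *
        (Vd (mj R m (J + k)) (nm I / X) : ℂ) -
        ∑ I ∈ s, a0 m ψ I * zz Ψ I ^ (J + k) * (Vd (mj R m (J + k)) (nm I / X) : ℂ)) := by
      simp only [hD]
      rw [h2, mul_sub]
      rfl
    rw [h6, norm_mul]
    have : ‖(2 : ℂ)‖ = 2 := by norm_num
    rw [this]
    linarith
  -- logarithms
  have hlY : 1 + Real.log Y ≤ A1 * ℓ := by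
    have h1 : Real.log Y ≤ Real.log c1 + ℓ := by
      rw [hℓ, ← Real.log_mul (by linarith) hJ0.ne']
      exact Real.log_le_log hY0 hYle
    have a := mul_nonneg hlc1 (sub_nonneg.2 hℓ1)
    rw [hA1]
    linear_combination h1 + a + hℓ1
  have hlY0 : 0 ≤ Real.log Y := Real.log_nonneg hY1r
  have hlYκ : 1 + Real.log (Y / κ) ≤ A2 * ℓ := by
    have h1 : Real.log (Y / κ) ≤ Real.log (c1 / κ) + ℓ := by
      rw [hℓ, ← Real.log_mul (by positivity) hJ0.ne']
      refine Real.log_le_log (by positivity) ?_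
      rw [div_mul_eq_mul_div]
      exact div_le_div_of_nonneg_right hYle hκ.le
    have a := mul_nonneg hlc2 (sub_nonneg.2 hℓ1)
    rw [hA2]
    linear_combination h1 + a + hℓ1
  have hgH : g H 1 ≤ A3 * ℓ := by
    have h1 : g H 1 ≤ 2 + |Real.log (4 * M / (((1 : ℕ) : ℝ) / X))| :=
      vd_up hM1 (by positivity)
    have h2 : 4 * (M : ℝ) / (((1 : ℕ) : ℝ) / X) = 4 * X * M := by
      push_cast
      field_simp
    rw [h2] at h1
    have h3 : |Real.log (4 * X * M)| ≤ |Real.log (4 * X)| + Real.log c1 + ℓ := by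
      rw [abs_le]
      constructor
      · have a1 : Real.log (4 * X) ≤ Real.log (4 * X * M) :=
          Real.log_le_log (by positivity) (le_mul_of_one_le_right (by positivity) hM1r)
        have a2 := neg_abs_le (Real.log (4 * X))
        linarith
      · have a1 : Real.log (4 * X * M) ≤ Real.log c1 + ℓ := by
          rw [hℓ, ← Real.log_mul (by linarith) hJ0.ne']
          refine Real.log_le_log (by positivity) (le_trans ?_ hYle)
          have : 0 ≤ X * (M : ℝ) := by positivity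
          linarith
        have a2 := abs_nonneg (Real.log (4 * X))
        linarith
    have h4 := mul_nonneg (abs_nonneg (Real.log (4 * X))) (sub_nonneg.2 hℓ1)
    have a := mul_nonneg hlc1 (sub_nonneg.2 hℓ1)
    rw [hA3]
    linear_combination h1 + h3 + h4 + a + 2 * hℓ1
  have hgH0 : 0 ≤ g H 1 := hwk.nn H 1
  have hgk : ∀ k ∈ range H, 1 / 4 * ℓ ≤ g k 1 := by
    intro k _
    have hmJ : J ≤ mj R m (J + k) := (Nat.le_add_right J k).trans (mj_ge hw _)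
    have hmJr : (J : ℝ) ≤ mj R m (J + k) := by exact_mod_cast hmJ
    have h1 : (((1 : ℕ) : ℝ) / X) ≤ (mj R m (J + k) : ℝ) / 8 := by
      push_cast
      rw [div_le_iff₀ hX]
      rw [div_le_iff₀ hX] at hJ8
      have := mul_le_mul_of_nonneg_right hmJr hX.le
      linarith
    have h2 := vd_low (show 2 ≤ mj R m (J + k) by omega)
      (show 0 < (((1 : ℕ) : ℝ) / X) by positivity) h1
    refine le_trans ?_ h2
    have h3 : (mj R m (J + k) : ℝ) / 8 / (((1 : ℕ) : ℝ) / X) = mj R m (J + k) * X / 8 := by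
      push_cast
      field_simp
    rw [h3]
    have hsq : Real.sqrt J * Real.sqrt J = J := Real.mul_self_sqrt hJ0.le
    have hs0 : 0 < Real.sqrt J := Real.sqrt_pos.2 hJ0
    have h4 : 8 ≤ Real.sqrt J * X := by
      rw [div_le_iff₀ (by positivity)] at hJ64
      by_contra hneg
      have a1 : Real.sqrt J * X < 8 := not_le.1 hneg
      have a2 : (Real.sqrt J * X) ^ 2 < 8 ^ 2 := pow_lt_pow_left₀ a1 (by positivity) two_ne_zero
      have a3 : (Real.sqrt J * X) ^ 2 = J * X ^ 2 := by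
        rw [mul_pow, pow_two (Real.sqrt (J : ℝ)), hsq]
      rw [a3] at a2
      linarith
    have h5 : Real.sqrt J ≤ mj R m (J + k) * X / 8 := by
      rw [le_div_iff₀ (by norm_num)]
      calc Real.sqrt J * 8 ≤ Real.sqrt J * (Real.sqrt J * X) :=
            mul_le_mul_of_nonneg_left h4 hs0.le
        _ = J * X := by rw [← mul_assoc, hsq]
        _ ≤ mj R m (J + k) * X := mul_le_mul_of_nonneg_right hmJr hX.le
    have h6 := Real.log_le_log hs0 h5
    rw [Real.log_sqrt hJ0.le] at h6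
    linarith
  refine ⟨?_, ?_⟩
  · -- first moment
    have e1 : ‖∑ k ∈ range H, D k - 2 * ∑ k ∈ range H, Mn k‖ ≤ 2 * E * H := by
      rw [mul_sum, ← sum_sub_distrib]
      refine (norm_sum_le_of_le _ hDM).trans ?_
      rw [sum_const, card_range, nsmul_eq_mul, mul_comm]
    have e2 : ‖L0 * ∑ k ∈ range H, (g k 1 : ℂ)‖ = ‖L0‖ * ∑ k ∈ range H, g k 1 := by
      rw [norm_mul, ← Complex.ofReal_sum, Complex.norm_real, Real.norm_eq_abs,
        abs_of_nonneg (sum_nonneg fun k _ => hwk.nn k 1)]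
    have e3 : 1 / 4 * (H * ℓ) ≤ ∑ k ∈ range H, g k 1 := by
      have := Finset.card_nsmul_le_sum (range H) (fun k => g k 1) (1 / 4 * ℓ) hgk
      rw [card_range, nsmul_eq_mul] at this
      linarith
    have e4 : Real.sqrt Y ≤ Real.sqrt c1 * Real.sqrt J := by
      rw [← Real.sqrt_mul (by linarith)]
      exact Real.sqrt_le_sqrt hYle
    have e5 : 400 / κ * (2 * B * g H 1) * (1 + Real.log (Y / κ)) * Real.sqrt Y ≤
        (400 / κ * (2 * B * A3) * A2 * Real.sqrt c1) * (ℓ ^ 2 * Real.sqrt J) := by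
      have a0 : 0 ≤ 1 + Real.log (Y / κ) := by
        have : 0 ≤ Real.log (Y / κ) := Real.log_nonneg (by
          rw [le_div_iff₀ hκ]
          linarith)
        linarith
      calc 400 / κ * (2 * B * g H 1) * (1 + Real.log (Y / κ)) * Real.sqrt Y
          ≤ 400 / κ * (2 * B * (A3 * ℓ)) * (A2 * ℓ) * (Real.sqrt c1 * Real.sqrt J) := by
            gcongr
        _ = _ := by ring
    have e6 : ‖L0 * ∑ k ∈ range H, (g k 1 : ℂ)‖ ≤ ‖∑ k ∈ range H, Mn k‖ +
        ‖∑ k ∈ range H, Mn k - L0 * ∑ k ∈ range H, (g k 1 : ℂ)‖ := by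
      have := norm_sub_norm_le (L0 * ∑ k ∈ range H, (g k 1 : ℂ)) (∑ k ∈ range H, Mn k)
      rw [norm_sub_rev] at this
      linarith
    have e7 : ‖2 * ∑ k ∈ range H, Mn k‖ ≤ ‖∑ k ∈ range H, D k‖ + 2 * E * H := by
      have := norm_sub_norm_le (2 * ∑ k ∈ range H, Mn k) (∑ k ∈ range H, D k)
      rw [norm_sub_rev] at this
      linarith
    have e8 : ‖2 * ∑ k ∈ range H, Mn k‖ = 2 * ‖∑ k ∈ range H, Mn k‖ := by
      rw [norm_mul]
      norm_num
    have e9 : ‖L0‖ * (1 / 4 * (H * ℓ)) ≤ ‖L0‖ * ∑ k ∈ range H, g k 1 :=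
      mul_le_mul_of_nonneg_left e3 hL0n.le
    rw [e2] at e6
    have e10 := hfir.trans (add_le_add e5 le_rfl)
    rw [e8] at e7
    change _ ≤ ‖∑ k ∈ range H, D k‖
    linear_combination 2 * e9 + 2 * e6 + 2 * e10 + e7
  · -- second moment
    have e1 : ∀ k ∈ range H, ‖D k‖ ^ 2 ≤ 8 * ‖Mn k‖ ^ 2 + 8 * E ^ 2 := by
      intro k hk
      have a1 := hDM k hk
      have a2 : ‖D k‖ ≤ 2 * ‖Mn k‖ + 2 * E := by
        have := norm_sub_norm_le (D k) (2 * Mn k)
        have a3 : ‖2 * Mn k‖ = 2 * ‖Mn k‖ := by rw [norm_mul]; norm_num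
        linarith
      have a4 := norm_nonneg (D k)
      have a5 := norm_nonneg (Mn k)
      calc ‖D k‖ ^ 2 ≤ (2 * ‖Mn k‖ + 2 * E) ^ 2 := pow_le_pow_left₀ a4 a2 2
        _ ≤ 8 * ‖Mn k‖ ^ 2 + 8 * E ^ 2 := by
          linear_combination 4 * sq_nonneg (‖Mn k‖ - E)
    have e2 : ∑ k ∈ range H, ‖D k‖ ^ 2 ≤ 8 * ∑ k ∈ range H, ‖Mn k‖ ^ 2 + 8 * E ^ 2 * H := by
      refine (sum_le_sum e1).trans (le_of_eq ?_)
      rw [sum_add_distrib, ← mul_sum, sum_const, card_range, nsmul_eq_mul]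
      ring
    set P0 : ℝ := (1 + 8 * X) ^ 2 * B ^ 2 * Cn with hP0
    have hP0p : 0 < P0 := by positivity
    have e3 : P0 * (1 + Real.log Y) ^ 2 * (8 * H * (1 + Real.log Y) + 256 * Y / κ) ≤
        P0 * (A1 * ℓ) ^ 2 * (8 * H * (A1 * ℓ) + 256 * (c1 * J) / κ) := by
      gcongr
    have e4 : 8 * (H : ℝ) * (A1 * ℓ) + 256 * (c1 * J) / κ ≤
        (8 * A1 + 256 * c1 / κ) * (H * ℓ + J) := by
      have a1 : 0 ≤ 8 * A1 * J := by positivity
      have a2 : 0 ≤ 256 * c1 / κ * (H * ℓ) := by positivity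
      have a3 : 256 * (c1 * J) / κ = 256 * c1 / κ * J := by ring
      rw [a3]
      linarith
    have e5 : P0 * (A1 * ℓ) ^ 2 * (8 * H * (A1 * ℓ) + 256 * (c1 * J) / κ) ≤
        P0 * A1 ^ 2 * (8 * A1 + 256 * c1 / κ) * (ℓ ^ 2 * (H * ℓ + J)) := by
      refine (mul_le_mul_of_nonneg_left e4 (by positivity)).trans (le_of_eq ?_)
      ring
    have e6 : (H : ℝ) ≤ ℓ ^ 2 * (H * ℓ + J) := by
      have a1 : 1 ≤ ℓ ^ 2 := one_le_pow₀ hℓ1
      have a0 : 0 ≤ (H : ℝ) * ℓ := by positivity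
      have a2 : (H : ℝ) ≤ H * ℓ + J := by linarith
      exact a2.trans (le_mul_of_one_le_left (by linarith) a1)
    have e7 : 8 * E ^ 2 * H ≤ 8 * E ^ 2 * (ℓ ^ 2 * (H * ℓ + J)) :=
      mul_le_mul_of_nonneg_left e6 (by positivity)
    have e8 : ∑ k ∈ range H, ‖Mn k‖ ^ 2 ≤
        P0 * A1 ^ 2 * (8 * A1 + 256 * c1 / κ) * (ℓ ^ 2 * (H * ℓ + J)) :=
      hsec.trans (e3.trans e5)
    change ∑ k ∈ range H, ‖D k‖ ^ 2 ≤ _
    have e9 : (8 * (P0 * A1 ^ 2 * (8 * A1 + 256 * c1 / κ)) + 8 * E ^ 2) *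
        (ℓ ^ 2 * (H * ℓ + J)) = 8 * (P0 * A1 ^ 2 * (8 * A1 + 256 * c1 / κ) *
        (ℓ ^ 2 * (H * ℓ + J))) + 8 * E ^ 2 * (ℓ ^ 2 * (H * ℓ + J)) := by ring
    rw [e9]
    linarith

end

end Pool.Agent.Y727.WA
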