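import Mathlib
import Pool.Agent.Y727.WA.Fn
import Pool.Agent.TH936.AW.Fe
import Pool.Agent.TH936.AW.Ram
import Pool.Agent.TH936.AW.Gc
import Pool.Agent.TH936.AC.Dec
import Pool.Agent.TH936.HK.AFE
import Pool.Agent.TH936.CW.Odk
import Pool.Agent.Y692.QN.Facts

/-!
# Simple zeros in the weight aspect: the final theorem
-/

set_option autoImplicit false

open Finset

namespace Pool.Agent.Y727.WA

open Pool.Agent.W192.HK Pool.Agent.TH936.AC Pool.Agent.TH936.AW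
open Pool.Agent.W192.CM (nu)
open Pool.Agent.TH936.AD (Vd D_FE)
open Pool.Agent.Y692.QN

theorem K_afe : H_AFE :=
  Pool.Agent.TH936.HK.h_afe F_basic F_fp F_cnt F_gauss F_theta

theorem K_dfe : D_FE :=
  Pool.Agent.TH936.AD.d_fe F_basic F_fp F_cnt F_gauss F_theta K_afe F_bar
    Pool.Agent.TH936.AD.d_vlog

theorem K_bfe : B_FE :=
  Pool.Agent.TH936.AW.b_fe F_basic F_fp F_cnt F_gauss F_theta K_afe F_bar

theorem K_dec : A_DEC := Pool.Agent.TH936.AC.a_dec F_basic F_bar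

theorem K_ram : B_RAM := Pool.Agent.TH936.AW.b_ram F_basic F_fp F_bar

theorem K_gc : B_GC := Pool.Agent.TH936.AW.b_gc F_basic F_fp

section
variable {R : Subring ℂ} {ω : ℂ}

theorem final (hQ : QP R ω) {m : ℕ} (hm : 1 ≤ m) {f : Ideal R} {ψ Ψ : Ideal R → ℂ}
    (h : HC (2 * m - 1) f ψ) (hc : CS ψ) (hΨ : IsPs Ψ) :
    ∃ (w : ℂ) (L : ℕ → ℂ → ℂ), (w = 1 ∨ w = -1) ∧ (∀ j, Differentiable ℂ (L j)) ∧
      (∀ j, ∀ z : ℂ, (mj R m j : ℝ) + 1 / 2 < z.re →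
        HasSum (fun I : Ideal R => tw ψ Ψ j I * (nm I : ℂ) ^ (-z)) (L j z)) ∧
      (∀ j, FEQK (mj R m j) ω f w (L j)) ∧
      (∀ j, analyticOrderAt (L j) (mj R m j : ℂ) ≠ ⊤) ∧
      (∀ j, w = (-1) ^ analyticOrderNatAt (L j) (mj R m j : ℂ)) ∧
      (w = -1 → ∃ c C : ℝ, 0 < c ∧ 0 < C ∧ ∀ J H : ℕ, C ≤ J →
        C * Real.sqrt J * Real.log J ≤ H → H ≤ J →
        c * H ^ 2 / (J + H * Real.log J) ≤
          (((range H).filter (fun k => analyticOrderAt (L (J + k)) (mj R m (J + k) : ℂ) = 1 ∧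
            c * Real.log J ≤ ‖deriv (L (J + k)) (mj R m (J + k) : ℂ)‖)).card : ℝ)) := by
  classical
  have hR : Ram f := K_ram R ω hQ m hm f ψ h hc
  obtain ⟨h0, -, -, hcls⟩ := F_cls R ω hQ.qr
  obtain ⟨s0, hh, μ, T, -, hS⟩ := hcls f h.ne
  set w : ℂ := Wc ω m f hh μ T ψ with hw
  have hX : 0 < ω.im * Real.sqrt (nm f) / Real.pi := by
    obtain ⟨-, -, k3, -⟩ := F_basic R ω hQ.qr
    have h1 := k3 f h.ne
    have h2 : 0 < Real.sqrt (nm f) := Real.sqrt_pos.2 (by linarith)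
    have h3 := hQ.qr.im
    have h4 := Real.pi_pos
    positivity
  have hFE : ∀ j, (w = 1 ∨ w = -1) ∧ ∃ F : ℂ → ℂ, Differentiable ℂ F ∧
      (∀ z : ℂ, (mj R m j : ℝ) + 1 / 2 < z.re →
        HasSum (fun I : Ideal R => tw ψ Ψ j I * (nm I : ℂ) ^ (-z)) (F z)) ∧
      FEQK (mj R m j) ω f w F := by
    intro j
    obtain ⟨h1, F, h2, h3, h4, -⟩ := K_bfe R ω hQ (mj R m j) (mj_pos hm j) f (tw ψ Ψ j)
      (hc_tw F_basic hQ hm h hΨ j) (cs_tw F_bar hQ hc hΨ j) s0 hh μ T hS w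
      (by rw [hw, wc_tw F_basic F_bar F_fp hQ hm h hc hΨ hS j])
    exact ⟨h1, F, h2, h3, h4⟩
  have hpm := (hFE 0).1
  choose L hLd hLs hLf using fun j => (hFE j).2
  have hord : ∀ j, analyticOrderAt (L j) (mj R m j : ℂ) ≠ ⊤ := by
    intro j
    obtain ⟨K, -, hKo⟩ := Pool.Agent.TH936.CW.ordK_le F_basic F_fp F_cnt F_gauss F_theta F_cls
      hQ.qr (mj R m j - 1)
    have hmj : mj R m j - 1 + 1 = mj R m j := Nat.sub_add_cancel (mj_pos hm j)
    have h1 : 2 * (mj R m j - 1) + 1 = 2 * mj R m j - 1 := by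
      have := mj_pos (R := R) hm j
      omega
    have h2 := hKo f (tw ψ Ψ j) (by rw [h1]; exact hc_tw F_basic hQ hm h hΨ j) (L j) (hLd j)
    rw [hmj] at h2
    exact (h2 (hLs j)).1
  have hpar : ∀ j, w = (-1) ^ analyticOrderNatAt (L j) (mj R m j : ℂ) := by
    intro j
    exact parity (mj_pos hm j) (hLd j) hX (hLf j) (Nat.cast_analyticOrderNatAt (hord j)).symm
  refine ⟨w, L, hpm, hLd, hLs, hLf, hord, hpar, fun hw1 => ?_⟩
  obtain ⟨lam, c6, c7, c8, C0, hlam, h6, h7, h8, hC0, hmom⟩ :=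
    moments F_basic F_cnt F_fp F_bar K_dec K_gc K_dfe hQ hm h hc hR hΨ hS (hw.symm.trans hw1)
  obtain ⟨c, C, hcp, hCp, hcl, hcount⟩ := count_fin lam c6 c7 c8 hlam h6 h7 h8
  refine ⟨c, C + C0 + 2, hcp, by linarith, fun J H hJ hH hHJ => ?_⟩
  obtain ⟨e1, e2⟩ := hmom L hLd hLs J H (by linarith) hHJ
  have hlp : 0 < Real.log J := Real.log_pos (by linarith)
  have hl : 0 ≤ Real.log J := hlp.le
  have h3 := hcount J H (fun k => deriv (L (J + k)) (mj R m (J + k) : ℂ)) (by linarith) (by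
    refine le_trans ?_ hH
    refine mul_le_mul_of_nonneg_right ?_ hl
    exact mul_le_mul_of_nonneg_right (by linarith) (Real.sqrt_nonneg _)) e1 e2
  refine h3.trans ?_
  have h4 : (range H).filter
      (fun k => lam / 4 * Real.log J ≤ ‖deriv (L (J + k)) (mj R m (J + k) : ℂ)‖) ⊆
      (range H).filter (fun k => analyticOrderAt (L (J + k)) (mj R m (J + k) : ℂ) = 1 ∧
        c * Real.log J ≤ ‖deriv (L (J + k)) (mj R m (J + k) : ℂ)‖) := by
    intro k hk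
    rw [mem_filter] at hk ⊢
    refine ⟨hk.1, ?_, (mul_le_mul_of_nonneg_right hcl hl).trans hk.2⟩
    have h5 := K_dfe R ω hQ (mj R m (J + k)) (mj_pos hm _) f (tw ψ Ψ (J + k))
      (hc_tw F_basic hQ hm h hΨ (J + k)) (cs_tw F_bar hQ hc hΨ (J + k)) s0 hh μ T hS
      (by rw [wc_tw F_basic F_bar F_fp hQ hm h hc hΨ hS (J + k), ← hw, hw1]) (L (J + k)) (hLd _)
      (hLs _)
    have h6 : deriv (L (J + k)) (mj R m (J + k) : ℂ) ≠ 0 := by
      intro h0
      rw [h0, norm_zero] at hk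
      have h7 : 0 < lam / 4 * Real.log J := mul_pos (by linarith) hlp
      linarith [hk.2]
    exact ((hLd (J + k)).analyticAt _).analyticOrderAt_eq_one_of_zero_deriv_ne_zero h5.1 h6
  exact_mod_cast Finset.card_le_card h4

end

end Pool.Agent.Y727.WA
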